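import Pool.Agent.Lib.MP_557161_ag.DL.TwoD

/-!
The cycle of the graph of Frobenius is the sum of its components.
-/

namespace Pool.Agent.Lib.MP_557161_ag.DL.Sm

open MvPolynomial
open Pool.Agent.Lib.MP_60ec62_ag.DL (dm cm lenAt)

variable {K : Type} [Field K] {σ : Type} [Finite σ] (Y : Sm K σ)

namespace GrC

variable (K σ) in
/-- The parametrisation before passing to the quotient. -/
noncomputable def par0 (Q : ℕ) : MvPolynomial (σ ⊕ σ) K →ₐ[K] Polynomial (MvPolynomial σ K) :=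
  aeval (Sum.elim (fun s => Polynomial.X * Polynomial.C (X s ^ Q)) fun s => Polynomial.C (X s))

omit [Finite σ] in
lemma par_eq (Q : ℕ) (f : MvPolynomial (σ ⊕ σ) K) :
    Y.par Q f = (par0 K σ Q f).map (Ideal.Quotient.mk Y.I) := by
  have e1 : Y.par Q =
      (Polynomial.mapAlgHom (Ideal.Quotient.mkₐ K Y.I)).comp (par0 K σ Q) := by
    ext s : 1
    rcases s with s | s <;> simp [par, par0]
  rw [e1]
  rfl

omit [Finite σ] in
lemma mem_gr (Q : ℕ) (f : MvPolynomial (σ ⊕ σ) K) :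
    f ∈ Y.gr Q ↔ ∀ n, (par0 K σ Q f).coeff n ∈ Y.I := by
  rw [gr, RingHom.mem_ker, par_eq, Polynomial.ext_iff]
  simp only [Polynomial.coeff_map, Polynomial.coeff_zero, Ideal.Quotient.eq_zero_iff_mem]

omit [Finite σ] in
lemma gr_eq (Q : ℕ) : Y.gr Q = (Y.I.map Polynomial.C).comap
    (par0 K σ Q : MvPolynomial (σ ⊕ σ) K →+* Polynomial (MvPolynomial σ K)) := by
  ext f
  rw [mem_gr, Ideal.mem_comap, Ideal.mem_map_C_iff]
  rfl

lemma lenAt_rad {R : Type} [CommRing R] {I : Ideal R} (hr : I.IsRadical) {p : PrimeSpectrum R}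
    (hp : p.asIdeal ∈ I.minimalPrimes) : lenAt p (R ⧸ I) = 1 := by
  have h2 : ∀ x ∈ p.asIdeal, ∃ r ∉ p.asIdeal, r * x ∈ I := by
    intro x hx
    obtain ⟨y, hy, n, hn⟩ := PD.exists_mul_pow_mem hp hx
    refine ⟨y, hy, hr ⟨n + 1, ?_⟩⟩
    convert I.mul_mem_left (y ^ n * x) hn using 1
    ring
  let π : (R ⧸ I) →ₗ[R] (R ⧸ p.asIdeal) := Submodule.factor hp.1.2
  rw [MP_60ec62_ag.DL.CycA.lenAt_add (LinearMap.ker π).subtype π (Submodule.injective_subtype _)
    (Submodule.factor_surjective _) (LinearMap.exact_subtype_ker_map π),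
    MP_60ec62_ag.DL.CycA.lenAt_self, (MP_60ec62_ag.DL.CycA.lenAt_zero p).2, zero_add]
  rw [Module.notMem_support_iff']
  rintro ⟨v, hv⟩
  obtain ⟨x, rfl⟩ := Ideal.Quotient.mk_surjective v
  obtain ⟨r, hr, hrx⟩ := h2 x (Ideal.Quotient.eq_zero_iff_mem.1 hv)
  exact ⟨r, hr, Subtype.ext (Ideal.Quotient.eq_zero_iff_mem.2 hrx)⟩

variable (K σ) in
/-- The first block of variables goes to zero. -/
noncomputable def psi : MvPolynomial (σ ⊕ σ) K →ₐ[K] MvPolynomial σ K :=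
  aeval (Sum.elim (fun _ => 0) X)

omit [Finite σ] in
lemma psi_eq (Q : ℕ) (f : MvPolynomial (σ ⊕ σ) K) : psi K σ f = (par0 K σ Q f).coeff 0 := by
  have e : psi K σ = ((Polynomial.aeval (0 : MvPolynomial σ K)).restrictScalars K).comp
      (par0 K σ Q) := by
    ext s : 1
    rcases s with s | s <;> simp [psi, par0]
  rw [e, Polynomial.coeff_zero_eq_aeval_zero]
  rfl

omit [Finite σ] in
lemma psi_locSurj : MP_60ec62_ag.DL.LocSurj (psi K σ) := fun r =>
  ⟨rename Sum.inr r, 1, by simp, by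
    rw [map_one, mul_one, psi, aeval_rename, Sum.elim_comp_inr, aeval_X_left_apply]⟩

lemma dm_gr (hrel : ∀ a ∈ Y.I.minimalPrimes, ∃ s, X s ∉ a) (Q : ℕ)
    {q : PrimeSpectrum (MvPolynomial (σ ⊕ σ) K)} (hq : q.asIdeal ∈ (Y.gr Q).minimalPrimes) :
    dm K q = Y.d + 2 := by
  refine le_antisymm (Y.dimLE_gr Q q ((MP_60ec62_ag.DL.CycA.mem_supp _ q).2 hq.1.2)) ?_
  have hq' := hq
  rw [gr_eq] at hq'
  obtain ⟨P, hP, hIP, hPq⟩ := Ideal.exists_comap_eq_of_mem_minimalPrimes _ _ hq'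
  have hb : Y.I ≤ P.comap Polynomial.C := Ideal.map_le_iff_le_comap.1 hIP
  obtain ⟨a, ha, hab⟩ := Ideal.exists_minimalPrimes_le hb
  obtain ⟨s, hs⟩ := hrel a ha
  have hap : a.IsPrime := ha.1.1
  have hpr : (a.map (Polynomial.C : MvPolynomial σ K →+* _)).IsPrime :=
    Ideal.isPrime_map_C_of_isPrime
  have h1 : (a.map Polynomial.C).comap
      (par0 K σ Q : MvPolynomial (σ ⊕ σ) K →+* Polynomial (MvPolynomial σ K)) ≤ q.asIdeal := by
    rw [← hPq]
    exact Ideal.comap_mono (Ideal.map_le_iff_le_comap.2 hab)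
  have h2 : q.asIdeal ≤ (a.map Polynomial.C).comap
      (par0 K σ Q : MvPolynomial (σ ⊕ σ) K →+* Polynomial (MvPolynomial σ K)) :=
    hq'.2 ⟨Ideal.comap_isPrime _ _, Ideal.comap_mono (Ideal.map_mono ha.1.2)⟩ h1
  have h3 : ∀ f ∈ q.asIdeal, ∀ n, (par0 K σ Q f).coeff n ∈ a := fun f hf =>
    Ideal.mem_map_C_iff.1 (h2 hf)
  have h4 : q < cm (psi K σ) ⟨a, hap⟩ := by
    refine lt_of_le_of_ne (fun f hf => ?_) fun e => ?_
    · show psi K σ f ∈ a
      rw [psi_eq Q]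
      exact h3 f hf 0
    · have h5 : X (Sum.inl s) ∈ q.asIdeal := by
        rw [e, MP_60ec62_ag.DL.mem_cm]
        simp [psi]
      have h6 := h3 _ h5 1
      rw [par0, aeval_X, Sum.elim_inl, Polynomial.coeff_X_mul, Polynomial.coeff_C_zero] at h6
      exact hs (hap.mem_of_pow_mem Q h6)
  have h7 := MP_60ec62_ag.DL.Dim.dm_lt (𝕜 := K) h4
  rw [MP_60ec62_ag.DL.Dim.dm_locSurj psi_locSurj,
    Y.et.dm_min (p := ⟨a, hap⟩) ha ⟨_, ⟨s, rfl⟩, hs⟩] at h7
  omega

omit [Finite σ] in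
lemma eval_par0 (Q : ℕ) (f : MvPolynomial (σ ⊕ σ) K) (c : K) (y : σ → K) :
    ((par0 K σ Q f).map (eval y)).eval c = eval (Sum.elim (fun s => c * y s ^ Q) y) f := by
  have e : ((Polynomial.evalRingHom c).comp ((Polynomial.mapRingHom (eval y)).comp
      (par0 K σ Q : MvPolynomial (σ ⊕ σ) K →+* Polynomial (MvPolynomial σ K)))) =
      eval (Sum.elim (fun s => c * y s ^ Q) y) := by
    refine MvPolynomial.ringHom_ext (fun r => ?_) fun s => ?_
    · simp [par0]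
    · rcases s with s | s <;> simp [par0]
  rw [← e]
  rfl

end GrC

omit [Finite σ] in
theorem gr_radical (hr : Y.I.IsRadical) (Q : ℕ) : (Y.gr Q).IsRadical := by
  have : IsReduced (MvPolynomial σ K ⧸ Y.I) := (Ideal.isRadical_iff_quotient_reduced _).1 hr
  rintro f ⟨n, hn⟩
  rw [gr, RingHom.mem_ker] at hn ⊢
  have h : IsNilpotent (Y.par Q f) := ⟨n, by rw [← map_pow, hn]⟩
  ext i
  exact (Polynomial.isNilpotent_iff.1 h i).eq_zero

theorem grC_eq (hr : Y.I.IsRadical) (hrel : ∀ a ∈ Y.I.minimalPrimes, ∃ s, X s ∉ a) (Q : ℕ)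
    (T : Finset (PrimeSpectrum (MvPolynomial (σ ⊕ σ) K)))
    (hT : ∀ z, z ∈ T ↔ z.asIdeal ∈ (Y.gr Q).minimalPrimes) :
    Y.grC Q = ∑ z ∈ T, Finsupp.single z 1 := by
  classical
  ext p
  rw [grC, MP_60ec62_ag.DL.CycA.cyc_apply, Finsupp.finsetSum_apply]
  simp only [Finsupp.single_apply, Finset.sum_ite_eq']
  by_cases hp : p ∈ T
  · rw [if_pos hp, if_pos (GrC.dm_gr Y hrel Q ((hT p).1 hp)),
      GrC.lenAt_rad (Y.gr_radical hr Q) ((hT p).1 hp)]
    simp
  · rw [if_neg hp]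
    by_cases h : Y.gr Q ≤ p.asIdeal
    · have := p.isPrime
      obtain ⟨q, hq, hqp⟩ := Ideal.exists_minimalPrimes_le h
      have h1 : (⟨q, hq.1.1⟩ : PrimeSpectrum _) < p :=
        lt_of_le_of_ne hqp fun e => hp ((hT p).2 (e ▸ hq))
      have h2 := MP_60ec62_ag.DL.Dim.dm_lt (𝕜 := K) h1
      rw [GrC.dm_gr Y hrel Q (q := ⟨q, hq.1.1⟩) hq] at h2
      rw [if_neg h2.ne]
    · rw [(MP_60ec62_ag.DL.CycA.lenAt_zero p).2
        fun h' => h ((MP_60ec62_ag.DL.CycA.mem_supp _ p).1 h')]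
      simp

/-- The ideal of the graph in terms of points. -/
theorem mem_gr_iff [IsAlgClosed K] (hr : Y.I.IsRadical) (Q : ℕ) (f : MvPolynomial (σ ⊕ σ) K) :
    f ∈ Y.gr Q ↔ ∀ (c : K), ∀ y ∈ zeroLocus K Y.I,
      eval (Sum.elim (fun s => c * y s ^ Q) y) f = 0 := by
  rw [GrC.mem_gr]
  constructor
  · intro h c y hy
    have : (GrC.par0 K σ Q f).map (eval y) = 0 := by
      ext n
      rw [Polynomial.coeff_map, Polynomial.coeff_zero]
      exact hy _ (h n)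
    rw [← GrC.eval_par0, this, Polynomial.eval_zero]
  · intro h n
    rw [← hr.radical, ← vanishingIdeal_zeroLocus_eq_radical (K := K), mem_vanishingIdeal_iff]
    intro y hy
    have : (GrC.par0 K σ Q f).map (eval y) = 0 :=
      Polynomial.funext fun c => by rw [GrC.eval_par0, h c y hy, Polynomial.eval_zero]
    have h2 := congrArg (fun g => Polynomial.coeff g n) this
    simp only [Polynomial.coeff_map, Polynomial.coeff_zero] at h2
    exact h2

end Pool.Agent.Lib.MP_557161_ag.DL.Sm
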