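import Pool.Agent.Lib.MP_557161_ag.DL.T0c

/-!
The zeta function of a finite family of eigenvalues with integral multiplicities.
-/

namespace Pool.Agent.Lib.MP_557161_ag.DL.T0

open Polynomial Finset

namespace T1b

theorem geom_zero (S : Finset ℂ) (w : ℂ → ℂ) (h : ∀ t : ℕ, ∑ z ∈ S, w z * z ^ t = 0) :
    ∀ z ∈ S, w z = 0 := by
  intro z hz
  let e := S.equivFin.symm
  have hinj : Function.Injective fun i : Fin S.card => (e i : ℂ) :=
    Subtype.val_injective.comp e.injective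
  have h0 := Matrix.eq_zero_of_forall_pow_sum_mul_pow_eq_zero (v := fun i => w (e i)) hinj
    fun i => by
      rw [← h i, ← sum_coe_sort S]
      exact e.sum_comp fun x : S => w x * (x : ℂ) ^ (i : ℕ)
  have h1 := congrFun h0 (e.symm ⟨z, hz⟩)
  simpa using h1

theorem zetaZ {I : Type*} (S : Finset I) (α : I → ℂ) (ν : I → ℤ) (q : ℕ) (hq : 1 < q)
    (N : ℕ → ℂ) (hN : ∀ j, N j = ∑ i ∈ S, ν i * α i ^ (j + 1)) :
    ∃ ζ : ℂ → ℂ, Meromorphic ζ ∧
      (∃ c : ℝ, ∀ s : ℂ, c < s.re →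
        ζ s = Complex.exp (∑' j : ℕ, N j * (q : ℂ) ^ (-((j + 1 : ℕ) : ℂ) * s) / (j + 1 : ℕ))) ∧
      ∀ n : ℕ, meromorphicOrderAt ζ n =
        ((-∑ i ∈ S, if α i = (q : ℂ) ^ n then ν i else 0 : ℤ) : WithTop ℤ) := by
  have hq0 : (q : ℂ) ≠ 0 := Nat.cast_ne_zero.2 (by omega)
  have hq1 : (1 : ℝ) < q := by exact_mod_cast hq
  obtain ⟨d, hd0⟩ := pow_unbounded_of_one_lt (∑ i ∈ S, ‖α i‖) hq1
  have hα : ∀ i ∈ S, ‖α i‖ ≤ (q : ℝ) ^ d := fun i hi =>
    (single_le_sum (f := fun i => ‖α i‖) (fun i _ => norm_nonneg _) hi).trans hd0.le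
  have hd : ∀ (c s : ℂ), HasDerivAt (fun s : ℂ => 1 - c * (q : ℂ) ^ (-s))
      (c * (q : ℂ) ^ (-s) * Complex.log q) s := by
    intro c s
    have := (((hasDerivAt_neg s).const_cpow (c := (q : ℂ)) (Or.inl hq0)).const_mul c).const_sub 1
    refine this.congr_deriv ?_
    ring
  have han : ∀ (c s : ℂ), AnalyticAt ℂ (fun s : ℂ => 1 - c * (q : ℂ) ^ (-s)) s := fun c s =>
    Differentiable.analyticAt (fun z => (hd c z).differentiableAt) s
  have hme : ∀ (i : I) (s : ℂ),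
      MeromorphicAt (fun s : ℂ => (1 - α i * (q : ℂ) ^ (-s)) ^ (-ν i)) s := fun i s =>
    (han (α i) s).meromorphicAt.zpow (-ν i)
  refine ⟨fun s => ∏ i ∈ S, (1 - α i * (q : ℂ) ^ (-s)) ^ (-ν i), fun s => ?_,
    ⟨d, fun s hs => ?_⟩, fun n => ?_⟩
  · exact MeromorphicAt.fun_prod fun i _ => hme i s
  · have h1 : ∀ i ∈ S, ‖α i * (q : ℂ) ^ (-s)‖ < 1 := by
      intro i hi
      rw [norm_mul, Complex.norm_natCast_cpow_of_pos (by omega), Complex.neg_re]
      refine (mul_le_mul_of_nonneg_right (hα i hi) (by positivity)).trans_lt ?_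
      rw [← Real.rpow_natCast, ← Real.rpow_add (by positivity)]
      exact Real.rpow_lt_one_of_one_lt_of_neg hq1 (by linarith)
    have h2 := hasSum_sum fun i hi =>
      (Complex.hasSum_taylorSeries_neg_log' (h1 i hi)).mul_left (ν i : ℂ)
    have h3 : ∀ j : ℕ, N j * (q : ℂ) ^ (-((j + 1 : ℕ) : ℂ) * s) / (j + 1 : ℕ)
        = ∑ i ∈ S, (ν i : ℂ) * ((α i * (q : ℂ) ^ (-s)) ^ (j + 1) / (j + 1)) := by
      intro j
      rw [hN, neg_mul, ← mul_neg, Complex.cpow_nat_mul, sum_mul, sum_div]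
      refine sum_congr rfl fun i _ => ?_
      rw [mul_pow, Nat.cast_succ]
      ring
    simp only [h3]
    rw [h2.tsum_eq, Complex.exp_sum]
    refine prod_congr rfl fun i hi => ?_
    rw [Complex.exp_int_mul, Complex.exp_neg, Complex.exp_log, inv_zpow']
    intro h
    have := h1 i hi
    rw [← sub_eq_zero.1 h] at this
    simp at this
  · rw [meromorphicOrderAt_fun_prod (f := fun i s => (1 - α i * (q : ℂ) ^ (-s)) ^ (-ν i))
      fun i _ => hme i _, ← sum_neg_distrib, WithTop.coe_sum]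
    refine sum_congr rfl fun i _ => ?_
    have h1 : (q : ℂ) ^ (-(n : ℂ)) = ((q : ℂ) ^ n)⁻¹ := by
      rw [Complex.cpow_neg, Complex.cpow_natCast]
    rw [fun_meromorphicOrderAt_zpow (han _ _).meromorphicAt, (han _ _).meromorphicOrderAt_eq]
    split_ifs with h
    · rw [(han _ _).analyticOrderAt_eq_one_of_zero_deriv_ne_zero]
      · exact mul_one _
      · rw [h, h1, mul_inv_cancel₀ (pow_ne_zero _ hq0), sub_self]
      · rw [(hd _ _).deriv, h, h1, mul_inv_cancel₀ (pow_ne_zero _ hq0), one_mul,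
          ← Complex.natCast_log, Ne, Complex.ofReal_eq_zero]
        exact (Real.log_pos hq1).ne'
    · rw [(han _ _).analyticOrderAt_eq_zero.2]
      · exact mul_zero _
      · rw [h1, sub_ne_zero, ← div_eq_mul_inv, ne_comm, Ne, div_eq_one_iff_eq (pow_ne_zero _ hq0)]
        exact h

end T1b

theorem vanish (S : Finset ℂ) (ν : ℂ → ℂ) (f : ℂ[X])
    (h : ∀ t, 0 < t → (f.sum fun j a => a * ∑ z ∈ S, ν z * z ^ (j + t)) = 0) :
    ∀ z ∈ S, z ≠ 0 → ν z ≠ 0 → f.IsRoot z := by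
  intro z hz h0 hν
  have h1 := T1b.geom_zero S (fun z => ν z * f.eval z * z) (fun t => by
    rw [← h (t + 1) t.succ_pos, Polynomial.sum_def]
    simp only [mul_sum]
    rw [sum_comm]
    refine sum_congr rfl fun z _ => ?_
    rw [eval_eq_sum, Polynomial.sum_def, mul_sum, sum_mul, sum_mul]
    refine sum_congr rfl fun j _ => ?_
    ring) z hz
  exact (mul_eq_zero.1 ((mul_eq_zero.1 h1).resolve_right h0)).resolve_left hν

theorem zeta_int (q : ℕ) (hq : 1 < q) (d : ℕ) {r : ℕ} (hr : 0 < r) {ω : ℂ}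
    (hω : IsPrimitiveRoot ω r) (μ : ℕ → ℕ → ℕ) (S : Finset ℂ) (ν : ℂ → ℤ) (α : ℂ → ℂ)
    (hα : ∀ z ∈ S, ν z ≠ 0 → ∀ n : ℕ, α z ≠ (q : ℂ) ^ n) (N : ℕ → ℂ)
    (hN : ∀ m, N m = ∑ n ∈ range (d + 1), ((q : ℂ) ^ n) ^ (m + 1) *
      ∑ j ∈ range r, μ n j * ω ^ (j * (m + 1)) + ∑ z ∈ S, ν z * α z ^ (m + 1)) :
    ∃ ζ : ℂ → ℂ, Meromorphic ζ ∧
      (∃ c : ℝ, ∀ s : ℂ, c < s.re →
        ζ s = Complex.exp (∑' j : ℕ, N j * (q : ℂ) ^ (-((j + 1 : ℕ) : ℂ) * s) / (j + 1 : ℕ))) ∧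
      (∀ n : ℕ, n ≤ d → meromorphicOrderAt ζ n = (-(μ n 0 : ℤ) : ℤ)) ∧
      ∀ n : ℕ, d < n → meromorphicOrderAt ζ n = 0 := by
  have hq1 : (1 : ℝ) < q := by exact_mod_cast hq
  have hq0 : (q : ℂ) ≠ 0 := Nat.cast_ne_zero.2 (by omega)
  have hn : ∀ n j : ℕ, ‖(q : ℂ) ^ n * ω ^ j‖ = (q : ℝ) ^ n := by
    intro n j
    rw [norm_mul, norm_pow, norm_pow, hω.norm'_eq_one hr.ne', one_pow, mul_one,
      Complex.norm_natCast]
  obtain ⟨ζ, h1, h2, h3⟩ := T1b.zetaZ ((range (d + 1) ×ˢ range r).disjSum S)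
    (Sum.elim (fun x => (q : ℂ) ^ x.1 * ω ^ x.2) α)
    (Sum.elim (fun x => (μ x.1 x.2 : ℤ)) ν) q hq N (fun m => by
      rw [hN, sum_disjSum, sum_product]
      congr 1
      refine sum_congr rfl fun n _ => ?_
      rw [mul_sum]
      refine sum_congr rfl fun j _ => ?_
      simp only [Sum.elim_inl, Int.cast_natCast]
      rw [mul_pow, ← pow_mul ω]
      ring)
  have key : ∀ n : ℕ, (∑ x ∈ (range (d + 1) ×ˢ range r).disjSum S,
      if Sum.elim (fun x : ℕ × ℕ => (q : ℂ) ^ x.1 * ω ^ x.2) α x = (q : ℂ) ^ n then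
        Sum.elim (fun x : ℕ × ℕ => (μ x.1 x.2 : ℤ)) ν x else 0 : ℤ) =
      if n ≤ d then (μ n 0 : ℤ) else 0 := by
    intro n
    have e : ∀ x ∈ range (d + 1) ×ˢ range r,
        (if (q : ℂ) ^ x.1 * ω ^ x.2 = (q : ℂ) ^ n then (μ x.1 x.2 : ℤ) else 0 : ℤ) =
        if x = (n, 0) then (μ n 0 : ℤ) else 0 := by
      rintro ⟨n', j⟩ hx
      have hj := mem_range.1 (mem_product.1 hx).2
      by_cases e : (n', j) = (n, 0)
      · obtain ⟨rfl, rfl⟩ := Prod.mk.inj e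
        simp
      · rw [if_neg e, if_neg]
        intro h
        have a1 := congrArg norm h
        rw [hn, norm_pow, Complex.norm_natCast] at a1
        obtain rfl : n' = n := pow_right_injective₀ (by positivity) hq1.ne' a1
        rw [mul_eq_left₀ (pow_ne_zero _ hq0), ← pow_zero ω] at h
        exact e (Prod.ext rfl (hω.pow_inj hj hr h))
    have e2 : ∀ z ∈ S, (if α z = (q : ℂ) ^ n then ν z else 0 : ℤ) = 0 := by
      intro z hz
      split_ifs with h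
      · by_contra h0
        exact hα z hz h0 n h
      · rfl
    rw [sum_disjSum]
    simp only [Sum.elim_inl, Sum.elim_inr]
    rw [sum_congr rfl e, sum_congr rfl e2, sum_const_zero, add_zero, sum_ite_eq']
    simp only [mem_product, mem_range, hr, and_true, Nat.lt_succ_iff]
  refine ⟨ζ, h1, h2, fun n h => ?_, fun n h => ?_⟩
  · rw [h3, key, if_pos h]
  · rw [h3, key, if_neg (by omega)]
    rfl

end Pool.Agent.Lib.MP_557161_ag.DL.T0
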