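import Pool.Agent.Lib.MP_557161_ag.DL.Defs
import Pool.Agent.Lib.MP_2c79a0_ag.H68Dim

/-!
An elementary bound for the number of points of a projective scheme over finite fields.
-/

namespace Pool.Agent.Lib.MP_557161_ag.DL

open MvPolynomial

namespace Pts

variable {k : Type} [Field k] {σ : Type}

lemma smul_mem {L : Type} [Field L] [Algebra k L] {I : Ideal (MvPolynomial σ k)}
    (hI : Homog I) {x : σ → L} (hx : x ∈ zeroLocus L I) (c : L) : c • x ∈ zeroLocus L I := by
  intro f hf
  rw [← sum_homogeneousComponent f, map_sum]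
  refine Finset.sum_eq_zero fun n _ => ?_
  have h1 : aeval x (homogeneousComponent n f) = 0 := hx _ (hI f hf n)
  have h2 := homogeneousComponent_isHomogeneous n f
  generalize homogeneousComponent n f = g at h1 h2
  have e : aeval (c • x) g = c ^ n * aeval x g := by
    rw [aeval_def, aeval_def, eval₂_eq, eval₂_eq, Finset.mul_sum]
    refine Finset.sum_congr rfl fun m hm => ?_
    rw [← h2 (mem_support_iff.1 hm), mul_left_comm]
    simp [mul_pow, Finset.prod_mul_distrib, Finset.prod_pow_eq_pow_sum, Finsupp.weight_apply,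
      Finsupp.sum]
  rw [e, h1, mul_zero]

lemma aff [Finite σ] {P : Ideal (MvPolynomial σ k)} [hP : P.IsPrime] {m : ℕ}
    (hd : ringKrullDim (MvPolynomial σ k ⧸ P) = m) :
    ∃ C : ℕ, ∀ (L : Type) [Field L] [Algebra k L] [Finite L],
      (zeroLocus L P).ncard ≤ C * Nat.card L ^ m := by
  classical
  have := Fintype.ofFinite σ
  obtain ⟨s, g, hg, hint⟩ := exists_integral_inj_algHom_of_fg k (MvPolynomial σ k ⧸ P)
  have hs : s = m := by
    let : Algebra (MvPolynomial (Fin s) k) (MvPolynomial σ k ⧸ P) := g.toRingHom.toAlgebra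
    have : Algebra.IsIntegral (MvPolynomial (Fin s) k) (MvPolynomial σ k ⧸ P) := ⟨hint⟩
    have : FaithfulSMul (MvPolynomial (Fin s) k) (MvPolynomial σ k ⧸ P) :=
      (faithfulSMul_iff_algebraMap_injective _ _).mpr hg
    have h1 : Order.coheight (⊥ : PrimeSpectrum (MvPolynomial σ k ⧸ P)) = s := by
      rw [← MP_2c79a0_ag.H68Dim.coheight_comap (A := MvPolynomial (Fin s) k),
        MP_2c79a0_ag.H68Dim.comap_bot, MP_2c79a0_ag.H68Dim.coheight_bot_mvPolynomial]
    have h2 := MP_2c79a0_ag.H68Dim.ringKrullDim_quot (⟨P, hP⟩ : PrimeSpectrum _)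
    rw [← MP_2c79a0_ag.H68Dim.coheight_bot_quot, h1] at h2
    exact_mod_cast h2.symm.trans hd
  subst hs
  choose p hp using fun i => hint (Ideal.Quotient.mk P (X i))
  refine ⟨∏ i, (p i).natDegree, fun L _ _ _ => ?_⟩
  have := Fintype.ofFinite L
  set T : Finset (σ → L) := Finset.univ.biUnion fun y : Fin s → L =>
    Fintype.piFinset fun i => ((p i).map (aeval y : _ →ₐ[k] L).toRingHom).roots.toFinset
  have h1 : zeroLocus L P ⊆ T := by
    intro x hx
    set φ : (MvPolynomial σ k ⧸ P) →ₐ[k] L := Ideal.Quotient.liftₐ P (aeval x) hx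
    refine Finset.mem_coe.2 (Finset.mem_biUnion.2 ⟨fun j => φ (g (X j)), Finset.mem_univ _,
      Fintype.mem_piFinset.2 fun i => ?_⟩)
    have e : (aeval fun j => φ (g (X j)) : _ →ₐ[k] L) = φ.comp g :=
      MvPolynomial.algHom_ext fun j => by simp
    have e2 : x i = φ.toRingHom (Ideal.Quotient.mk P (X i)) :=
      (aeval_X (R := k) x i).symm
    rw [Multiset.mem_toFinset, Polynomial.mem_roots ((hp i).1.map _).ne_zero, Polynomial.IsRoot,
      Polynomial.eval_map, e, e2]
    have h3 := Polynomial.hom_eval₂ (p i) g.toRingHom φ.toRingHom (Ideal.Quotient.mk P (X i))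
    rw [(hp i).2, map_zero] at h3
    exact h3.symm
  refine (Set.ncard_le_ncard h1 T.finite_toSet).trans ?_
  rw [Set.ncard_coe_finset]
  refine (Finset.card_biUnion_le_card_mul _ _ (∏ i, (p i).natDegree) fun y _ => ?_).trans ?_
  · rw [Fintype.card_piFinset]
    exact Finset.prod_le_prod' fun i _ => (Multiset.toFinset_card_le _).trans
      ((Polynomial.card_roots' _).trans Polynomial.natDegree_map_le)
  · simp [mul_comm]

end Pts

theorem points_le {k : Type} [Field k] {σ : Type} [Finite σ] {I : Ideal (MvPolynomial σ k)}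
    (hI : Homog I) {d : ℕ}
    (hd : ∀ P ∈ I.minimalPrimes, ringKrullDim (MvPolynomial σ k ⧸ P) = (d + 1 : ℕ)) :
    ∃ C : ℕ, ∀ (L : Type) [Field L] [Algebra k L] [Finite L],
      points I L ≤ C * Nat.card L ^ d := by
  have hf := Ideal.finite_minimalPrimes_of_isNoetherianRing _ I
  have : Fintype I.minimalPrimes := hf.fintype
  choose C hC using fun P : I.minimalPrimes => Pts.aff (hP := P.2.1.1) (hd P P.2)
  refine ⟨2 * ∑ P, C P, fun L _ _ _ => ?_⟩
  have h1 : (zeroLocus L I).ncard ≤ (∑ P, C P) * Nat.card L ^ (d + 1) := by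
    have h2 : zeroLocus L I ⊆ ⋃ P : I.minimalPrimes, zeroLocus L P.1 := by
      intro x hx
      have := RingHom.ker_isPrime (aeval x : MvPolynomial σ k →ₐ[k] L)
      obtain ⟨P, hP, hle⟩ := Ideal.exists_minimalPrimes_le
        (show I ≤ RingHom.ker (aeval x : MvPolynomial σ k →ₐ[k] L) from hx)
      exact Set.mem_iUnion.2 ⟨⟨P, hP⟩, fun f hf => hle hf⟩
    refine (Set.ncard_le_ncard h2 (Set.toFinite _)).trans ((Set.ncard_iUnion_le_of_fintype _).trans ?_)
    rw [Finset.sum_mul]
    exact Finset.sum_le_sum fun P _ => hC P L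
  have h2 : points I L * Nat.card Lˣ ≤ (zeroLocus L I).ncard := by
    rw [points, ← Nat.card_prod, ← Nat.card_coe_set_eq]
    refine Nat.card_le_card_of_injective
      (fun z => ⟨(z.2 : L) • z.1.1.rep, Pts.smul_mem hI z.1.2 _⟩) ?_
    rintro ⟨⟨x, hx⟩, c⟩ ⟨⟨y, hy⟩, e⟩ h
    have h3 : (c : L) • x.rep = (e : L) • y.rep := congrArg Subtype.val h
    have h4 : x = y := by
      rw [← x.mk_rep, ← y.mk_rep, Projectivization.mk_eq_mk_iff]
      refine ⟨c⁻¹ * e, ?_⟩
      rw [mul_smul, Units.smul_def e, ← h3, ← Units.smul_def, inv_smul_smul]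
    subst h4
    obtain rfl : c = e := Units.ext (smul_left_injective L x.rep_nonzero h3)
    rfl
  rw [Nat.card_units] at h2
  have h3 : 1 < Nat.card L := Finite.one_lt_card
  refine Nat.le_of_mul_le_mul_right ?_ (show 0 < Nat.card L by omega)
  calc points I L * Nat.card L ≤ points I L * (2 * (Nat.card L - 1)) :=
        Nat.mul_le_mul_left _ (by omega)
    _ = 2 * (points I L * (Nat.card L - 1)) := by ring
    _ ≤ 2 * ((∑ P, C P) * Nat.card L ^ (d + 1)) := Nat.mul_le_mul_left _ (h2.trans h1)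
    _ = _ := by ring

end Pool.Agent.Lib.MP_557161_ag.DL
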