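import Mathlib

/-!
The series that defines a zeta function represents its meromorphic continuation on the whole half
plane of convergence.
-/

open Filter Topology

namespace Pool.Agent.Lib.MP_557161_ag.DL

theorem shift_term_bound (q : ℕ) (hq : 1 < q) (d C : ℕ) (N : ℕ → ℕ)
    (hN : ∀ m, N m ≤ C * (q ^ (m + 1)) ^ d) (ε : ℝ) (m : ℕ) (w : ℂ) (hw : (d : ℝ) + ε < w.re) :
    ‖(N m : ℂ) * (q : ℂ) ^ (-((m + 1 : ℕ) : ℂ) * w) / (m + 1 : ℕ)‖ ≤
      C * ((q : ℝ) ^ (-ε)) ^ (m + 1) := by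
  have hq0 : 0 < q := by omega
  have hq1 : (1 : ℝ) < q := by exact_mod_cast hq
  have hqp : (0 : ℝ) < q := by linarith
  have hm : (1 : ℝ) ≤ ((m + 1 : ℕ) : ℝ) := by exact_mod_cast Nat.succ_pos m
  rw [norm_div, norm_mul, Complex.norm_natCast, Complex.norm_natCast,
    Complex.norm_natCast_cpow_of_pos hq0]
  have hre : (-((m + 1 : ℕ) : ℂ) * w).re = -((m + 1 : ℕ) : ℝ) * w.re := by
    rw [← Complex.ofReal_natCast, ← Complex.ofReal_neg, Complex.re_ofReal_mul]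
  rw [hre]
  have h1 : (N m : ℝ) ≤ C * (q : ℝ) ^ (((m + 1 : ℕ) : ℝ) * d) := by
    rw [Real.rpow_mul hqp.le, Real.rpow_natCast, Real.rpow_natCast]
    exact_mod_cast hN m
  have h2 : (q : ℝ) ^ (-((m + 1 : ℕ) : ℝ) * w.re) ≤ (q : ℝ) ^ (-((m + 1 : ℕ) : ℝ) * (d + ε)) := by
    apply Real.rpow_le_rpow_of_exponent_le hq1.le
    nlinarith
  have h3 : ((q : ℝ) ^ (-ε)) ^ (m + 1) = (q : ℝ) ^ (-ε * ((m + 1 : ℕ) : ℝ)) := by
    rw [Real.rpow_mul hqp.le, Real.rpow_natCast]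
  calc (N m : ℝ) * (q : ℝ) ^ (-((m + 1 : ℕ) : ℝ) * w.re) / ((m + 1 : ℕ) : ℝ)
      ≤ (N m : ℝ) * (q : ℝ) ^ (-((m + 1 : ℕ) : ℝ) * w.re) :=
        div_le_self (by positivity) hm
    _ ≤ (C * (q : ℝ) ^ (((m + 1 : ℕ) : ℝ) * d)) *
          (q : ℝ) ^ (-((m + 1 : ℕ) : ℝ) * (d + ε)) := by
        gcongr
    _ = C * ((q : ℝ) ^ (-ε)) ^ (m + 1) := by
        rw [h3, mul_assoc, ← Real.rpow_add hqp]
        congr 2
        ring

theorem shift_analytic (q : ℕ) (hq : 1 < q) (d C : ℕ) (N : ℕ → ℕ)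
    (hN : ∀ m, N m ≤ C * (q ^ (m + 1)) ^ d) :
    AnalyticOnNhd ℂ (fun s : ℂ => Complex.exp (∑' m : ℕ,
      (N m : ℂ) * (q : ℂ) ^ (-((m + 1 : ℕ) : ℂ) * s) / (m + 1 : ℕ))) {s | (d : ℝ) < s.re} := by
  have hq1 : (1 : ℝ) < q := by exact_mod_cast hq
  have hqc : (q : ℂ) ≠ 0 := by exact_mod_cast (by omega : q ≠ 0)
  intro s hs
  have hs' : (d : ℝ) < s.re := hs
  set ε : ℝ := (s.re - d) / 2 with hε
  have hε0 : 0 < ε := by rw [hε]; linarith
  have hU : IsOpen {w : ℂ | (d : ℝ) + ε < w.re} := isOpen_lt continuous_const Complex.continuous_re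
  have hr0 : 0 ≤ (q : ℝ) ^ (-ε) := by positivity
  have hr1 : (q : ℝ) ^ (-ε) < 1 := Real.rpow_lt_one_of_one_lt_of_neg hq1 (by linarith)
  have hsum : Summable fun m : ℕ => (C : ℝ) * ((q : ℝ) ^ (-ε)) ^ (m + 1) :=
    ((summable_nat_add_iff 1).2 (summable_geometric_of_lt_one hr0 hr1)).mul_left _
  have hd := Complex.differentiableOn_tsum_of_summable_norm
    (F := fun (m : ℕ) (w : ℂ) => (N m : ℂ) * (q : ℂ) ^ (-((m + 1 : ℕ) : ℂ) * w) / (m + 1 : ℕ))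
    hsum (fun m => by
      refine (Differentiable.div_const (Differentiable.const_mul ?_ _) _).differentiableOn
      exact Differentiable.const_cpow (by fun_prop) (Or.inl hqc)) hU
    (fun m w hw => shift_term_bound q hq d C N hN ε m w hw)
  have hmem : s ∈ {w : ℂ | (d : ℝ) + ε < w.re} := by
    change (d : ℝ) + ε < s.re
    rw [hε]; linarith
  exact (hd.analyticAt (hU.mem_nhds hmem)).cexp'

theorem zeta_shift (q : ℕ) (hq : 1 < q) (d C : ℕ) (N : ℕ → ℕ)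
    (hN : ∀ m, N m ≤ C * (q ^ (m + 1)) ^ d) {ζ : ℂ → ℂ} (hζ : Meromorphic ζ) {c : ℝ}
    (hc : ∀ s : ℂ, c < s.re → ζ s = Complex.exp (∑' m : ℕ,
      (N m : ℂ) * (q : ℂ) ^ (-((m + 1 : ℕ) : ℂ) * s) / (m + 1 : ℕ))) :
    ∃ ζ' : ℂ → ℂ, Meromorphic ζ' ∧ (∀ s : ℂ, (d : ℝ) < s.re → ζ' s = Complex.exp (∑' m : ℕ,
      (N m : ℂ) * (q : ℂ) ^ (-((m + 1 : ℕ) : ℂ) * s) / (m + 1 : ℕ))) ∧
      ∀ s, meromorphicOrderAt ζ' s = meromorphicOrderAt ζ s := by
  classical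
  set g : ℂ → ℂ := fun s : ℂ => Complex.exp (∑' m : ℕ,
      (N m : ℂ) * (q : ℂ) ^ (-((m + 1 : ℕ) : ℂ) * s) / (m + 1 : ℕ)) with hg
  have hga : AnalyticOnNhd ℂ g {s | (d : ℝ) < s.re} := shift_analytic q hq d C N hN
  have hmer : MeromorphicOn (ζ - g) {s | (d : ℝ) < s.re} :=
    fun s hs => (hζ s).sub (hga s hs).meromorphicAt
  have hpre : IsPreconnected {s : ℂ | (d : ℝ) < s.re} :=
    (convex_halfSpace_re_gt _).isPreconnected
  set s₀ : ℂ := ((max c d + 1 : ℝ) : ℂ) with hs₀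
  have hs₀d : s₀ ∈ {s : ℂ | (d : ℝ) < s.re} := by
    change (d : ℝ) < s₀.re
    rw [hs₀, Complex.ofReal_re]
    linarith [le_max_right c (d : ℝ)]
  have htop₀ : meromorphicOrderAt (ζ - g) s₀ = ⊤ := by
    rw [meromorphicOrderAt_eq_top_iff]
    have hO : IsOpen {s : ℂ | c < s.re} := isOpen_lt continuous_const Complex.continuous_re
    have hm : s₀ ∈ {s : ℂ | c < s.re} := by
      change c < s₀.re
      rw [hs₀, Complex.ofReal_re]
      linarith [le_max_left c (d : ℝ)]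
    filter_upwards [mem_nhdsWithin_of_mem_nhds (hO.mem_nhds hm)] with z hz
    rw [Pi.sub_apply, hc z hz, sub_self]
  have htop : ∀ z : ℂ, (d : ℝ) < z.re → ζ =ᶠ[𝓝[≠] z] g := by
    intro z hz
    have : meromorphicOrderAt (ζ - g) z = ⊤ := by
      by_contra h
      exact hmer.meromorphicOrderAt_ne_top_of_isPreconnected hpre hz hs₀d h htop₀
    filter_upwards [meromorphicOrderAt_eq_top_iff.1 this] with w hw
    exact sub_eq_zero.1 hw
  have hpt : ∀ z : ℂ, (d : ℝ) < z.re → AnalyticAt ℂ ζ z → ζ z = g z := by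
    intro z hz ha
    have h1 : Tendsto ζ (𝓝[≠] z) (𝓝 (ζ z)) := ha.continuousAt.continuousWithinAt
    have h2 : Tendsto g (𝓝[≠] z) (𝓝 (g z)) := (hga z hz).continuousAt.continuousWithinAt
    exact tendsto_nhds_unique (h1.congr' (htop z hz)) h2
  have hev : ∀ s : ℂ, ζ =ᶠ[𝓝[≠] s] fun z => if (d : ℝ) < z.re then g z else ζ z := by
    intro s
    filter_upwards [(hζ s).eventually_analyticAt] with z hz
    split_ifs with h
    · exact hpt z h hz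
    · rfl
  refine ⟨fun z => if (d : ℝ) < z.re then g z else ζ z, fun s => (hζ s).congr (hev s),
    fun s hs => if_pos hs, fun s => (meromorphicOrderAt_congr (hev s)).symm⟩

end Pool.Agent.Lib.MP_557161_ag.DL
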