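import Pool.Agent.Lib.MP_557161_ag.DL.T0e

/-!
The trace formula up to a linear recurrence.
-/

namespace Pool.Agent.Lib.MP_557161_ag.DL.T0

open Polynomial Finset

namespace T1a

open Module in
theorem abs {Pr : Type} (θ : Equiv.Perm Pr) (ip : Pr → Pr → ℚ) (H : Set Pr)
    (hH : ∀ u ∈ H, θ u ∈ H) (hip : ∀ u z, ip (θ u) (θ z) = ip u z)
    (hper : ∀ u, ∃ r, 0 < r ∧ (θ ^ r) u = u) (q : ℚ) (f : ℚ[X])
    (hf : ∀ m, 0 < m → IsCoprime f (X ^ m - C (q ^ m))) {ι : ℕ → Type} [∀ t, Fintype (ι t)]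
    (c : ∀ t, ι t → ℚ) (a b : ∀ t, ι t → Pr) (hb : ∀ t s, b t s ∈ H)
    (h : ∀ t, ∀ u ∈ H, ∀ z, (f.sum fun j x => x * (q ^ (j + t) * ip ((θ ^ (j + t)) u) z)) =
      ∑ s, c t s * (ip u (a t s) * ip (b t s) z))
    {R : ℕ} (hR : 0 < R) (hbR : ∀ s, (θ ^ R) (b 0 s) = b 0 s) :
    ∃ tr : ℕ → ℚ, (∀ t, (f.sum fun j x => x * (q ^ (j + t) * tr (j + t))) =
        ∑ s, c t s * ip (b t s) (a t s)) ∧
      ∀ ω : ℂ, IsPrimitiveRoot ω R → ∀ e : ℕ, FiniteDimensional ℚ (inv (θ ^ e) ip H) ∧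
        ∃ μ : ℕ → ℕ, μ 0 = finrank ℚ (inv (θ ^ e) ip H) ∧
          ∀ m, (tr (e * m) : ℂ) = ∑ j ∈ range R, μ j * ω ^ (j * m) := by
  let V := Submodule.span ℚ (ip '' H)
  let Θ : End ℚ (Pr → ℚ) := LinearMap.funLeft ℚ ℚ θ.symm
  have hΘ : ∀ u, Θ (ip u) = ip (θ u) := fun u => funext fun z => by
    show ip u (θ.symm z) = _
    rw [← hip, θ.apply_symm_apply]
  have hΘm : ∀ m u, (Θ ^ m) (ip u) = ip ((θ ^ m) u) := by
    intro m u
    induction m with
    | zero => rfl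
    | succ m ih => rw [pow_succ', End.mul_apply, ih, hΘ, pow_succ', Equiv.Perm.mul_apply]
  have hΘe : ∀ (m : ℕ) v, (Θ ^ m) v = LinearMap.funLeft ℚ ℚ (θ ^ m).symm v := by
    intro m v
    induction m with
    | zero => rfl
    | succ m ih => rw [pow_succ', End.mul_apply, ih, pow_succ']; rfl
  have hV : ∀ v ∈ V, Θ v ∈ V := by
    intro v hv
    refine (Submodule.span_le (p := V.comap Θ)).2 ?_ hv
    rintro _ ⟨u, hu, rfl⟩
    show Θ (ip u) ∈ V
    rw [hΘ]
    exact Submodule.subset_span ⟨_, hH u hu, rfl⟩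
  let Θ' : End ℚ V := Θ.restrict hV
  have hΘ' : ∀ m (v : V), ((Θ' ^ m) v : Pr → ℚ) = (Θ ^ m) v := by
    intro m v
    induction m with
    | zero => rfl
    | succ m ih => rw [pow_succ', pow_succ', End.mul_apply, End.mul_apply, ← ih]; rfl
  let B : ∀ t, ι t → V := fun t s => ⟨ip (b t s), Submodule.subset_span ⟨_, hb t s, rfl⟩⟩
  have hT : ∀ t, ∑ j ∈ f.support, (f.coeff j * q ^ (j + t)) • Θ' ^ (j + t) =
      ∑ s, c t s • (LinearMap.proj (a t s) ∘ₗ V.subtype).smulRight (B t s) := by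
    intro t
    have h1 : V ≤ LinearMap.eqLocus (∑ j ∈ f.support, (f.coeff j * q ^ (j + t)) • Θ ^ (j + t))
        (∑ s, c t s • (LinearMap.proj (a t s) : (Pr → ℚ) →ₗ[ℚ] ℚ).smulRight (ip (b t s))) := by
      refine Submodule.span_le.2 ?_
      rintro _ ⟨u, hu, rfl⟩
      rw [SetLike.mem_coe, LinearMap.mem_eqLocus]
      funext z
      have := h t u hu z
      rw [sum_def] at this
      simp only [LinearMap.sum_apply, LinearMap.smul_apply, Finset.sum_apply, Pi.smul_apply, hΘm,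
        smul_eq_mul, LinearMap.smulRight_apply, LinearMap.proj_apply, mul_assoc]
      exact this
    ext1 v
    apply Subtype.ext
    have h2 := LinearMap.mem_eqLocus.1 (h1 v.2)
    simp only [LinearMap.sum_apply, LinearMap.smul_apply, LinearMap.smulRight_apply,
      Submodule.coe_sum, Submodule.coe_smul, hΘ'] at h2 ⊢
    exact h2
  have hle : V ≤ Submodule.span ℚ (Set.range fun s => ip (b 0 s)) := by
    refine Submodule.span_le.2 ?_
    rintro _ ⟨u, hu, rfl⟩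
    obtain ⟨r, hr, hru⟩ := hper u
    obtain ⟨A, A', e⟩ := hf r hr
    let v : V := ⟨ip u, Submodule.subset_span ⟨u, hu, rfl⟩⟩
    have h1 : (Θ' ^ r) v = v := Subtype.ext (by rw [hΘ', hΘm, hru])
    have h2 : aeval (q • Θ') f = ∑ j ∈ f.support, (f.coeff j * q ^ (j + 0)) • Θ' ^ (j + 0) := by
      rw [aeval_def, eval₂_eq_sum, sum_def]
      refine sum_congr rfl fun j _ => ?_
      rw [← Algebra.smul_def, _root_.smul_pow, smul_smul, add_zero]
    have h3 := LinearMap.congr_fun (congrArg (aeval (q • Θ')) e) v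
    rw [mul_comm A, map_add, map_mul, map_mul, map_sub, map_pow, aeval_X, aeval_C, map_one,
      LinearMap.add_apply, End.mul_apply, End.mul_apply, LinearMap.sub_apply, _root_.smul_pow,
      LinearMap.smul_apply, h1, Module.algebraMap_end_apply, sub_self, map_zero, add_zero, h2, hT,
      End.one_apply] at h3
    have h4 := congrArg Subtype.val h3
    rw [LinearMap.sum_apply, Submodule.coe_sum] at h4
    rw [SetLike.mem_coe, show ip u = _ from h4.symm]
    exact Submodule.sum_mem _ fun s _ => Submodule.smul_mem _ _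
      (Submodule.smul_mem _ _ (Submodule.subset_span ⟨s, rfl⟩))
  have hfin : FiniteDimensional ℚ V := by
    have := FiniteDimensional.span_of_finite ℚ (Set.finite_range fun s => ip (b 0 s))
    exact Submodule.finiteDimensional_of_le hle
  have hr1 : Θ' ^ R = 1 := by
    ext1 v
    apply Subtype.ext
    rw [hΘ', End.one_apply]
    refine (Submodule.span_le (p := LinearMap.eqLocus (Θ ^ R) LinearMap.id)).2 ?_ (hle v.2)
    rintro _ ⟨s, rfl⟩
    show (Θ ^ R) (ip _) = ip _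
    rw [hΘm, hbR]
  refine ⟨fun m => LinearMap.trace ℚ V (Θ' ^ m), fun t => ?_, fun ω hω e => ?_⟩
  · have h1 := congrArg (LinearMap.trace ℚ V) (hT t)
    simp only [map_sum, map_smul, LinearMap.trace_smulRight, smul_eq_mul, mul_assoc] at h1
    rw [sum_def]
    exact h1
  · obtain ⟨μ, h0, hμ⟩ := fourier (Θ' ^ e) hR (by rw [← pow_mul, mul_comm, pow_mul, hr1, one_pow]) hω
    refine ⟨Submodule.finiteDimensional_of_le (S₂ := V) inf_le_left, μ, ?_, fun m => ?_⟩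
    · have e' : (LinearMap.eqLocus (Θ' ^ e) LinearMap.id).map V.subtype = inv (θ ^ e) ip H := by
        ext v
        constructor
        · rintro ⟨v, hv, rfl⟩
          exact ⟨v.2, ((hΘe e _).symm.trans (hΘ' e v).symm).trans (congrArg Subtype.val hv)⟩
        · rintro ⟨h1, h2⟩
          exact ⟨⟨v, h1⟩, Subtype.ext (((hΘ' e _).trans (hΘe e _)).trans h2), rfl⟩
      rw [h0, ← e', Submodule.finrank_map_subtype_eq]
    · rw [← hμ, ← pow_mul]

open Pool.Agent.Lib.MP_60ec62_ag.DL (dm Cyc cm mem_cm)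

variable {K : Type} [Field K] {p : ℕ} {σ : Type}

theorem defOver_pow {J : Ideal (MvPolynomial σ K)} (h : DefOver p J) (j : ℕ) :
    DefOver (p ^ j) J := by
  refine le_trans h (Ideal.span_mono fun g hg => ⟨hg.1, ?_⟩)
  induction j with
  | zero => simp
  | succ j ih => rw [pow_succ, MvPolynomial.expand_mul, hg.2, map_pow, ih, ← pow_mul]

variable [Base K] [FBar K p] [Finite σ] (Y : Sm K σ)

/-- Cycles on the square of the middle dimension. -/
def Mid (x : Cyc (MvPolynomial (σ ⊕ σ) K)) : Prop := ∀ z, x z ≠ 0 → dm K z = Y.d + 2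

omit [FBar K p] in
theorem bil_prod {x v : Cyc (MvPolynomial (σ ⊕ σ) K)} (hx : Mid Y x) {δ : ℕ} (hδ : δ ≠ Y.d + 2)
    (hv : v ∈ ProdB Y.I δ) : Y.C2.bil x v = 0 := by
  refine (Submodule.span_le.2 ?_ : ProdB Y.I δ ≤ LinearMap.ker (Y.C2.bil x)) hv
  rintro _ ⟨a, b, -, -, -, -, h, rfl⟩
  show Y.C2.bil x _ = 0
  rw [bil_eq, Finsupp.linearCombination_single, one_smul, Finsupp.linearCombination_apply,
    Finsupp.sum, Finset.sum_apply]
  refine Finset.sum_eq_zero fun z hz => ?_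
  have h1 : Y.C2.ip z (bxP a b) = 0 := dif_neg fun h' => by
    have h2 : dm K z + dm K (bxP a b) = Y.d + 1 + (Y.d + 1) + 2 := h'.2.2
    rw [hx z (Finsupp.mem_support_iff.1 hz), dm_bxP] at h2
    omega
  rw [Pi.smul_apply, h1, Int.cast_zero, smul_zero]

include p in
theorem exists_dec {w : Cyc (MvPolynomial (σ ⊕ σ) K)} (hw : w ∈ RatB Y.I ⊔ ⨆ δ, ProdB Y.I δ) :
    ∃ (n : ℕ) (c : Fin n → ℚ) (a b : Fin n → PrimeSpectrum (MvPolynomial σ K)),
      (∀ s, Y.C1.HP (a s) ∧ Y.C1.HP (b s) ∧ dm K (a s) + dm K (b s) = Y.d + 2) ∧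
      ∀ x, Mid Y x → Y.C2.bil x w = ∑ s, c s * Y.C2.bil x (Finsupp.single (bxP (a s) (b s)) 1) := by
  obtain ⟨u, hu, v, hv, e⟩ := Submodule.mem_sup.1 hw
  obtain ⟨v', hv', e'⟩ : ∃ v' ∈ ProdB Y.I (Y.d + 2), ∀ x, Mid Y x → Y.C2.bil x v = Y.C2.bil x v' := by
    refine Submodule.iSup_induction (motive := fun v => ∃ v' ∈ ProdB Y.I (Y.d + 2),
      ∀ x, Mid Y x → Y.C2.bil x v = Y.C2.bil x v') _ hv (fun δ v hv => ?_)
      ⟨0, zero_mem _, fun _ _ => rfl⟩ ?_
    · by_cases hδ : δ = Y.d + 2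
      · exact ⟨v, hδ ▸ hv, fun _ _ => rfl⟩
      · exact ⟨0, zero_mem _, fun x hx => by rw [bil_prod Y hx hδ hv, map_zero]⟩
    · rintro v₁ v₂ ⟨y₁, h1, e1⟩ ⟨y₂, h2, e2⟩
      exact ⟨y₁ + y₂, add_mem h1 h2, fun x hx => by rw [map_add, map_add, e1 x hx, e2 x hx]⟩
  obtain ⟨n, c, g, rfl⟩ := Submodule.mem_span_set'.1 hv'
  choose a b h1 h2 h3 h4 h5 h6 using fun t => (g t).2
  refine ⟨n, c, a, b, fun t => ⟨⟨h1 t, h3 t⟩, ⟨h2 t, h4 t⟩, h5 t⟩, fun x hx => ?_⟩
  rw [← e, map_add, bil_ratB Y x hu, zero_add, e' x hx, map_sum]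
  exact Finset.sum_congr rfl fun t _ => by rw [map_smul, h6, smul_eq_mul]

omit [Base K] [FBar K p] in
theorem mid_gr : Mid Y (Y.grC 1) := fun _ hz =>
  (cyc_support (adm_cyc (Y.gr_hom 1) (Y.le_gr one_pos (defOver_zero (p := 1) Y.I)))
    (Y.dimLE_gr 1) hz).2.2

include p in
theorem bil_diag {a b : PrimeSpectrum (MvPolynomial σ K)} (ha : Y.C1.HP a) (hb : Y.C1.HP b)
    (h : dm K a + dm K b = Y.d + 2) :
    Y.C2.bil (Y.grC 1) (Finsupp.single (bxP a b) 1) = Y.C1.ip b a := by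
  have h1 := Y.bil_gr (defOver_zero (p := p) Y.I) a b ha hb h
  have e : cm (MvPolynomial.expand (p ^ 0)) a = a := by
    ext f
    rw [mem_cm, pow_zero, MvPolynomial.expand_one_apply]
  rw [e, pow_zero, one_pow, Nat.cast_one, one_mul] at h1
  rw [Y.C2.bil_symm, h1, Y.C1.ip_symm]

variable [Fact p.Prime] [Algebra (ZMod p) K]

omit [Base K] [FBar K p] [Finite σ] in
theorem cm_th1 (m : ℕ) (a : PrimeSpectrum (MvPolynomial σ K)) :
    cm (MvPolynomial.expand (p ^ m)) ((th (ZMod p) K σ ^ m) a) = a := by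
  have := cm_th (k := ZMod p) m a
  rwa [ZMod.card] at this

omit [Base K] [FBar K p] [Finite σ] [Algebra (ZMod p) K] in
theorem card_eq : Fintype.card (ZMod p) = p ^ 1 := by rw [ZMod.card, pow_one]

omit [Base K] in
theorem th_cod (hI : DefOver p Y.I) (m n : ℕ) (u : PrimeSpectrum (MvPolynomial σ K))
    (hu : u ∈ cod Y n) : (th (ZMod p) K σ ^ m) u ∈ cod Y n := by
  refine ⟨(Y.C1.hp_cm_iff (defOver_pow hI m) _).1 ?_, by rw [dm_th_pow card_eq]; exact hu.2⟩
  rw [cm_th1]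
  exact hu.1

theorem row (hI : DefOver p Y.I) (f : ℚ[X]) (t : ℕ) {N : ℕ} {c : Fin N → ℚ}
    {a b : Fin N → PrimeSpectrum (MvPolynomial σ K)}
    (hab : ∀ s, Y.C1.HP (a s) ∧ Y.C1.HP (b s) ∧ dm K (a s) + dm K (b s) = Y.d + 2)
    (e : ∀ x, Mid Y x → Y.C2.bil x (f.sum fun j y => y • Y.grC (p ^ (j + t))) =
      ∑ s, c s * Y.C2.bil x (Finsupp.single (bxP (a s) (b s)) 1))
    (n : ℕ) (u : PrimeSpectrum (MvPolynomial σ K)) (hu : u ∈ cod Y n)
    (z : PrimeSpectrum (MvPolynomial σ K)) :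
    (f.sum fun j x => x * (((p : ℚ) ^ n) ^ (j + t) *
      (Y.C1.ip ((th (ZMod p) K σ ^ (j + t)) u) z : ℚ))) =
      ∑ s : {s // dm K (b s) + n = Y.d + 1},
        c s * ((Y.C1.ip u (a s) : ℚ) * (Y.C1.ip (b s) z : ℚ)) := by
  have h0 := hu.2
  by_cases h : Y.C1.HP z ∧ dm K u + dm K z = Y.d + 2
  · have h1 := e (Finsupp.single (bxP u z) 1) fun y hy => by
      rw [← (Finsupp.single_apply_ne_zero.1 hy).1.symm, dm_bxP, h.2]
    rw [sum_def, map_sum] at h1
    rw [sum_def, ← Finset.sum_subtype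
      (Finset.univ.filter fun s => dm K (b s) + n = Y.d + 1) (by simp)
      fun s => c s * ((Y.C1.ip u (a s) : ℚ) * Y.C1.ip (b s) z), Finset.sum_filter]
    refine Eq.trans (sum_congr rfl fun j _ => ?_) (h1.trans (sum_congr rfl fun s _ => ?_))
    · have h2 := th_cod Y hI (j + t) n u hu
      have h3 := h2.2
      have h4 := Y.bil_gr (defOver_pow hI (j + t)) _ z h2.1 h.1 (by omega)
      rw [cm_th1, show Y.d + 1 - dm K ((th (ZMod p) K σ ^ (j + t)) u) = n by omega] at h4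
      rw [map_smul, h4, smul_eq_mul, pow_right_comm]
      push_cast
      rfl
    · obtain ⟨h2, h3, h4⟩ := hab s
      rw [bil_ss, Y.ip_bxP u z _ _ hu.1 h.1 h2 h3 (by omega), Int.cast_mul, Y.C1.ip_symm z]
      split_ifs with h'
      · rfl
      · have : Y.C1.ip u (a s) = 0 := by_contra fun h5 => by
          have := (ip_ne Y h5).2.2
          omega
        rw [this, Int.cast_zero, zero_mul, mul_zero]
  · have h1 : ∀ y ∈ cod Y n, Y.C1.ip y z = 0 := fun y hy => by_contra fun h2 =>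
      h ⟨(ip_ne Y h2).2.1, by have := (ip_ne Y h2).2.2; have := hy.2; omega⟩
    rw [sum_def, sum_eq_zero, sum_eq_zero]
    · intro s _
      rw [h1 _ ⟨(hab s).2.1, s.2⟩, Int.cast_zero, mul_zero, mul_zero]
    · intro j _
      rw [h1 _ (th_cod Y hI _ n u hu), Int.cast_zero, mul_zero, mul_zero]

end T1a

variable {K : Type} [Field K] [Base K] {p : ℕ} [Fact p.Prime] [FBar K p] [Algebra (ZMod p) K]
  {σ : Type} [Finite σ] (Y : Sm K σ)

theorem trace_rec (hI : DefOver p Y.I) (f : ℚ[X])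
    (hf : ∀ m, 0 < m → ∀ i, IsCoprime f (X ^ m - C ((p : ℚ) ^ (m * i))))
    (H : ∀ t, (f.sum fun j a => a • Y.grC (p ^ (j + t))) ∈ RatB Y.I ⊔ ⨆ δ, ProdB Y.I δ) :
    ∃ R, 0 < R ∧ ∃ tr : ℕ → ℕ → ℚ,
      (∀ t, 0 < t → (f.sum fun j a => a * ((Y.fixed (p ^ (j + t)) : ℚ) -
        ∑ n ∈ range (Y.d + 1), ((p : ℚ) ^ n) ^ (j + t) * tr n (j + t))) = 0) ∧
      ∀ ω : ℂ, IsPrimitiveRoot ω R → ∀ e n : ℕ,
        FiniteDimensional ℚ (inv (th (ZMod p) K σ ^ e) (fun u z => (Y.C1.ip u z : ℚ)) (cod Y n)) ∧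
        ∃ μ : ℕ → ℕ, μ 0 = Module.finrank ℚ
            (inv (th (ZMod p) K σ ^ e) (fun u z => (Y.C1.ip u z : ℚ)) (cod Y n)) ∧
          ∀ m, (tr n (e * m) : ℂ) = ∑ j ∈ range R, μ j * ω ^ (j * m) := by
  choose N c a b hab e using fun t => T1a.exists_dec Y (H t)
  have hper := th_periodic (K := K) (σ := σ) (T1a.card_eq (p := p))
  choose r₀ hr₀ hr₁ using fun s => hper (b 0 s)
  have hr : 0 < ∏ s, r₀ s := prod_pos fun s _ => hr₀ s
  choose tr h1 h2 using fun n => T1a.abs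
    (ι := fun t => {s // MP_60ec62_ag.DL.dm K (b t s) + n = Y.d + 1}) (th (ZMod p) K σ)
    (fun u z => (Y.C1.ip u z : ℚ)) (cod Y n)
    (fun u hu => by simpa only [pow_one] using T1a.th_cod Y hI 1 n u hu)
    (fun u z => by
      rw [← Y.C1.ip_cm (T1a.defOver_pow hI 1), ← pow_one (th (ZMod p) K σ), T1a.cm_th1,
        T1a.cm_th1])
    hper ((p : ℚ) ^ n) f (fun m hm => by rw [← pow_mul, mul_comm n]; exact hf m hm n)
    (fun t s => c t s.1) (fun t s => a t s.1) (fun t s => b t s.1)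
    (fun t s => ⟨(hab t s.1).2.1, s.2⟩) (fun t => T1a.row Y hI f t (hab t) (e t) n) hr (fun s => by
      obtain ⟨x, hx⟩ := dvd_prod_of_mem r₀ (mem_univ s.1)
      rw [hx, pow_mul, Equiv.Perm.pow_apply_eq_self_of_apply_eq_self (hr₁ _)])
  refine ⟨_, hr, tr, fun t ht => ?_, fun ω hω e n => h2 n ω hω e⟩
  have h3 := e t _ (T1a.mid_gr Y)
  rw [sum_def, map_sum, sum_congr rfl fun j _ => by
    rw [map_smul, Y.lefschetz (by omega) (T1a.defOver_pow hI _), smul_eq_mul],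
    sum_congr (s₁ := univ) rfl fun s _ => congrArg (c t s * ·)
      (T1a.bil_diag Y (hab t s).1 (hab t s).2.1 (hab t s).2.2),
    ← sum_fiberwise_of_maps_to (s := univ) (t := range (Y.d + 1))
      (g := fun s => Y.d + 1 - MP_60ec62_ag.DL.dm K (b t s)) fun s _ => by
        have := (hab t s).2.2
        have := Y.dm_le (hab t s).1.2
        rw [mem_range]
        omega] at h3
  simp only [sum_def] at h1 ⊢
  simp only [mul_sub, mul_sum, sum_sub_distrib]
  rw [h3, sum_comm, sub_eq_zero]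
  refine sum_congr rfl fun n _ => ?_
  rw [h1]
  exact sum_subtype (p := fun s => MP_60ec62_ag.DL.dm K (b t s) + n = Y.d + 1) _ (fun s => by
    have := Y.dm_le (hab t s).2.1.2
    rw [mem_filter]
    exact ⟨fun h => by have := h.2; omega, fun h => ⟨mem_univ _, by omega⟩⟩) _

end Pool.Agent.Lib.MP_557161_ag.DL.T0
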