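import Pool.Agent.Lib.MP_557161_ag.TU.Plk
import Pool.Agent.Lib.MP_557161_ag.DL.Bridge
import Pool.Agent.Lib.MP_60ec62_ag.DL.UpG
import Pool.Agent.Lib.MP_60ec62_ag.DF.Rect

/-!
From cycles on the torsor to cycles on the square of the cone.
-/

noncomputable section

namespace Pool.Agent.Lib.MP_557161_ag.TU

open MvPolynomial Pool.Agent.Lib.MP_60ec62_ag.DL
open Pool.Agent.Lib.MP_557161_ag.DL (Idx plk coneU RatB ProdB Base)

namespace Br

open Pool.Agent.Lib.MP_557161_ag.DL (WHomog w2 N2 bx bxP E2 Pb pbL pbR)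
open Pool.Agent.Lib.MP_557161_ag.DL.Bridge (mon mon_inl mon_inr scale coeff_scale tt cc cc_apply
  mem_of_comp)

section Gen

variable {K : Type} [Field K] {σ : Type}

/-- Scaling of the two blocks of coordinates. -/
def sc (u v : K) (y : σ ⊕ σ → K) : σ ⊕ σ → K := fun i => mon u v (w2 σ σ i) * y i

lemma comp_zero [Infinite K] {h : MvPolynomial (σ ⊕ σ) K} {y : σ ⊕ σ → K}
    (H : ∀ u v, eval (sc u v y) h = 0) (γ : N2) :
    eval y (weightedHomogeneousComponent (w2 σ σ) γ h) = 0 := by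
  have key : ∀ u v : K, (Polynomial.evalEvalRingHom u v).comp
      ((Polynomial.mapRingHom (Polynomial.mapRingHom (eval y))).comp
        (scale K σ : MvPolynomial (σ ⊕ σ) K →+* _)) = eval (sc u v y) := fun u v => by
    refine MvPolynomial.ringHom_ext (fun r => ?_) fun i => ?_
    · have : scale K σ (C r) = Polynomial.C (Polynomial.C (C r)) := (scale K σ).commutes r
      simp [this]
    · simp [scale, tt, mon, cc_apply, sc, mul_comm, mul_assoc]
  have h0 : (scale K σ h).map (Polynomial.mapRingHom (eval y)) = 0 := by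
    refine Polynomial.eq_zero_of_infinite_isRoot _ (Set.Infinite.mono ?_
      (Set.infinite_range_of_injective (Polynomial.C_injective (R := K))))
    rintro _ ⟨v, rfl⟩
    refine Polynomial.funext fun u => ?_
    rw [Polynomial.eval_zero, ← H u v, ← key]
    rfl
  have h1 := congrArg (fun P => (Polynomial.coeff P (ofLex γ).2).coeff (ofLex γ).1) h0
  simp only [Polynomial.coeff_map, Polynomial.coe_mapRingHom, coeff_scale,
    Polynomial.coeff_zero] at h1
  exact h1

lemma comp_pb {τ τ' Γ Γ' : Type} [AddCommMonoid Γ] [AddCommMonoid Γ'] {w : τ → Γ} {w' : τ' → Γ'}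
    (P : Pb K w w') (hP : Function.Injective P.ρ) (f : MvPolynomial τ K) (a : Γ) :
    weightedHomogeneousComponent w' (P.ρ a) (P.φ f) = P.φ (weightedHomogeneousComponent w a f) := by
  classical
  induction f using MvPolynomial.induction_on' with
  | add f g hf hg => simp only [map_add, hf, hg]
  | monomial m r =>
    have h1 := isWeightedHomogeneous_monomial w m r rfl
    rw [weightedHomogeneousComponent_of_mem h1, weightedHomogeneousComponent_of_mem (P.map_hom h1)]
    simp only [hP.eq_iff]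
    split_ifs
    · rfl
    · exact (map_zero _).symm

lemma hom_cm {τ τ' Γ Γ' : Type} [AddCommMonoid Γ] [AddCommMonoid Γ'] {w : τ → Γ} {w' : τ' → Γ'}
    (P : Pb K w w') (hP : Function.Injective P.ρ) {z : Pr K τ'} (hz : WHomog w' z.asIdeal) :
    WHomog w (cm P.φ z).asIdeal := fun f hf a => by
  rw [mem_cm, ← comp_pb P hP]
  exact hz _ hf _

lemma eval_px {ι κ : Type} (φ : MvPolynomial ι K →ₐ[K] MvPolynomial κ K) (x : κ → K)
    (f : MvPolynomial ι K) : eval (px φ x) f = eval x (φ f) := by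
  induction f using MvPolynomial.induction_on with
  | C r => rw [eval_C, ← algebraMap_eq, φ.commutes, algebraMap_eq, eval_C]
  | add f g hf hg => simp only [map_add, hf, hg]
  | mul_X f i hf => simp only [map_mul, hf, eval_X, px]

/-- A product subvariety is the exterior product of its projections. -/
lemma eq_bxP [IsAlgClosed K] [Finite σ] {z : Pr K (σ ⊕ σ)} (h : Rect (Set.range Sum.inl) z) :
    z = bxP (cm (rename Sum.inl) z) (cm (rename Sum.inr) z) := by
  refine PrimeSpectrum.ext (le_antisymm (fun f hf => ?_) (sup_le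
    (Ideal.map_le_iff_le_comap.2 fun _ h => h) (Ideal.map_le_iff_le_comap.2 fun _ h => h)))
  refine RectA.mem_of_vanish fun y hy => ?_
  have e : ∀ a b : σ ⊕ σ → K, Sum.elim (b ∘ Sum.inl) (a ∘ Sum.inr) =
      mix (Set.range Sum.inl) a b := fun a b => by
    funext i
    rcases i with i | i
    · exact (mix_of_mem (Set.mem_range_self i) a b).symm
    · exact (mix_of_not_mem (by simp) a b).symm
  have e1 : ∀ a b : σ → K, px (aeval (Sum.elim X fun i => C (b i))) a = Sum.elim a b :=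
    fun a b => by
      funext i
      rcases i with i | i <;> simp [px]
  have e2 : ∀ a b : σ → K, px (aeval (Sum.elim (fun i => C (a i)) X)) b = Sum.elim a b :=
    fun a b => by
      funext i
      rcases i with i | i <;> simp [px]
  have h1 : ∀ a ∈ Vp z, eval (Sum.elim (y ∘ Sum.inl) (a ∘ Sum.inr)) f = 0 := fun a ha => by
    rw [← e1, eval_px, ← eval_rename]
    refine hy _ (Ideal.mem_sup_left (Ideal.mem_map_of_mem _ ?_))
    refine (mem_cm _ _ _).2 (RectA.mem_of_vanish fun b hb => ?_)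
    rw [eval_rename, ← eval_px, e1, e]
    exact h a ha b hb f hf
  rw [← Sum.elim_comp_inl_inr y, ← e2, eval_px, ← eval_rename]
  refine hy _ (Ideal.mem_sup_right (Ideal.mem_map_of_mem _ ?_))
  refine (mem_cm _ _ _).2 (RectA.mem_of_vanish fun a ha => ?_)
  rw [eval_rename, ← eval_px, e2]
  exact h1 a ha

lemma frac {R S : Type} [CommRing R] [CommRing S] [Algebra K R] [Algebra K S] {φ : R →ₐ[K] S}
    {P : PrimeSpectrum S} {a b : S} {f g f' g' : R} (ha : a ∉ P.asIdeal)
    (hg : g' ∉ (cm φ P).asIdeal) (h : a * φ g - b * φ f ∈ P.asIdeal)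
    (h' : a * φ g' - b * φ f' ∈ P.asIdeal) :
    f' ∉ (cm φ P).asIdeal ∧ f * g' - f' * g ∈ (cm φ P).asIdeal := by
  refine ⟨fun e => (P.isPrime.mem_or_mem ((Submodule.sub_mem_iff_left _
    (Ideal.mul_mem_left _ _ ((mem_cm _ _ _).1 e))).1 h')).elim ha hg,
      (mem_cm _ _ _).2 ((P.isPrime.mem_or_mem (x := a) ?_).resolve_left ha)⟩
  convert Ideal.sub_mem _ (Ideal.mul_mem_left _ (φ f) h') (Ideal.mul_mem_left _ (φ f') h) using 1
  simp only [map_sub, map_mul]
  ring

lemma rs_mem [Finite σ] {N : Submodule ℚ (Cy K σ)} {Y : Set (σ → K)} {z : Pr K σ}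
    {f g : MvPolynomial σ K} (h : dv K z f - dv K z g ∈ N)
    (h' : ∀ P, z ≤ P → P ∉ hat Y → Finsupp.single P 1 ∈ N) : rs Y (dv K z f - dv K z g) ∈ N := by
  rw [← sub_sub_cancel (dv K z f - dv K z g) (rs Y _)]
  refine N.sub_mem h (mem_of_singles fun P hP => ?_)
  have h6 : P ∉ hat Y := fun h => hP (by rw [Finsupp.sub_apply, flt_apply_of_mem h, sub_self])
  rw [Finsupp.sub_apply, flt_apply_of_not_mem h6, sub_zero, Finsupp.sub_apply] at hP
  refine h' P ?_ h6
  by_contra h7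
  exact hP (by rw [not_not.1 (mt (fun h => (dv_supp h).1.le) h7),
    not_not.1 (mt (fun h => (dv_supp h).1.le) h7), sub_self])

end Gen

variable {K : Type} [Field K] [Base K] {n l p q : ℕ} {w : Fin l → Fin n}

omit [Base K] in
lemma px_sc (u v : K) (x : V2 n l ⊕ Bool → K) : sc u v (px (phi2 K n l) x) = px (phi2 K n l)
    (Sum.elim (x ∘ Sum.inl) fun b => (bif b then u else v) * x (Sum.inr b)) := by
  funext i
  rcases i with i | i
  · have h1 := congrFun (px_inl x) i
    have h2 := congrFun (px_inl (Sum.elim (x ∘ Sum.inl)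
      fun b => (bif b then u else v) * x (Sum.inr b))) i
    simp only [Function.comp_apply] at h1 h2
    rw [sc, mon_inl, h1, h2]
    simp only [Pi.smul_apply, smul_eq_mul, Sum.elim_inr, cond_true, mul_assoc]
    rfl
  · have h1 := congrFun (px_inr x) i
    have h2 := congrFun (px_inr (Sum.elim (x ∘ Sum.inl)
      fun b => (bif b then u else v) * x (Sum.inr b))) i
    simp only [Function.comp_apply] at h1 h2
    rw [sc, mon_inr, h1, h2]
    simp only [Pi.smul_apply, smul_eq_mul, Sum.elim_inr, cond_false, mul_assoc]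
    rfl

lemma comp_frac {Q : Pr K (V2 n l)} {a b : MvPolynomial (V2 n l) K}
    {f g : MvPolynomial (Ix n l ⊕ Ix n l) K}
    (h : rename Sum.inl a * phi2 K n l g - rename Sum.inl b * phi2 K n l f ∈
      (extZ Bool ∅ Q).asIdeal) (γ : N2) :
    rename Sum.inl a * phi2 K n l (weightedHomogeneousComponent (w2 _ _) γ g) -
      rename Sum.inl b * phi2 K n l (weightedHomogeneousComponent (w2 _ _) γ f) ∈
        (extZ Bool ∅ Q).asIdeal := by
  refine RectA.mem_of_vanish fun x hx => ?_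
  have h1 := comp_zero (h := eval (x ∘ Sum.inl) a • g - eval (x ∘ Sum.inl) b • f)
    (y := px (phi2 K n l) x) (fun u v => by
      have h2 := (mem_Vp_extZ (x := Sum.elim (x ∘ Sum.inl)
        fun b => (bif b then u else v) * x (Sum.inr b))).2
          ⟨(mem_Vp_extZ.1 hx).1, fun _ hj => hj.elim⟩ _ h
      rw [px_sc]
      simpa only [map_sub, map_mul, eval_rename, eval_px, smul_eval, Sum.elim_comp_inl, map_smul]
        using h2) γ
  simpa only [map_sub, map_mul, eval_rename, eval_px, smul_eval, map_smul] using h1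

lemma hom_Tm (Q : Pr K (V2 n l)) : WHomog (w2 _ _) (Tm Q).asIdeal := fun f hf γ => by
  simpa [Tm] using comp_frac (Q := Q) (a := 1) (b := 0) (f := 0) (g := f) (by simpa [Tm] using hf) γ

omit [Base K] in
lemma bx_le {z : Pr K (Ix n l ⊕ Ix n l)} (hz : z ∈ hat (Yt K q w)) :
    bx (vanishingIdeal K (coneU K q w)) (vanishingIdeal K (coneU K q w)) ≤ z.asIdeal := by
  refine sup_le (Ideal.map_le_iff_le_comap.2 fun f hf => hz _ fun y hy _ => ?_)
    (Ideal.map_le_iff_le_comap.2 fun f hf => hz _ fun y hy _ => ?_)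
  · rw [eval_rename]
    exact hf _ hy.1.1
  · rw [eval_rename]
    exact hf _ hy.2.1

lemma off (hcl : zeroLocus K (vanishingIdeal K (coneU K q w)) = coneU K q w) (hY : LC (Yt K q w))
    {z P : Pr K (Ix n l ⊕ Ix n l)} (hz : z ∈ hat (Yt K q w)) (h : z ≤ P)
    (hP : P ∉ hat (Yt K q w)) : E2 K (Ix n l) (Ix n l) ⊆ P.asIdeal := by
  rintro _ ⟨s, t, rfl⟩
  by_contra hst
  obtain ⟨y, -, hy, h0⟩ := exists_pt (mem_hat_univ P) hst
  rw [map_mul, eval_X, eval_X, mul_ne_zero_iff] at h0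
  have hb := (bx_le hz).trans h
  refine hP (hY.mem_hat_of_le hz h (x := y) ⟨⟨?_, fun e => h0.1 (congrFun e s)⟩, ?_,
    fun e => h0.2 (congrFun e t)⟩ hy)
  · rw [← hcl]
    intro f hf
    exact (eval_rename _ _ _).symm.trans
      (hy _ (hb (Ideal.mem_sup_left (Ideal.mem_map_of_mem _ hf))))
  · rw [← hcl]
    intro f hf
    exact (eval_rename _ _ _).symm.trans
      (hy _ (hb (Ideal.mem_sup_right (Ideal.mem_map_of_mem _ hf))))

omit [Base K] in
lemma semi {Q : Pr K (V2 n l)} {a b : MvPolynomial (V2 n l) K}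
    (h : ∀ γ ∈ BsetA (Fin (l + 1) ⊕ Fin (l + 1)) (n + 1), SemiInv γ 1 Q a b) :
    ∀ γ ∈ Gt K n l, SemiInv γ 1 (extZ Bool ∅ Q) (rename Sum.inl a) (rename Sum.inl b) := by
  rintro γ ⟨γ₀, h0, u, h1, -⟩
  have e : ∀ f : MvPolynomial (V2 n l) K, γ (rename Sum.inl f) = rename Sum.inl (γ₀ f) := fun f =>
    DFunLike.congr_fun (MvPolynomial.algHom_ext (f := γ.toAlgHom.comp (rename Sum.inl))
      (g := (rename Sum.inl).comp γ₀.toAlgHom) fun v => by simpa using h1 v) f
  have h2 := (rename_mem_extZ (κ := Bool) (s := ∅)).2 (h γ₀ h0)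
  simpa only [SemiInv, e, map_sub, map_mul, rename_C] using h2

lemma rect_Tm {Q : Pr K (V2 n l)} (h : Rect (m2 (Fin (l + 1)) (n + 1)) Q) :
    Rect (Set.range Sum.inl) (Tm Q) := by
  let M : Set (V2 n l ⊕ Bool) := {v | Sum.elim (· ∈ m2 (Fin (l + 1)) (n + 1)) (· = true) v}
  have e : ∀ x y : V2 n l ⊕ Bool → K, mix M x y ∘ Sum.inl =
      mix (m2 (Fin (l + 1)) (n + 1)) (x ∘ Sum.inl) (y ∘ Sum.inl) := fun x y => by
    funext i
    by_cases hi : i ∈ m2 (Fin (l + 1)) (n + 1)
    · rw [mix_of_mem hi]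
      exact mix_of_mem (M := M) hi x y
    · rw [mix_of_not_mem hi]
      exact mix_of_not_mem (M := M) hi x y
  refine Rect.cm (M' := M) (fun x y => ?_) fun x hx y hy => mem_Vp_extZ.2
    ⟨e x y ▸ h _ (mem_Vp_extZ.1 hx).1 _ (mem_Vp_extZ.1 hy).1, fun _ hj => hj.elim⟩
  funext i
  rcases i with i | i
  · rw [mix_of_mem (Set.mem_range_self i)]
    refine (congrFun (px_inl (mix M x y)) i).trans (Eq.trans ?_ (congrFun (px_inl y) i).symm)
    rw [mix_of_mem (M := M) (i := Sum.inr true) rfl,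
      Two.mix_comp (M := M) (j := Sum.inl ∘ Prod.map Sum.inr id) fun v => ⟨v.1, rfl⟩]
  · rw [mix_of_not_mem (by simp)]
    refine (congrFun (px_inr (mix M x y)) i).trans (Eq.trans ?_ (congrFun (px_inr x) i).symm)
    rw [mix_of_not_mem (M := M) (i := Sum.inr false) (by simp [M]),
      Two.mix_comp' (M := M) (j := Sum.inl ∘ Prod.map Sum.inl id) fun v => by simp [M, m2]]

end Br

variable {K : Type} [Field K] [Base K] {n l p q : ℕ} [Fact p.Prime] [CharP K p]
  {w : Fin l → Fin n}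

open Br in
theorem br_rat (hp : IsPP p q) (hcl : zeroLocus K (vanishingIdeal K (coneU K q w)) = coneU K q w)
    {c : Cy K (V2 n l)}
    (hc : c ∈ RatG (BsetA (Fin (l + 1) ⊕ Fin (l + 1)) (n + 1)) (sq2 (DU K q w))) :
    Finsupp.mapDomain Tm c ∈ RatB (vanishingIdeal K (coneU K q w)) := by
  have H := tors hp hcl
  refine UpG.mapDomain_mem ?_ hc
  rintro _ ⟨Q, hQ, a, b, hs, ha, hb, hi, rfl⟩
  have hQ' := ext_mem_hat.2 hQ
  have ha' := mt (rename_mem_extZ (κ := Bool) (s := ∅)).1 ha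
  have hb' := mt (rename_mem_extZ (κ := Bool) (s := ∅)).1 hb
  obtain ⟨f, g, hf, hg, h1, h2⟩ := H.rat hQ' (ext_stable hs) ha' hb' (semi hi)
  have hz : Tm Q ∈ hat (Yt K q w) := H.mem hQ'
  have e : Finsupp.mapDomain Tm (rs (sq2 (DU K q w)) (dv K Q a - dv K Q b)) =
      rs (Yt K q w) (dv K (Tm Q) f - dv K (Tm Q) g) := by
    refine Eq.trans ?_ h2
    rw [dv_extZ, dv_extZ, ← Finsupp.lmapDomain_apply ℚ ℚ (extZ Bool ∅),
      ← Finsupp.lmapDomain_apply ℚ ℚ (extZ Bool ∅), ← map_sub, Finsupp.lmapDomain_apply,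
      UpG.flt_mapDomain (extZ_injective ∅) fun _ => ext_mem_hat, ← Finsupp.mapDomain_comp]
    rfl
  obtain ⟨γ, hγ⟩ := not_forall.1 (mt (DL.Bridge.mem_of_comp (w := DL.w2 _ _)) hg)
  obtain ⟨hγ', h4⟩ := frac ha' hγ h1 (comp_frac h1 γ)
  rw [e]
  exact rs_mem (Submodule.mem_sup_left (Submodule.subset_span
    ⟨Tm Q, _, _, γ, hom_Tm Q, bx_le hz, weightedHomogeneousComponent_isWeightedHomogeneous _ _,
      weightedHomogeneousComponent_isWeightedHomogeneous _ _, hγ', hγ,
      dv_frac hf hg hγ' hγ h4⟩)) fun P h hP => Submodule.mem_sup_right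
        (Submodule.subset_span ⟨P, off hcl H.lcY hz h hP, rfl⟩)

open Br in
theorem br_prod (hp : IsPP p q) (hcl : zeroLocus K (vanishingIdeal K (coneU K q w)) = coneU K q w)
    {c : Cy K (V2 n l)} (hc : c ∈ SmR (m2 (Fin (l + 1)) (n + 1))
      (BsetA (Fin (l + 1) ⊕ Fin (l + 1)) (n + 1)) (sq2 (DU K q w))) :
    Finsupp.mapDomain Tm c ∈ ⨆ δ, ProdB (vanishingIdeal K (coneU K q w)) δ := by
  rw [SmR, Finsupp.supported_eq_span_single] at hc
  refine UpG.mapDomain_mem ?_ hc
  rintro _ ⟨Q, ⟨hQ, -, hr⟩, rfl⟩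
  have hb := bx_le ((tors hp hcl).mem (ext_mem_hat.2 hQ))
  have e1 : (DL.pbL K (Ix n l) (Ix n l)).φ = rename Sum.inl :=
    MvPolynomial.algHom_ext fun i => by simp [DL.pbL]
  have e2 : (DL.pbR K (Ix n l) (Ix n l)).φ = rename Sum.inr :=
    MvPolynomial.algHom_ext fun i => by simp [DL.pbR]
  rw [Finsupp.mapDomain_single, eq_bxP (rect_Tm hr)]
  refine Submodule.mem_iSup_of_mem _ (Submodule.subset_span ⟨_, _, ?_, ?_,
    fun f hf => hb (Ideal.mem_sup_left (Ideal.mem_map_of_mem _ hf)),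
    fun f hf => hb (Ideal.mem_sup_right (Ideal.mem_map_of_mem _ hf)), rfl, rfl⟩)
  · exact e1 ▸ hom_cm _ (fun a b h => congrArg (fun x => (ofLex x).1) h) (hom_Tm Q)
  · exact e2 ▸ hom_cm _ (fun a b h => congrArg (fun x => (ofLex x).2) h) (hom_Tm Q)

end Pool.Agent.Lib.MP_557161_ag.TU
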