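import Pool.Agent.Lib.MP_557161_ag.TU.Plk
import Pool.Agent.Lib.MP_557161_ag.TU.GrC
import Pool.Agent.Lib.MP_60ec62_ag.DF.Diag

/-!
The graph of Frobenius on the cone is the sum of the images of the graphs on the torsor.
-/

noncomputable section

namespace Pool.Agent.Lib.MP_557161_ag.TU

open MvPolynomial Pool.Agent.Lib.MP_60ec62_ag.DL
open Pool.Agent.Lib.MP_557161_ag.DL (Idx plk coneU Sm)

namespace GrT

section Gen

variable {K : Type} [Field K] {ι ι' κ : Type}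

/-- The prime is the ideal of the set of points. -/
def Dn (A : Set (ι → K)) (P : Pr K ι) : Prop := ∀ f, f ∈ P.asIdeal ↔ ∀ x ∈ A, eval x f = 0

lemma dn_hat {Y : Set (ι → K)} {P : Pr K ι} (h : P ∈ hat Y) : Dn {x ∈ Y | x ∈ Vp P} P := fun f =>
  ⟨fun hf _ hx => hx.2 f hf, fun hf => h f fun x hx hP => hf x ⟨hx, hP⟩⟩

lemma eval_px (φ : MvPolynomial ι K →ₐ[K] MvPolynomial ι' K) (x : ι' → K) (f : MvPolynomial ι K) :
    eval (px φ x) f = eval x (φ f) := by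
  have h : eval (px φ x) = (eval x).comp φ.toRingHom :=
    MvPolynomial.ringHom_ext (fun c => by simp) fun i => by simp [px]
  rw [h]
  rfl

lemma Dn.push {A : Set (ι' → K)} {P : Pr K ι'} (h : Dn A P)
    (φ : MvPolynomial ι K →ₐ[K] MvPolynomial ι' K) : Dn (px φ '' A) (cm φ P) := fun f => by
  rw [mem_cm, h, Set.forall_mem_image]
  simp only [eval_px]

lemma Dn.ne {A : Set (ι → K)} {P : Pr K ι} (h : Dn A P) {g : MvPolynomial ι K}
    (hg : g ∉ P.asIdeal) : Dn {x ∈ A | eval x g ≠ 0} P := fun f => by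
  refine ⟨fun hf x hx => (h f).1 hf x hx.1, fun hf =>
    (P.isPrime.mem_or_mem ((h (g * f)).2 fun x hx => ?_)).resolve_left hg⟩
  rw [map_mul]
  by_cases h0 : eval x g = 0
  · rw [h0, zero_mul]
  · rw [hf x ⟨hx, h0⟩, mul_zero]

lemma Dn.ext [IsAlgClosed K] [Finite ι] [Finite κ] {A : Set (ι → K)} {P : Pr K ι} (h : Dn A P)
    (s : Set κ) : Dn {z | z ∘ Sum.inl ∈ A ∧ ∀ j ∈ s, z (Sum.inr j) = 0} (extZ κ s P) := fun f => by
  refine ⟨fun hf z hz => (mem_Vp_extZ.2 ⟨fun g hg => (h g).1 hg _ hz.1, hz.2⟩) f hf,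
    fun hf => mem_hat_univ _ f fun z _ hz => ?_⟩
  obtain ⟨h1, h2⟩ := mem_Vp_extZ.1 hz
  have e : ∀ x : ι → K, eval x (aeval (Sum.elim X fun j => C (z (Sum.inr j))) f) =
      eval (Sum.elim x (z ∘ Sum.inr)) f := fun x => by
    rw [← eval_px]
    refine congrArg (fun u => eval u f) (funext ?_)
    rintro (i | j) <;> simp [px]
  have h3 := h1 _ ((h _).2 fun x hx => (e x).trans (hf _ ⟨hx, h2⟩))
  rwa [e, Sum.elim_comp_inl_inr] at h3

/-- Every point lies on a minimal stable subvariety. -/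
lemma exists_min [IsAlgClosed K] [Finite ι] {Y : Set (ι → K)} {Γ : Set (Au K ι)} (hY : LC Y)
    (hΓ : Conn Γ) (hs : StSet Γ Y) {x : ι → K} (hx : x ∈ Y) :
    ∃ P, Minimal (fun P => P ∈ hat Y ∧ Stable Γ P) P ∧ x ∈ Vp P := by
  obtain ⟨I, J, e⟩ := hY
  have hh : ∀ P : Pr K ι, P ∈ hat Y ↔ I ≤ P.asIdeal ∧ ¬ J ≤ P.asIdeal := fun P => by
    rw [e, mem_hat_iff]
  have hT : {P : Pr K ι | Minimal (· ∈ hat Y) P}.Finite := by
    refine ((Ideal.finite_minimalPrimes_of_isNoetherianRing _ I).preimage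
      (f := PrimeSpectrum.asIdeal) fun _ _ _ _ h => PrimeSpectrum.ext h).subset fun P hP => ?_
    obtain ⟨h1, h2⟩ := (hh P).1 hP.1
    exact ⟨⟨P.isPrime, h1⟩, fun Q hQ hQP =>
      hP.2 (y := ⟨Q, hQ.1⟩) ((hh _).2 ⟨hQ.2, fun h => h2 (h.trans hQP)⟩) hQP⟩
  have hst := hΓ.stable hT.toFinset fun γ hγ z hz => by
    rw [Set.Finite.mem_toFinset] at hz ⊢
    refine ⟨(act_mem_hat (hs γ hγ)).2 hz.1, fun Q hQ hle => ?_⟩
    obtain ⟨Q, rfl⟩ := (act_bijective γ).2 Q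
    exact act_le_act.2 (hz.2 ((act_mem_hat (hs γ hγ)).1 hQ) (act_le_act.1 hle))
  rw [e] at hx
  obtain ⟨h1, g, hg, h2⟩ := hx
  have := Hat.mx_prime x
  obtain ⟨Q, hQ, hQP⟩ := Ideal.exists_minimalPrimes_le (I := I) (J := Hat.mx x)
    fun f hf => Hat.mem_mx.2 (h1 f hf)
  have h3 : Minimal (· ∈ hat Y) (⟨Q, hQ.1.1⟩ : Pr K ι) :=
    ⟨(hh _).2 ⟨hQ.1.2, fun h => h2 (Hat.mem_mx.1 (hQP (h hg)))⟩, fun R hR hle =>
      hQ.2 ⟨R.isPrime, ((hh R).1 hR).1⟩ hle⟩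
  exact ⟨_, ⟨⟨h3.1, hst _ (hT.mem_toFinset.2 h3)⟩, fun R hR hle => h3.2 hR.1 hle⟩,
    fun f hf => Hat.mem_mx.1 (hQP hf)⟩

lemma exists_minor [Fintype ι] {m : ℕ} {A : Matrix (Fin m) ι K}
    (h : Module.finrank K (Submodule.span K (Set.range A.row)) = m) :
    ∃ t : Fin m → ι, (A.submatrix id t).det ≠ 0 := by
  rw [← Matrix.rank_eq_finrank_span_row, Matrix.rank_eq_finrank_span_cols] at h
  obtain ⟨f, f1, -, f2⟩ := Submodule.exists_fun_fin_finrank_span_eq K (Set.range A.col)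
  choose t ht using f1
  refine ⟨t ∘ Fin.cast h.symm, isUnit_iff_ne_zero.1 ((Matrix.isUnit_iff_isUnit_det _).1
    (Matrix.linearIndependent_cols_iff_isUnit.1 ?_))⟩
  have e : (A.submatrix id (t ∘ Fin.cast h.symm)).col = f ∘ Fin.cast h.symm :=
    funext fun c => ht _
  rw [e]
  exact f2.comp _ (Fin.cast_injective _)

/-- The components of a cone with a nonzero point are not the origin. -/
lemma rel [Infinite K] {I a : Ideal (MvPolynomial ι K)} (ha : a ∈ I.minimalPrimes) {y : ι → K}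
    (hy : y ≠ 0) (hI : ∀ f ∈ I, ∀ t : K, eval (t • y) f = 0) : ∃ s, X s ∉ a := by
  by_contra hn
  simp only [not_exists, not_not] at hn
  let φ : MvPolynomial ι K →+* Polynomial K :=
    eval₂Hom Polynomial.C fun s => Polynomial.C (y s) * Polynomial.X
  have e : ∀ (t : K) f, (φ f).eval t = eval (t • y) f := fun t f => by
    have h : (Polynomial.evalRingHom t).comp φ = eval (t • y) :=
      MvPolynomial.ringHom_ext (fun c => by simp [φ]) fun i => by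
        rw [eval_X, Pi.smul_apply, smul_eq_mul, mul_comm]
        simp [φ]
    exact RingHom.congr_fun h f
  have e2 : Ideal.Quotient.mk a = ((Ideal.Quotient.mk a).comp C).comp (eval ((0 : K) • y)) :=
    MvPolynomial.ringHom_ext (fun c => by simp) fun i => by
      simp [Ideal.Quotient.eq_zero_iff_mem.2 (hn i)]
  have h1 : I ≤ RingHom.ker φ := fun f hf =>
    Polynomial.funext fun t => by rw [e, hI f hf t, Polynomial.eval_zero]
  have h2 : RingHom.ker φ ≤ a := fun f hf => by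
    rw [← Ideal.Quotient.eq_zero_iff_mem, e2, RingHom.comp_apply, ← e, RingHom.mem_ker.1 hf,
      Polynomial.eval_zero, map_zero]
  have h3 := ha.2 ⟨RingHom.ker_isPrime φ, h1⟩ h2
  refine hy (funext fun s => ?_)
  have h4 := e 1 (X s)
  rw [RingHom.mem_ker.1 (h3 (hn s)), Polynomial.eval_zero, eval_X, one_smul] at h4
  exact h4.symm

/-- The minimal primes of a finite intersection of incomparable primes. -/
lemma min_iff {R β : Type} [CommRing R] {I : Ideal R} {S : Finset β} {T : β → PrimeSpectrum R}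
    (hI : ∀ f, f ∈ I ↔ ∀ b ∈ S, f ∈ (T b).asIdeal)
    (hT : ∀ b ∈ S, ∀ b' ∈ S, T b ≤ T b' → b = b') (z : PrimeSpectrum R) :
    (∃ b ∈ S, T b = z) ↔ z.asIdeal ∈ I.minimalPrimes := by
  have e : I = S.inf fun b => (T b).asIdeal := Ideal.ext fun f => by
    rw [hI, Submodule.mem_finsetInf]
  have h1 : ∀ b ∈ S, I ≤ (T b).asIdeal := fun b hb f hf => (hI f).1 hf b hb
  have h2 : ∀ Q : Ideal R, Q.IsPrime → I ≤ Q → ∃ b ∈ S, (T b).asIdeal ≤ Q := fun Q hQ h => by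
    rw [e] at h
    exact hQ.inf_le'.1 h
  constructor
  · rintro ⟨b, hb, rfl⟩
    refine ⟨⟨(T b).isPrime, h1 b hb⟩, fun Q hQ hle => ?_⟩
    obtain ⟨b', hb', h⟩ := h2 Q hQ.1 hQ.2
    rwa [hT b' hb' b hb (h.trans hle)] at h
  · intro hz
    obtain ⟨b, hb, h⟩ := h2 _ hz.1.1 hz.1.2
    exact ⟨b, hb, PrimeSpectrum.ext (le_antisymm h (hz.2 ⟨(T b).isPrime, h1 b hb⟩ h))⟩

lemma prod_notMem {R β : Type} [CommRing R] [Fintype β] (P : PrimeSpectrum R) {f : β → R}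
    (h : ∀ b, f b ∉ P.asIdeal) : ∏ b, f b ∉ P.asIdeal := fun h0 => by
  have := P.isPrime
  obtain ⟨b, -, hb⟩ := Ideal.IsPrime.prod_mem_iff.1 h0
  exact h b hb

end Gen

section Pts

variable {K : Type} [Field K] {n l p q : ℕ} [Fact p.Prime] [CharP K p] {w : Fin l → Fin n}

lemma plk_pow (j : ℕ) (x : V1 n l → K) :
    plk (colb fun v => x v ^ p ^ j) = fun s => plk (colb x) s ^ p ^ j := by
  funext s
  have h : (iterateFrobenius K p j) (plk (colb x) s) =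
      plk (colb fun v => iterateFrobenius K p j (x v)) s := by
    simp only [plk, map_prod, RingHom.map_det]
    rfl
  simp only [iterateFrobenius_def] at h
  exact h.symm

lemma smul_mem {y : Ix n l → K} (hy : y ∈ coneU K q w) (c : K) : c • y ∈ coneU K q w := by
  obtain ⟨c', b, hb, rfl⟩ := hy
  exact ⟨c * c', b, hb, smul_smul _ _ _⟩

lemma cone_pts (hp : IsPP p q) {y : Ix n l → K} (hy : y ∈ coneU K q w) :
    ∃ x ∈ DU K q w, ∃ c : K, y = c • plk (colb x) := by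
  obtain ⟨c, b, hb, rfl⟩ := hy
  choose s hs using fun j i => exists_minor (A := Matrix.of (b j i)) ((hb.1 j).2 i)
  have h0 : plk b ≠ 0 := fun h => (Finset.prod_ne_zero_iff.2 fun j _ =>
    Finset.prod_ne_zero_iff.2 fun i _ => hs j i) (congrFun h s)
  have h1 : plk b ∈ coneU K q w := ⟨1, b, hb, (one_smul _ _).symm⟩
  obtain ⟨t, τ, h2, -, h3, -⟩ := sec hp h1 h0
  obtain ⟨h4, h5⟩ := h3 _ h1 h2
  exact ⟨_, h4, c * plk b t, by rw [← smul_smul, ← h5]⟩

variable (K n l) in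
/-- The product of the diagonal entries. -/
def dia : MvPolynomial (V1 n l ⊕ V1 n l) K := ∏ a, ∏ i, X (Sum.inr (a, (i, i)))

omit [Fact p.Prime] [CharP K p] in
lemma dia_notMem (P : Pr K (V1 n l)) :
    dia K n l ∉ (extZ _ (Diag.low (Fin (l + 1)) (n + 1)) P).asIdeal :=
  prod_notMem _ fun a => prod_notMem _ fun i h =>
    lt_irrefl i ((X_mem_extZ (s := Diag.low (Fin (l + 1)) (n + 1)) (j := (a, (i, i)))).1 h)

omit [Fact p.Prime] [CharP K p] in
lemma th_inl (Q : ℕ) (u : V1 n l ⊕ V1 n l → K) :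
    px (Diag.th K (n + 1) (Fin (l + 1)) Q) u ∘ Prod.map Sum.inl id = u ∘ Sum.inl := by
  funext ⟨a, v⟩
  simp [px, Diag.th]

lemma th_inr (j : ℕ) {u : V1 n l ⊕ V1 n l → K}
    (h1 : ∀ v ∈ Diag.low (Fin (l + 1)) (n + 1), u (Sum.inr v) = 0) (h2 : eval u (dia K n l) ≠ 0) :
    ∃ c : K, c ≠ 0 ∧ plk (colb (px (Diag.th K (n + 1) (Fin (l + 1)) (p ^ j)) u ∘
      Prod.map Sum.inr id)) = c • fun s => plk (colb (u ∘ Sum.inl)) s ^ p ^ j := by
  rw [← plk_pow]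
  have ht : ∀ a, (matA (u ∘ Sum.inr) a).BlockTriangular id := fun a r c h => h1 (a, (r, c)) h
  refine plk_mul (β := matA (u ∘ Sum.inr)) (fun a => ⟨ht a, ?_⟩) fun a => Matrix.ext fun r c => ?_
  · rw [Matrix.det_of_isUpperTriangular (ht a)]
    simp only [dia, map_prod, eval_X] at h2
    exact Finset.prod_ne_zero_iff.1 h2 a (Finset.mem_univ a)
  · simp only [matA, px, Diag.th, Matrix.of_apply, Matrix.mul_apply, Function.comp_apply,
      Prod.map_apply, id, aeval_X, Sum.elim_inr, map_sum, map_mul, map_pow, eval_X]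
    refine Finset.sum_subset (Finset.subset_univ _) fun b _ hb => ?_
    rw [h1 (a, (b, c)) (not_le.1 (Finset.mem_Iic.not.1 hb)), mul_zero]

/-- The points of the image of the graph. -/
def gp (j : ℕ) (c c' : K) (x : V1 n l → K) : Ix n l ⊕ Ix n l → K :=
  Sum.elim (c • fun s => plk (colb x) s ^ p ^ j) (c' • plk (colb x))

variable [IsAlgClosed K]

lemma dn_ext {A : Set (V1 n l → K)} {P : Pr K (V1 n l)} (h : Dn A P) (Q : ℕ) :
    Dn {z : V2 n l ⊕ Bool → K | ∃ u : V1 n l ⊕ V1 n l → K, u ∘ Sum.inl ∈ A ∧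
      (∀ v ∈ Diag.low (Fin (l + 1)) (n + 1), u (Sum.inr v) = 0) ∧ eval u (dia K n l) ≠ 0 ∧
        px (Diag.th K (n + 1) (Fin (l + 1)) Q) u = z ∘ Sum.inl}
      (extZ Bool ∅ (Stm.graph Q P)) := by
  have h1 := (((h.ext (Diag.low (Fin (l + 1)) (n + 1))).ne (dia_notMem P)).push
    (Diag.th K (n + 1) (Fin (l + 1)) Q)).ext (∅ : Set Bool)
  rw [Diag.cm_th] at h1
  intro f
  rw [h1 f]
  exact ⟨fun hf z ⟨u, a1, a2, a3, a4⟩ => hf z ⟨⟨u, ⟨⟨a1, a2⟩, a3⟩, a4⟩, fun _ h => h.elim⟩,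
    fun hf z ⟨⟨u, ⟨⟨a1, a2⟩, a3⟩, a4⟩, _⟩ => hf z ⟨u, a1, a2, a3, a4⟩⟩

lemma mem_Tm {A : Set (V1 n l → K)} {P : Pr K (V1 n l)} (h : Dn A P) (j : ℕ)
    {f : MvPolynomial (Ix n l ⊕ Ix n l) K}
    (hf : ∀ x ∈ A, ∀ c c' : K, c' ≠ 0 → eval (gp (p := p) j c c' x) f = 0) :
    f ∈ (Tm (Stm.graph (p ^ j) P)).asIdeal := by
  refine (((dn_ext h (p ^ j)).ne (g := X (Sum.inr false))
    fun h => (X_mem_extZ.1 h).elim).push (phi2 K n l) f).2 ?_
  rintro _ ⟨z, ⟨⟨u, a1, a2, a3, a4⟩, a5⟩, rfl⟩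
  obtain ⟨c, -, hc⟩ := th_inr j a2 a3
  rw [eval_X] at a5
  refine (congrArg (fun y => eval y f) ?_).trans (hf _ a1 (z (Sum.inr true) * c) _ a5)
  rw [← Sum.elim_comp_inl_inr (px (phi2 K n l) z), px_inl, px_inr, ← Function.comp_assoc,
    ← Function.comp_assoc, ← a4, hc, th_inl, smul_smul]
  rfl

lemma of_mem_Tm {A : Set (V1 n l → K)} {P : Pr K (V1 n l)} (h : Dn A P) (j : ℕ)
    {x : V1 n l → K} (hx : x ∈ A) (c c' : K) :
    gp (p := p) j c c' x ∈ Vp (Tm (Stm.graph (p ^ j) P)) := fun f hf => by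
  let u : V1 n l ⊕ V1 n l → K := Sum.elim x fun v => if v.2.1 = v.2.2 then 1 else 0
  have a2 : ∀ v ∈ Diag.low (Fin (l + 1)) (n + 1), u (Sum.inr v) = 0 := fun v hv =>
    if_neg (ne_of_gt hv)
  have a3 : eval u (dia K n l) ≠ 0 := by simp [dia, u]
  obtain ⟨d, hd, hc⟩ := th_inr j a2 a3
  let z : V2 n l ⊕ Bool → K := Sum.elim (px (Diag.th K (n + 1) (Fin (l + 1)) (p ^ j)) u)
    fun b => cond b (c * d⁻¹) c'
  refine (congrArg (fun y => eval y f) ?_).trans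
    (((dn_ext h (p ^ j)).push (phi2 K n l) f).1 hf _ ⟨z, ⟨u, hx, a2, a3, rfl⟩, rfl⟩)
  rw [← Sum.elim_comp_inl_inr (px (phi2 K n l) z), px_inl, px_inr, ← Function.comp_assoc,
    ← Function.comp_assoc, Sum.elim_comp_inl, hc, th_inl, smul_smul]
  simp only [z, Sum.elim_inr, cond_true, cond_false, inv_mul_cancel_right₀ hd]
  rfl

end Pts

variable {K : Type} [Field K] [IsAlgClosed K] {n l p q : ℕ} [Fact p.Prime] [CharP K p]
  {w : Fin l → Fin n}

lemma le_of_le (hp : IsPP p q) (hcl : zeroLocus K (vanishingIdeal K (coneU K q w)) = coneU K q w)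
    (j : ℕ) {P P' : Pr K (V1 n l)}
    (hP : P ∈ Stm.Sub K (n + 1) q (fun j => (w j).1 + 1) fun i j => i + j - (n + 1))
    (hP' : P' ∈ hat (DU K q w)) (h : Tm (Stm.graph (p ^ j) P) ≤ Tm (Stm.graph (p ^ j) P')) :
    P ≤ P' := by
  obtain ⟨h2, h3⟩ := (mem_Sub₂ _).1 (graph_mem hp hP j)
  refine le_of_pts hP' fun x hx hxP f hf => ?_
  let z : V2 n l ⊕ Bool → K := Sum.elim
    (fun v => Sum.elim (fun a => x (a, v.2)) (fun a => x (a, v.2) ^ p ^ j) v.1) fun _ => 1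
  have hz : z ∈ Et K q w :=
    ⟨⟨hx, (Two.map_mem_Dset (iterateFrobenius K p j) _ _ x).2 hx⟩, fun _ => one_ne_zero⟩
  have e : px (phi2 K n l) z = gp (p := p) j 1 1 x := by
    rw [← Sum.elim_comp_inl_inr (px (phi2 K n l) z), px_inl, px_inr, gp, ← plk_pow]
    rfl
  have h4 := ((tors hp hcl).pts (ext_mem_hat.2 h2) (ext_stable h3) hz).2 (by
    rw [e]
    exact Vp_anti h (of_mem_Tm (dn_hat hP') j ⟨hx, hxP⟩ 1 1))
  have e2 : (Diag.th K (n + 1) (Fin (l + 1)) (p ^ j)).comp (rename (Prod.map Sum.inl id)) =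
      rename Sum.inl := MvPolynomial.algHom_ext fun ⟨a, v⟩ => by simp [Diag.th]
  have h5 := (mem_Vp_extZ.1 h4).1 (rename (Prod.map Sum.inl id) f) (by
    rw [← Diag.cm_th, mem_cm, ← AlgHom.comp_apply, e2]
    exact rename_mem_extZ.2 hf)
  rwa [eval_rename] at h5

end GrT

variable {K : Type} [Field K] [IsAlgClosed K] {n l p q : ℕ} [Fact p.Prime] [CharP K p]
  {w : Fin l → Fin n}

theorem grC_sum (hp : IsPP p q) (hcl : zeroLocus K (vanishingIdeal K (coneU K q w)) = coneU K q w)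
    (Y : Sm K (Ix n l)) (hY : Y.I = vanishingIdeal K (coneU K q w))
    (S : Finset (Pr K (V1 n l))) (hS : ∀ P, P ∈ S ↔ Minimal (· ∈ Stm.Sub K (n + 1) q
      (fun j => (w j).1 + 1) fun i j => i + j - (n + 1)) P) (j : ℕ) :
    Y.grC (p ^ j) = ∑ P ∈ S, Finsupp.single (Tm (Stm.graph (p ^ j) P)) 1 := by
  classical
  have hv : ∀ f, f ∈ Y.I ↔ ∀ y ∈ coneU K q w, eval y f = 0 := fun f => by
    simp only [hY, mem_vanishingIdeal_iff, aeval_eq_eval]
  have hr : Y.I.IsRadical := fun f ⟨m, hm⟩ => (hv f).2 fun y hy =>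
    eq_zero_of_pow_eq_zero (n := m) (by rw [← map_pow, (hv _).1 hm y hy])
  have hz : zeroLocus K Y.I = coneU K q w := by rw [hY, hcl]
  have hm : ∀ P ∈ S, P ∈ hat (DU K q w) := fun P hP => ((StmB.mem_Sub P).1 ((hS P).1 hP).1).1
  have hrel : ∀ a ∈ Y.I.minimalPrimes, ∃ s, X s ∉ a := fun a ha => by
    obtain ⟨y, hy⟩ : ∃ y, y ∈ coneU K q w := by
      by_contra h0
      exact (Ideal.ne_top_iff_one a).1 ha.1.1.ne_top
        (ha.1.2 ((hv 1).2 fun y hy => (h0 ⟨y, hy⟩).elim))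
    obtain ⟨x, hx, -⟩ := GrT.cone_pts hp hy
    obtain ⟨h1, h2⟩ := plk_mem hp hx
    exact GrT.rel ha h2 fun f hf t => (hv f).1 hf _ (GrT.smul_mem h1 t)
  have hI : ∀ f, f ∈ Y.gr (p ^ j) ↔ ∀ P ∈ S, f ∈ (Tm (Stm.graph (p ^ j) P)).asIdeal := fun f => by
    rw [Y.mem_gr_iff hr, hz]
    constructor
    · intro hf P hP
      refine GrT.mem_Tm (GrT.dn_hat (hm P hP)) j fun x hx c c' hc => ?_
      refine (congrArg (fun y => eval y f) ?_).trans
        (hf (c * (c' ^ p ^ j)⁻¹) _ (GrT.smul_mem (plk_mem hp hx.1).1 c'))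
      refine congrArg (Sum.elim · _) (funext fun s => ?_)
      simp only [Pi.smul_apply, smul_eq_mul, mul_pow]
      rw [← mul_assoc, inv_mul_cancel_right₀ (pow_ne_zero _ hc)]
    · intro hf c y hy
      obtain ⟨x, hx, c', rfl⟩ := GrT.cone_pts hp hy
      obtain ⟨P, hP, hxP⟩ := GrT.exists_min (lc_Dset _ _) StmB.conn_B (stSet_Dset hp _ _) hx
      have hPS : P ∈ S := (hS P).2 (by
        simp only [StmB.mem_Sub]
        exact hP)
      refine (congrArg (fun y => eval y f) ?_).trans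
        (GrT.of_mem_Tm (GrT.dn_hat hP.1.1) j ⟨hx, hxP⟩ (c * c' ^ p ^ j) c' f (hf P hPS))
      refine congrArg (Sum.elim · _) (funext fun s => ?_)
      simp only [Pi.smul_apply, smul_eq_mul, mul_pow, mul_assoc]
  have hT : ∀ P ∈ S, ∀ P' ∈ S, Tm (Stm.graph (p ^ j) P) ≤ Tm (Stm.graph (p ^ j) P') → P = P' :=
    fun P hP P' hP' h => by
      have h1 := GrT.le_of_le hp hcl j ((hS P).1 hP).1 (hm P' hP') h
      exact le_antisymm h1 (((hS P').1 hP').2 ((hS P).1 hP).1 h1)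
  rw [Y.grC_eq hr hrel _ (S.image fun P => Tm (Stm.graph (p ^ j) P))
    fun z => Finset.mem_image.trans (GrT.min_iff hI hT z),
    Finset.sum_image fun P hP P' hP' h => hT P hP P' hP' h.le]

end Pool.Agent.Lib.MP_557161_ag.TU
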