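import Pool.Agent.Lib.MP_557161_ag.TU.UDefs

/-!
Descent of vanishing ideals to the prime field.
-/

namespace Pool.Agent.Lib.MP_557161_ag.DL

open MvPolynomial

variable {K : Type} [Field K] {p : ℕ} [Fact p.Prime] [CharP K p]

namespace UDesc

omit [Fact p.Prime] [CharP K p] in
lemma per_mul {x : K} {m : ℕ} (h : x ^ p ^ m = x) (j : ℕ) : x ^ p ^ (m * j) = x := by
  induction j with
  | zero => simp
  | succ j ih => rw [Nat.mul_succ, pow_add, pow_mul, ih, h]

omit [Fact p.Prime] [CharP K p] in
lemma common (hK : ∀ x : K, ∃ m, 0 < m ∧ x ^ p ^ m = x) {σ : Type} [Finite σ] (x : σ → K) :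
    ∃ M, 0 < M ∧ ∀ i, x i ^ p ^ M = x i := by
  classical
  have := Fintype.ofFinite σ
  choose m hm hx using fun i => hK (x i)
  refine ⟨∏ i, m i, Finset.prod_pos fun i _ => hm i, fun i => ?_⟩
  obtain ⟨j, hj⟩ := Finset.dvd_prod_of_mem m (Finset.mem_univ i)
  rw [hj]
  exact per_mul (hx i) j

omit [Fact p.Prime] [CharP K p] in
lemma iter {σ : Type} {S : Set (σ → K)} (hS : ∀ x ∈ S, (fun i => x i ^ p) ∈ S) {x : σ → K}
    (hx : x ∈ S) (j : ℕ) : (fun i => x i ^ p ^ j) ∈ S := by
  induction j with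
  | zero => simpa using hx
  | succ j ih =>
    have := hS _ ih
    simpa only [← pow_mul, ← pow_succ] using this

lemma stable (hK : ∀ x : K, ∃ m, 0 < m ∧ x ^ p ^ m = x) {σ : Type} [Finite σ] {S : Set (σ → K)}
    (hS : ∀ x ∈ S, (fun i => x i ^ p) ∈ S) {f : MvPolynomial σ K}
    (hf : f ∈ vanishingIdeal K S) : MvPolynomial.map (frobenius K p) f ∈ vanishingIdeal K S := by
  rw [mem_vanishingIdeal_iff] at hf ⊢
  intro x hx
  obtain ⟨M, hM, hxM⟩ := common hK x
  obtain ⟨M, rfl⟩ : ∃ N, M = N + 1 := ⟨M - 1, by omega⟩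
  have hy := hf _ (iter hS hx M)
  have e : x = (frobenius K p) ∘ fun i => x i ^ p ^ M := by
    funext i
    simp only [Function.comp_apply, frobenius_def, ← pow_mul, ← pow_succ, hxM]
  rw [aeval_eq_eval] at hy ⊢
  have h2 := eval₂_comp_left (frobenius K p) (RingHom.id K) (fun i => x i ^ p ^ M) f
  rw [← e, RingHom.comp_id] at h2
  rw [eval_map, ← h2]
  change frobenius K p (eval _ f) = 0
  rw [hy, map_zero]

lemma exists_rat {σ : Type} {J : Ideal (MvPolynomial σ K)}
    (hJ : ∀ f ∈ J, MvPolynomial.map (frobenius K p) f ∈ J) (N : ℕ) :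
    ∀ f ∈ J, f ≠ 0 → f.support.card ≤ N →
      ∃ g ∈ J, g ≠ 0 ∧ g.support ⊆ f.support ∧ MvPolynomial.map (frobenius K p) g = g := by
  classical
  induction N with
  | zero =>
    intro f _ hf0 hc
    exact absurd (support_eq_empty.1 (Finset.card_eq_zero.1 (Nat.le_zero.1 hc))) hf0
  | succ N ih =>
    intro f hf hf0 hc
    obtain ⟨m, hm⟩ := Finset.nonempty_iff_ne_empty.2 (mt support_eq_empty.1 hf0)
    have hm0 : coeff m f ≠ 0 := mem_support_iff.1 hm
    set g : MvPolynomial σ K := C (coeff m f)⁻¹ * f with hg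
    have hgJ : g ∈ J := J.mul_mem_left _ hf
    have hgm : coeff m g = 1 := by rw [hg, coeff_C_mul, inv_mul_cancel₀ hm0]
    have hgs : g.support ⊆ f.support := by
      intro a ha
      rw [mem_support_iff] at ha ⊢
      intro h
      apply ha
      rw [hg, coeff_C_mul, h, mul_zero]
    by_cases h : MvPolynomial.map (frobenius K p) g = g
    · refine ⟨g, hgJ, fun h0 => ?_, hgs, h⟩
      rw [h0, coeff_zero] at hgm
      exact zero_ne_one hgm
    · have hs : (MvPolynomial.map (frobenius K p) g - g).support ⊆ f.support.erase m := by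
        intro a ha
        rw [mem_support_iff, coeff_sub, coeff_map] at ha
        refine Finset.mem_erase.2 ⟨?_, hgs (mem_support_iff.2 fun h0 => ha ?_)⟩
        · rintro rfl
          apply ha
          rw [hgm, map_one, sub_self]
        · rw [h0, map_zero, sub_self]
      obtain ⟨g', h1, h2, h3, h4⟩ := ih _ (J.sub_mem (hJ g hgJ) hgJ) (sub_ne_zero.2 h) (by
        have := Finset.card_le_card hs
        rw [Finset.card_erase_of_mem hm] at this
        omega)
      exact ⟨g', h1, h2, h3.trans (hs.trans (Finset.erase_subset _ _)), h4⟩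

lemma lifts {σ : Type} {g : MvPolynomial σ K} (h : MvPolynomial.map (frobenius K p) g = g) :
    ∃ g₀ : MvPolynomial σ (ZMod p), MvPolynomial.map (ZMod.castHom (dvd_refl p) K) g₀ = g := by
  refine mem_range_map_iff_coeffs_subset.2 fun c hc => ?_
  obtain ⟨m, -, rfl⟩ := mem_coeffs_iff.1 (Finset.mem_coe.1 hc)
  have e : coeff m g ^ p = coeff m g := by
    have := congrArg (coeff m) h
    rwa [coeff_map, frobenius_def] at this
  have := (Subfield.mem_bot_iff_pow_eq_self K p).2 e
  rw [← ZMod.fieldRange_castHom_eq_bot p] at this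
  exact this

lemma span_rat {σ : Type} {J : Ideal (MvPolynomial σ K)}
    (hJ : ∀ f ∈ J, MvPolynomial.map (frobenius K p) f ∈ J) (N : ℕ) :
    ∀ f ∈ J, f.support.card ≤ N → f ∈ Ideal.span (MvPolynomial.map (ZMod.castHom (dvd_refl p) K) ''
      {g | MvPolynomial.map (ZMod.castHom (dvd_refl p) K) g ∈ J}) := by
  classical
  induction N with
  | zero =>
    intro f _ hc
    rw [support_eq_empty.1 (Finset.card_eq_zero.1 (Nat.le_zero.1 hc))]
    exact Ideal.zero_mem _
  | succ N ih =>
    intro f hf hc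
    by_cases hf0 : f = 0
    · rw [hf0]; exact Ideal.zero_mem _
    obtain ⟨g, hgJ, hg0, hgs, hg⟩ := exists_rat hJ _ f hf hf0 le_rfl
    obtain ⟨g₀, rfl⟩ := lifts hg
    set g := MvPolynomial.map (ZMod.castHom (dvd_refl p) K) g₀ with hgdef
    obtain ⟨m, hm⟩ := Finset.nonempty_iff_ne_empty.2 (mt support_eq_empty.1 hg0)
    have hm0 : coeff m g ≠ 0 := mem_support_iff.1 hm
    have hs : (f - C (coeff m f / coeff m g) * g).support ⊆ f.support.erase m := by
      intro a ha
      rw [mem_support_iff, coeff_sub, coeff_C_mul] at ha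
      refine Finset.mem_erase.2 ⟨?_, mem_support_iff.2 fun h0 => ha ?_⟩
      · rintro rfl
        apply ha
        rw [div_mul_cancel₀ _ hm0, sub_self]
      · have : coeff a g = 0 := by
          by_contra h1
          exact mem_support_iff.1 (hgs (mem_support_iff.2 h1)) h0
        rw [h0, this, mul_zero, sub_self]
    have h1 := ih _ (J.sub_mem hf (J.mul_mem_left (C (coeff m f / coeff m g)) hgJ)) (by
      have := Finset.card_le_card hs
      rw [Finset.card_erase_of_mem (hgs hm)] at this
      omega)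
    have h2 : g ∈ Ideal.span (MvPolynomial.map (ZMod.castHom (dvd_refl p) K) ''
        {g | MvPolynomial.map (ZMod.castHom (dvd_refl p) K) g ∈ J}) :=
      Ideal.subset_span ⟨g₀, hgJ, rfl⟩
    have := Ideal.add_mem _ h1 (Ideal.mul_mem_left _ (C (coeff m f / coeff m g)) h2)
    rwa [sub_add_cancel] at this

lemma frob_surj (hK : ∀ x : K, ∃ m, 0 < m ∧ x ^ p ^ m = x) :
    Function.Surjective (frobenius K p) := by
  intro x
  obtain ⟨m, hm, hx⟩ := hK x
  obtain ⟨m, rfl⟩ : ∃ N, m = N + 1 := ⟨m - 1, by omega⟩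
  exact ⟨x ^ p ^ m, by rw [frobenius_def, ← pow_mul, ← pow_succ, hx]⟩

section Semi

variable {ι : Type} (φ : K ≃+* K)

/-- The image of a subspace under a field automorphism. -/
def im (E : Submodule K (ι → K)) : Submodule K (ι → K) where
  carrier := {x | (fun r => φ.symm (x r)) ∈ E}
  zero_mem' := by
    have : (fun r : ι => φ.symm ((0 : ι → K) r)) = 0 := by funext r; simp
    change (fun r : ι => φ.symm ((0 : ι → K) r)) ∈ E
    rw [this]; exact E.zero_mem
  add_mem' := by
    intro a b ha hb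
    have : (fun r => φ.symm ((a + b) r)) = (fun r => φ.symm (a r)) + fun r => φ.symm (b r) := by
      funext r; simp
    change (fun r => φ.symm ((a + b) r)) ∈ E
    rw [this]; exact E.add_mem ha hb
  smul_mem' := by
    intro c a ha
    have : (fun r => φ.symm ((c • a) r)) = φ.symm c • fun r => φ.symm (a r) := by
      funext r; simp
    change (fun r => φ.symm ((c • a) r)) ∈ E
    rw [this]; exact E.smul_mem _ ha

omit [Fact p.Prime] [CharP K p] in
lemma mem_im {E : Submodule K (ι → K)} {x : ι → K} :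
    x ∈ im φ E ↔ (fun r => φ.symm (x r)) ∈ E := Iff.rfl

lemma im_span {κ : Type} (b : κ → ι → K) :
    Submodule.span K (Set.range fun a r => φ (b a r)) = im φ (Submodule.span K (Set.range b)) := by
  apply le_antisymm
  · refine Submodule.span_le.2 ?_
    rintro _ ⟨a, rfl⟩
    refine (mem_im φ).2 (Submodule.subset_span ⟨a, ?_⟩)
    funext r; simp
  · intro x hx
    have h : Submodule.span K (Set.range b) ≤
        im φ.symm (Submodule.span K (Set.range fun a r => φ (b a r))) := by
      refine Submodule.span_le.2 ?_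
      rintro _ ⟨a, rfl⟩
      exact (mem_im φ.symm).2 (Submodule.subset_span ⟨a, rfl⟩)
    have := (mem_im φ.symm).1 (h ((mem_im φ).1 hx))
    simpa using this

lemma finrank_im (E : Submodule K (ι → K)) :
    Module.finrank K (im φ E) = Module.finrank K E := by
  let j : im φ E ≃+ E :=
    { toFun := fun x => ⟨fun r => φ.symm (x.1 r), x.2⟩
      invFun := fun x => ⟨fun r => φ (x.1 r), (mem_im φ).2 (by simp)⟩
      left_inv := fun x => by ext r; simp
      right_inv := fun x => by ext r; simp
      map_add' := fun x y => by ext r; simp }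
  have := rank_eq_of_equiv_equiv (R := K) (R' := K) φ.symm j φ.symm.bijective fun c x => by
    ext r; simp [j]
  simp only [Module.finrank, this]

end Semi

end UDesc

open UDesc

theorem desc (hK : ∀ x : K, ∃ m, 0 < m ∧ x ^ p ^ m = x) {σ : Type} [Finite σ] {S : Set (σ → K)}
    (hS : ∀ x ∈ S, (fun i => x i ^ p) ∈ S) : ∃ G : Set (MvPolynomial σ (ZMod p)),
      vanishingIdeal K S = Ideal.span (MvPolynomial.map (ZMod.castHom (dvd_refl p) K) '' G) := by
  refine ⟨{g | MvPolynomial.map (ZMod.castHom (dvd_refl p) K) g ∈ vanishingIdeal K S},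
    le_antisymm (fun f hf => span_rat (fun f hf => stable hK hS hf) _ f hf le_rfl) ?_⟩
  refine Ideal.span_le.2 ?_
  rintro _ ⟨g, hg, rfl⟩
  exact hg

theorem coneU_frob (hK : ∀ x : K, ∃ m, 0 < m ∧ x ^ p ^ m = x) (q : ℕ) {n l : ℕ}
    (w : Fin l → Fin n) :
    ∀ x ∈ coneU K q w, (fun i => x i ^ p) ∈ coneU K q w := by
  rintro _ ⟨c, b, ⟨h1, h2, h3⟩, rfl⟩
  let φ : K ≃+* K := RingEquiv.ofBijective (frobenius K p)
    ⟨(frobenius K p).injective, frob_surj hK⟩
  have hφ : ∀ x, φ x = x ^ p := fun x => rfl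
  refine ⟨φ c, fun j i a r => φ (b j i a r), ?_, ?_⟩
  · simp only [im_span]
    refine ⟨fun j => ⟨fun i i' h x hx => (h1 j).1 h hx, fun i => ?_⟩, fun j i hi => ?_,
      fun i i' hi x hx y hy => ?_⟩
    · rw [finrank_im]; exact (h1 j).2 i
    · exact congrArg (im φ) (h2 j i hi)
    · have := congrArg φ (h3 i i' hi _ hx _ hy)
      simpa [map_sum] using this
  · funext s
    rw [← hφ]
    simp only [Pi.smul_apply, smul_eq_mul, map_mul, plk, map_prod]
    congr 1
    refine Finset.prod_congr rfl fun j _ => Finset.prod_congr rfl fun i _ => ?_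
    exact φ.toRingHom.map_det _

theorem map_vanishing {k : Type} [Field k] [Algebra k K]
    (hK : ∀ x : K, ∃ m, 0 < m ∧ x ^ p ^ m = x) {σ : Type} [Finite σ] {S : Set (σ → K)}
    (hS : ∀ x ∈ S, (fun i => x i ^ p) ∈ S) :
    (vanishingIdeal k S).map (MvPolynomial.map (algebraMap k K)) = vanishingIdeal K S := by
  have : CharP k p := (Algebra.charP_iff k K p).2 inferInstance
  apply le_antisymm
  · refine Ideal.map_le_iff_le_comap.2 fun f hf => ?_
    rw [Ideal.mem_comap, mem_vanishingIdeal_iff]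
    intro x hx
    rw [aeval_map_algebraMap]
    exact mem_vanishingIdeal_iff.1 hf x hx
  · intro f hf
    refine Ideal.span_le.2 ?_ (span_rat (fun f hf => stable hK hS hf) _ f hf le_rfl)
    rintro _ ⟨g, hg, rfl⟩
    have e : MvPolynomial.map (ZMod.castHom (dvd_refl p) K) g =
        MvPolynomial.map (algebraMap k K) (MvPolynomial.map (ZMod.castHom (dvd_refl p) k) g) := by
      rw [map_map]
      exact congrArg (fun h => MvPolynomial.map h g) (Subsingleton.elim _ _)
    rw [e]
    refine Ideal.mem_map_of_mem _ (mem_vanishingIdeal_iff.2 fun x hx => ?_)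
    have := mem_vanishingIdeal_iff.1 hg x hx
    rwa [e, aeval_map_algebraMap] at this

end Pool.Agent.Lib.MP_557161_ag.DL
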