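import Pool.Agent.Lib.MP_557161_ag.TU.UModelA

/-!
The points of a chart of the unitary model with values in a field are the points of the cone with
coordinate one.
-/

namespace Pool.Agent.Lib.MP_557161_ag.DL.UModel

open Matrix Model ModelD

variable {L : Type} [Field L] {α β : Type} {n l q : ℕ} {w : Fin l → Fin n}

theorem orth_iff {ι : Type} [Fintype ι] {A : Matrix α ι L} {A' : Matrix β ι L} :
    A * A'ᵀ = 0 ↔ ∀ x ∈ rs A, ∀ y ∈ rs A', x ⬝ᵥ y = 0 := by
  have e : ∀ a b, (A * A'ᵀ) a b = A.row a ⬝ᵥ A'.row b := fun a b => rfl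
  refine ⟨fun h x hx y hy => ?_, fun h => Matrix.ext fun a b => (e a b).trans
    (h _ (Submodule.subset_span ⟨a, rfl⟩) _ (Submodule.subset_span ⟨b, rfl⟩))⟩
  induction hx using Submodule.span_induction with
  | mem x hx =>
    obtain ⟨a, rfl⟩ := hx
    induction hy using Submodule.span_induction with
    | mem y hy =>
      obtain ⟨b, rfl⟩ := hy
      rw [← e, h, Matrix.zero_apply]
    | zero => simp
    | add u v _ _ hu hv => rw [dotProduct_add, hu, hv, add_zero]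
    | smul c v _ hv => rw [dotProduct_smul, hv, smul_zero]
  | zero => simp
  | add u v _ _ hu hv => rw [add_dotProduct, hu, hv, add_zero]
  | smul c v _ hv => rw [smul_dotProduct, hv, smul_zero]

theorem orth_pow_iff {ι : Type} [Fintype ι] (hq : ∀ a b : L, (a + b) ^ q = a ^ q + b ^ q)
    (hq0 : q ≠ 0) {A : Matrix α ι L} {A' : Matrix β ι L} :
    A * (A'.map (· ^ q))ᵀ = 0 ↔ ∀ x ∈ rs A, ∀ y ∈ rs A', ∑ r, x r * y r ^ q = 0 := by
  refine ⟨fun h x hx y hy => ?_, fun h => Matrix.ext fun a b =>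
    h _ (Submodule.subset_span ⟨a, rfl⟩) _ (Submodule.subset_span ⟨b, rfl⟩)⟩
  refine orth_iff.1 h x hx (fun r => y r ^ q) ?_
  rw [← frob_rs hq hq0]
  exact Submodule.subset_span ⟨y, hy, rfl⟩

theorem isPtU_iff (hq : ∀ a b : L, (a + b) ^ q = a ^ q + b ^ q) (hq0 : q ≠ 0)
    {s : Idx (Fin (n + 1)) n l} {M : Fin (l + 1) → Fl (Fin (n + 1)) n L}
    (h : ∀ j i, cols (M j i) (s j i) = 1) :
    IsPtU q w s M ↔ IsChainU q w fun j i => rs (M j i) := by
  constructor
  · intro hp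
    exact ⟨fun j => ⟨fun i i' hi => sub_iff.1 ((hp.fl j).mono i i' hi).sub,
      fun i => rank_norm (h j i)⟩, fun j i hi =>
      le_antisymm (sub_iff.1 (hp.adj j i hi).sub) (sub_iff.1 ((hp.adj j i hi).sub.symm (h _ _))),
      fun i i' hi => (orth_pow_iff hq hq0).1 (hp.orth i i' hi)⟩
  · rintro ⟨h1, h2, h3⟩
    exact ⟨fun j => isFl_mk (h j) fun i i' hi => sub_iff.2 ((h1 j).1 hi),
      fun j i hi => (sub_iff.2 (h2 j i hi).le).inc (h _ _),
      fun i i' hi => (orth_pow_iff hq hq0).2 (h3 i i' hi)⟩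

theorem cone_smulU (c : L) {x : Idx (Fin (n + 1)) n l → L} (hx : x ∈ coneU L q w) :
    c • x ∈ coneU L q w := by
  obtain ⟨c', b, hb, rfl⟩ := hx
  exact ⟨c * c', b, hb, smul_smul _ _ _⟩

theorem goodU_iff (hq : ∀ a b : L, (a + b) ^ q = a ^ q + b ^ q) (hq0 : q ≠ 0)
    (s : Idx (Fin (n + 1)) n l) (x : Idx (Fin (n + 1)) n l → L) :
    GoodU q w s x ↔ x ∈ coneU L q w ∧ x s = 1 := by
  constructor
  · rintro ⟨hp, hx⟩
    have h : ∀ j i, cols (mat s x j i) (s j i) = 1 := fun j => (hp.fl j).norm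
    refine ⟨⟨1, mat s x, (isPtU_iff hq hq0 h).1 hp, hx.trans (one_smul _ _).symm⟩, ?_⟩
    rw [hx]
    simp only [plk', h, det_one, Finset.prod_const_one]
  · rintro ⟨⟨c, b, hb, rfl⟩, h1⟩
    obtain ⟨A, hA⟩ : ∃ A : Fin (l + 1) → Fl (Fin (n + 1)) n L,
      A = fun j i => Matrix.of (b j i) := ⟨_, rfl⟩
    have hb' : IsChainU q w fun j i => rs (A j i) := hA ▸ hb
    have e0 : plk b = plk' A := by rw [hA]; rfl
    rw [e0] at h1 ⊢
    have h2 : c * ∏ j, ∏ i, (cols (A j i) (s j i)).det = 1 := h1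
    have hu : ∀ j i, IsUnit (cols (A j i) (s j i)).det := fun j i => isUnit_iff_ne_zero.2
      (Finset.prod_ne_zero_iff.1 (Finset.prod_ne_zero_iff.1 (right_ne_zero_of_mul_eq_one h2) j
        (Finset.mem_univ j)) i (Finset.mem_univ i))
    obtain ⟨M, hM⟩ : ∃ M : Fin (l + 1) → Fl (Fin (n + 1)) n L,
      ∀ j i, M j i = (cols (A j i) (s j i))⁻¹ * A j i := ⟨_, fun _ _ => rfl⟩
    have h : ∀ j i, cols (M j i) (s j i) = 1 := fun j i => by
      rw [hM, cols_mul, nonsing_inv_mul _ (hu j i)]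
    have e1 : c • plk' A = plk' M := by
      funext t
      simp only [plk', hM, cols_mul, det_mul, det_nonsing_inv, Ring.inverse_eq_inv',
        Finset.prod_mul_distrib, Finset.prod_inv_distrib, Pi.smul_apply, smul_eq_mul]
      rw [eq_inv_of_mul_eq_one_left h2]
    have e2 : (fun j i => rs (M j i)) = fun j i => rs (A j i) := by
      funext j i
      refine le_antisymm (sub_iff.1 ⟨_, hM j i⟩) (sub_iff.1 ⟨cols (A j i) (s j i), ?_⟩)
      rw [hM, ← Matrix.mul_assoc, mul_nonsing_inv _ (hu j i), Matrix.one_mul]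
    rw [e1, GoodU, mat_plk h]
    exact ⟨(isPtU_iff hq hq0 h).2 (e2 ▸ hb'), rfl⟩

theorem cone_nonemptyU (h : (coneU L q w).Nonempty) : ∃ s, ∃ x ∈ coneU L q w, x s = 1 := by
  obtain ⟨_, c, b, hb, rfl⟩ := h
  choose s hs using fun j i => exists_minor (A := Matrix.of (b j i)) ((hb.1 j).2 i)
  refine ⟨s, _, ⟨(plk b s)⁻¹, b, hb, rfl⟩, inv_mul_cancel₀ ?_⟩
  exact Finset.prod_ne_zero_iff.2 fun j _ => Finset.prod_ne_zero_iff.2 fun i _ => hs j i

end Pool.Agent.Lib.MP_557161_ag.DL.UModel
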