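import Pool.Agent.Lib.MP_557161_ag.TU.UDefs
import Pool.Agent.Lib.MP_557161_ag.DL.Model
import Pool.Agent.Lib.MP_557161_ag.TU.UModelB

/-!
The projective model of the unitary Deligne-Lusztig variety: homogeneous, smooth, of pure
dimension `l`, and its points over any algebraically closed field are the chains.
-/

namespace Pool.Agent.Lib.MP_557161_ag.DL

open MvPolynomial

namespace UModel

open Model

variable {k : Type} [Field k] {q n l : ℕ}

variable (k) in
/-- The ideal of the chart, cut out by the matrix equations. -/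
noncomputable def cU (q : ℕ) (w : Fin l → Fin n) (s : Idx (Fin (n + 1)) n l) :
    Ideal (MvPolynomial (Idx (Fin (n + 1)) n l) k) :=
  sInf {J | GoodU q w s fun t => Ideal.Quotient.mk J (X t)}

lemma mem_iff_good (w : Fin l → Fin n) (s : Idx (Fin (n + 1)) n l) {B : Type} [CommRing B]
    [Algebra k B] (x : Idx (Fin (n + 1)) n l → B) :
    (∀ f ∈ cU k q w s, aeval x f = 0) ↔ GoodU q w s x := by
  constructor
  · intro h
    have h0 : GoodU q w s fun t => Ideal.Quotient.mk (cU k q w s) (X t) := by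
      refine GoodU.of_maps (τ := {J : Ideal (MvPolynomial (Idx (Fin (n + 1)) n l) k) |
        GoodU q w s fun t => Ideal.Quotient.mk J (X t)})
        (fun J => Ideal.Quotient.factor (sInf_le J.2)) (fun x y e => ?_) fun J => J.2
      obtain ⟨x, rfl⟩ := Ideal.Quotient.mk_surjective x
      obtain ⟨y, rfl⟩ := Ideal.Quotient.mk_surjective y
      exact Ideal.Quotient.eq.2 (Submodule.mem_sInf.2 fun J hJ => Ideal.Quotient.eq.1 (e ⟨J, hJ⟩))
    have h1 := h0.map (Ideal.Quotient.liftₐ _ (aeval x) h).toRingHom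
    have e2 : ((Ideal.Quotient.liftₐ _ (aeval x) h).toRingHom ∘
        fun t => Ideal.Quotient.mk (cU k q w s) (X t)) = x := funext fun t => aeval_X x t
    rwa [e2] at h1
  · intro h f hf
    refine Submodule.mem_sInf.1 hf (RingHom.ker (aeval x : _ →ₐ[k] B)) ?_
    refine GoodU.of_maps (τ := Unit) (fun _ => (Ideal.kerLiftAlg (aeval x : _ →ₐ[k] B)).toRingHom)
      (fun a b e => Ideal.kerLiftAlg_injective _ (e ())) fun _ => ?_
    have e2 : ((Ideal.kerLiftAlg (aeval x : _ →ₐ[k] B)).toRingHom ∘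
        fun t => Ideal.Quotient.mk (RingHom.ker (aeval x : _ →ₐ[k] B)) (X t)) = x :=
      funext fun t => aeval_X x t
    rwa [e2]

lemma good_hom {w : Fin l → Fin n} {s : Idx (Fin (n + 1)) n l} {B : Type} [CommRing B]
    [Algebra k B] (g : (MvPolynomial (Idx (Fin (n + 1)) n l) k ⧸ cU k q w s) →ₐ[k] B) :
    GoodU q w s fun t => g (Ideal.Quotient.mk _ (X t)) := by
  refine (mem_iff_good (k := k) w s _).1 fun f hf => ?_
  have e : (aeval fun t => g (Ideal.Quotient.mk _ (X t))) = g.comp (Ideal.Quotient.mkₐ k _) :=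
    MvPolynomial.algHom_ext fun t => aeval_X _ t
  rw [e, AlgHom.comp_apply, Ideal.Quotient.mkₐ_eq_mk, Ideal.Quotient.eq_zero_iff_mem.2 hf, map_zero]

lemma exists_hom {w : Fin l → Fin n} {s : Idx (Fin (n + 1)) n l} {B : Type} [CommRing B]
    [Algebra k B] {M : Fin (l + 1) → Fl (Fin (n + 1)) n B} (h : IsPtU q w s M) :
    ∃ g : (MvPolynomial (Idx (Fin (n + 1)) n l) k ⧸ cU k q w s) →ₐ[k] B,
      ∀ t, g (Ideal.Quotient.mk _ (X t)) = plk' M t := by
  have e := mat_plk fun j => (h.fl j).norm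
  exact ⟨Ideal.Quotient.liftₐ _ (aeval (plk' M)) ((mem_iff_good w s _).2
    ⟨e.symm ▸ h, by rw [e]⟩), fun t => aeval_X _ t⟩

variable (k q) in
/-- The number `q` is a positive power of the characteristic. -/
structure Pw : Prop where
  two : 2 ≤ q
  frob : ∀ (B : Type) [CommRing B] [Algebra k B], ∃ F : B →+* B, ∀ x, F x = x ^ q

lemma pw {p e : ℕ} [hp : Fact p.Prime] [CharP k p] (he : 0 < e) : Pw k (p ^ e) := by
  refine ⟨hp.out.two_le.trans (Nat.le_self_pow he.ne' p), fun B _ _ => ?_⟩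
  rcases subsingleton_or_nontrivial B with _ | _
  · exact ⟨RingHom.id B, fun _ => Subsingleton.elim _ _⟩
  · have := charP_of_injective_algebraMap (algebraMap k B).injective p
    exact ⟨iterateFrobenius B p e, fun x => iterateFrobenius_def p e x⟩

variable (hq : Pw k q)
include hq

lemma zero_cU (B : Type) [Field B] [Algebra k B] (w : Fin l → Fin n)
    (s : Idx (Fin (n + 1)) n l) : zeroLocus B (cU k q w s) = {x ∈ coneU B q w | x s = 1} := by
  obtain ⟨F, hF⟩ := hq.frob B
  ext x
  exact (mem_iff_good w s x).trans (goodU_iff (fun a b => by rw [← hF, ← hF, ← hF, map_add])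
    (by have := hq.two; omega) s x)

lemma smooth_cU (w : Fin l → Fin n) (s : Idx (Fin (n + 1)) n l) :
    Algebra.Smooth k (MvPolynomial (Idx (Fin (n + 1)) n l) k ⧸ cU k q w s) := by
  refine ⟨.of_comp_surjective fun B _ _ J hJ g => ?_,
    Algebra.FinitePresentation.of_finiteType.1 inferInstance⟩
  obtain ⟨F, hF⟩ := hq.frob B
  have h : SqZ (Ideal.Quotient.mk J) := ⟨Ideal.Quotient.mk_surjective, fun a b ha hb => by
    have := Ideal.mul_mem_mul (Ideal.Quotient.eq_zero_iff_mem.1 ha)
      (Ideal.Quotient.eq_zero_iff_mem.1 hb)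
    rwa [← pow_two, hJ] at this⟩
  have hg := good_hom g
  obtain ⟨M, m1, m2⟩ := pt_liftU h (Fintype.card_fin _) hq.two F hF hg.1
  obtain ⟨g', hg'⟩ := exists_hom (k := k) m1
  refine ⟨g', hom_ext fun t => ?_⟩
  show Ideal.Quotient.mk J (g' _) = _
  rw [hg', congrFun hg.2 t, ← funext₂ m2, plk'_map]
  rfl

lemma cU_eq (w : Fin l → Fin n) (s : Idx (Fin (n + 1)) n l) :
    idealU k q w ⊔ Ideal.span {X s - 1} = cU k q w s := by
  have := smooth_cU hq w s
  have h := (Ideal.isRadical_iff_quotient_reduced _).2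
    (smooth_reduced k (MvPolynomial (Idx (Fin (n + 1)) n l) k ⧸ cU k q w s))
  rw [← h.radical, ← vanishingIdeal_zeroLocus_eq_radical (K := AlgebraicClosure k), zero_cU hq,
    vanishing_chart fun c x hx => cone_smulU c hx]
  rfl

lemma card_lifts (w : Fin l → Fin n) (s : Idx (Fin (n + 1)) n l) (L : Type)
    [Field L] [Finite L] [Algebra k L]
    (x : (MvPolynomial (Idx (Fin (n + 1)) n l) k ⧸ cU k q w s) →ₐ[k] L) :
    Nat.card {g : (MvPolynomial (Idx (Fin (n + 1)) n l) k ⧸ cU k q w s) →ₐ[k] DualNumber L //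
      ∀ r, (g r).fst = x r} = Nat.card L ^ l := by
  have : Finite (DualNumber L) := inferInstanceAs (Finite (L × L))
  obtain ⟨F, hF⟩ := hq.frob (DualNumber L)
  have hx := good_hom x
  have h := pt_cardU sqz_fs (Fintype.card_fin _) hq.two F hF hx.1 _
    fun j M' hM' adj => step_cardU (Fintype.card_fin _) (hx.1.fl _) hM' (w j) adj
  rw [card_sub (p := fun g => ∀ r, (g r).fst = x r)
    (fun g : (MvPolynomial (Idx (Fin (n + 1)) n l) k ⧸ cU k q w s) →ₐ[k] DualNumber L =>
      mat s fun t => g (Ideal.Quotient.mk _ (X t)))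
    (fun g hg => ⟨(good_hom g).1, fun j i => Matrix.ext fun a c => hg _⟩)
    (fun g g' e => hom_ext fun t => by
      rw [congrFun (good_hom g).2 t, congrFun (good_hom g').2 t, e])] at h
  · exact h
  · rintro M ⟨m1, m2⟩
    obtain ⟨g, hg⟩ := exists_hom (k := k) m1
    refine ⟨g, fun r => ?_, by rw [funext hg, mat_plk fun j => (m1.fl j).norm]⟩
    have : (TrivSqZeroExt.fstHom k L L).comp g = x := hom_ext fun t => by
      show fs L (g _) = _
      rw [hg, congrFun hx.2 t, ← funext₂ m2, plk'_map]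
      rfl
    exact DFunLike.congr_fun this r

lemma cU_ne_top (B : Type) [Field B] [Algebra k B] {w : Fin l → Fin n}
    (h : (coneU B q w).Nonempty) : ∃ s, cU k q w s ≠ ⊤ := by
  obtain ⟨s, x, h1, h2⟩ := cone_nonemptyU h
  refine ⟨s, fun e => ?_⟩
  have : x ∈ zeroLocus B (cU k q w s) := by rw [zero_cU hq]; exact ⟨h1, h2⟩
  rw [e, zeroLocus_top] at this
  exact this

lemma zero_mem (B : Type) [Field B] [Algebra k B] (L : Type) [Field L] [IsAlgClosed L]
    [Algebra k L] {w : Fin l → Fin n} (h : (coneU B q w).Nonempty) : 0 ∈ coneU L q w := by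
  obtain ⟨s, hs⟩ := cU_ne_top hq B h
  rcases (zeroLocus L (cU k q w s)).eq_empty_or_nonempty with e | ⟨x, hx⟩
  · refine absurd (Ideal.radical_eq_top.1 ?_) hs
    rw [← vanishingIdeal_zeroLocus_eq_radical (K := L), e, vanishingIdeal_empty]
  · rw [zero_cU hq] at hx
    simpa using cone_smulU 0 hx.1

omit hq in
lemma cone_ne {w : Fin l → Fin n} (h : idealU k q w ≠ ⊤) :
    (coneU (AlgebraicClosure k) q w).Nonempty :=
  Set.nonempty_iff_ne_empty.2 fun e => h (by rw [idealU, e, vanishingIdeal_empty])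

omit hq in
lemma homog (w : Fin l → Fin n) : Homog (idealU k q w) :=
  homog_vanishing fun c _ hx => cone_smulU c hx

lemma points' (w : Fin l → Fin n) (L : Type) [Field L] [IsAlgClosed L] [Algebra k L] :
    zeroLocus L (idealU k q w) = coneU L q w := by
  have key : ∀ (x : Idx (Fin (n + 1)) n l → L) s, x s = 1 →
      (x ∈ zeroLocus L (idealU k q w) ↔ x ∈ coneU L q w) := by
    intro x s hs
    have e := Set.ext_iff.1 (zero_cU hq L w s) x
    rw [← cU_eq hq] at e
    refine ⟨fun h => (e.1 fun f hf => ?_).1, fun h f hf => e.2 ⟨h, hs⟩ f (Ideal.mem_sup_left hf)⟩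
    refine (sup_le (fun f hf => h f hf) ((Ideal.span_singleton_le_iff_mem _).2 ?_) :
      _ ≤ RingHom.ker (aeval x : _ →ₐ[k] L)) hf
    simp [RingHom.mem_ker, hs]
  ext x
  by_cases hx : x = 0
  · subst hx
    refine ⟨fun h => zero_mem hq _ L (cone_ne (k := k) fun e => ?_), fun h f hf => ?_⟩
    · rw [e, zeroLocus_top] at h
      exact h
    · have h0 := hf 0 (zero_mem hq L (AlgebraicClosure k) ⟨0, h⟩)
      rw [aeval_zero, map_eq_zero] at h0
      rw [aeval_zero, h0, map_zero]
  · obtain ⟨s, hs⟩ := Function.ne_iff.1 hx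
    have hs' : x s ≠ 0 := hs
    have e : x s • (x s)⁻¹ • x = x := smul_inv_smul₀ hs' x
    have h1 := key ((x s)⁻¹ • x) s (inv_mul_cancel₀ hs')
    exact ⟨fun h => e ▸ cone_smulU _ (h1.1 (homog_smul_mem (homog w) h _)),
      fun h => e ▸ homog_smul_mem (homog w) (h1.2 (cone_smulU _ h)) _⟩

lemma dim' [Finite k] (w : Fin l → Fin n) (P : Ideal (MvPolynomial (Idx (Fin (n + 1)) n l) k))
    (hP : P ∈ (idealU k q w).minimalPrimes) :
    ringKrullDim (MvPolynomial (Idx (Fin (n + 1)) n l) k ⧸ P) = (l + 1 : ℕ) := by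
  refine cone_dim (homog w) _ (fun s => ?_) (fun h => ?_) P hP
  · unfold Chart
    rw [cU_eq hq]
    have := smooth_cU hq w s
    exact smooth_trdeg _ fun L _ _ _ => card_lifts hq w s L
  · obtain ⟨s, hs⟩ := cU_ne_top hq _ (cone_ne h)
    exact ⟨s, Ideal.Quotient.nontrivial_iff.2 (by rwa [cU_eq hq])⟩

end UModel

variable {k : Type} [Field k] {p e n l : ℕ} (w : Fin l → Fin n)

theorem coneU_smul {q : ℕ} (c : k) {x : Idx (Fin (n + 1)) n l → k} (hx : x ∈ coneU k q w) :
    c • x ∈ coneU k q w := UModel.cone_smulU c hx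

theorem modelU_homog (q : ℕ) : Homog (idealU k q w) := UModel.homog w

variable [Finite k] [Fact p.Prime] [CharP k p] (he : 0 < e)

include he

set_option linter.unusedSectionVars false in
theorem modelU_smooth (s : Idx (Fin (n + 1)) n l) :
    Algebra.Smooth k (Chart (idealU k (p ^ e) w) s) := by
  unfold Chart
  rw [UModel.cU_eq (UModel.pw he)]
  exact UModel.smooth_cU (UModel.pw he) w s

theorem modelU_dim (P : Ideal (MvPolynomial (Idx (Fin (n + 1)) n l) k))
    (hP : P ∈ (idealU k (p ^ e) w).minimalPrimes) :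
    ringKrullDim (MvPolynomial (Idx (Fin (n + 1)) n l) k ⧸ P) = (l + 1 : ℕ) :=
  UModel.dim' (UModel.pw he) w P hP

set_option linter.unusedSectionVars false in
theorem modelU_points (L : Type) [Field L] [IsAlgClosed L] [Algebra k L] :
    zeroLocus L (idealU k (p ^ e) w) = coneU L (p ^ e) w :=
  UModel.points' (UModel.pw he) w L

end Pool.Agent.Lib.MP_557161_ag.DL
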