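import Pool.Agent.Lib.MP_557161_ag.TU.T1
import Pool.Agent.Lib.MP_557161_ag.TU.GrT
import Pool.Agent.Lib.MP_557161_ag.TU.Br
import Pool.Agent.Lib.MP_557161_ag.TU.UModel
import Pool.Agent.Lib.MP_557161_ag.TU.UDesc
import Pool.Agent.Lib.MP_60ec62_ag.DF.Real
import Pool.Agent.Lib.MP_60ec62_ag.DF.FInduct
import Pool.Agent.Lib.MP_60ec62_ag.DF.FBruhatB
import Pool.Agent.Lib.MP_60ec62_ag.DF.FDem
import Pool.Agent.Lib.MP_60ec62_ag.DF.PDrop

/-!
The decomposition of the graphs of Frobenius on the projective model.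
-/

noncomputable section

namespace Pool.Agent.Lib.MP_557161_ag.TU

open MvPolynomial Pool.Agent.Lib.MP_60ec62_ag.DL
open Pool.Agent.Lib.MP_557161_ag.DL (coneU RatB ProdB Base Sm)

lemma coeff_zero_ne {p : ℕ} [Fact p.Prime] {f : Polynomial ℚ} (h : f ∈ Sp p) : f.coeff 0 ≠ 0 := by
  have hp0 : (p : ℚ) ≠ 0 := by exact_mod_cast (Fact.out : p.Prime).ne_zero
  induction h using Submonoid.closure_induction with
  | mem f hf =>
    obtain ⟨N, hN, r, rfl⟩ := hf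
    rw [Polynomial.coeff_sub, Polynomial.coeff_X_pow, if_neg (by omega), Polynomial.coeff_C_zero,
      zero_sub, neg_ne_zero]
    exact zpow_ne_zero _ hp0
  | one => simp
  | mul f g _ _ hf hg => rw [Polynomial.mul_coeff_zero]; exact mul_ne_zero hf hg

variable {K : Type} [Field K] {p q : ℕ} [Fact p.Prime] [CharP K p] {n l : ℕ}

theorem diagT [IsAlgClosed K] {s : Fin l → ℕ} {ρ : ℕ → ℕ → ℕ} (hp : IsPP p q)
    (H : MGoodG p (m2 (Fin (l + 1)) n)
      (BsetA (Fin (l + 1) ⊕ Fin (l + 1)) n) (sq2 (Dset (K := K) q n s ρ))) :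
    ∃ f ∈ Sp p, ∀ P, Minimal (· ∈ Stm.Sub K n q s ρ) P → ∀ t,
      (f.sum fun j a => a • Finsupp.single (Stm.graph (p ^ (j + t)) P) (1 : ℚ)) ∈
        SmR (m2 (Fin (l + 1)) n) (BsetA (Fin (l + 1) ⊕ Fin (l + 1)) n) (sq2 (Dset q n s ρ)) ⊔
          RatG (BsetA (Fin (l + 1) ⊕ Fin (l + 1)) n) (sq2 (Dset (K := K) q n s ρ)) := by
  classical
  have h1 : ∀ P, Minimal (· ∈ Stm.Sub K n q s ρ) P → ∃ f ∈ Sp p, ∀ k : ℕ,
      (FF p (m2 (Fin (l + 1)) n) ^ k) (Polynomial.aeval (FF p (m2 (Fin (l + 1)) n)) f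
        (Finsupp.single (Stm.graph (p ^ 0) P) (1 : ℚ))) ∈
        SmR (m2 (Fin (l + 1)) n) (BsetA (Fin (l + 1) ⊕ Fin (l + 1)) n) (sq2 (Dset q n s ρ)) ⊔
          RatG (BsetA (Fin (l + 1) ⊕ Fin (l + 1)) n) (sq2 (Dset (K := K) q n s ρ)) := by
    intro P hP
    have h := (mem_Sub₂ _).1 (graph_mem hp hP.prop 0)
    exact H _ h.1 h.2
  choose! f hf hf' using h1
  have hfin := finite_minimal (K := K) (n := n) hp s ρ
  have hprod : ∏ P ∈ hfin.toFinset, f P ∈ Sp p :=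
    prod_mem fun P hP => hf P (hfin.mem_toFinset.1 hP)
  obtain ⟨m, hm⟩ : ∃ m, m = {v : Fin (l + 1) × (Fin n × Fin n) | v.2.1 ≤ v.2.2}.ncard := ⟨_, rfl⟩
  obtain ⟨c, -, hc⟩ := Sp.scale hprod m
  refine ⟨_, hc, fun P hP t => ?_⟩
  have hF : ∀ j, FF p (m2 (Fin (l + 1)) n) (Finsupp.single (Stm.graph (p ^ j) P) (1 : ℚ)) =
      (p : ℚ) ^ m • Finsupp.single (Stm.graph (p ^ (j + 1)) P) (1 : ℚ) :=
    fun j => hm ▸ FF_graph hP.prop.2.1 j
  have hp0 : ((p : ℚ) ^ m) ^ t ≠ 0 :=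
    pow_ne_zero _ (pow_ne_zero _ (by exact_mod_cast (Fact.out : p.Prime).ne_zero))
  have ht : (FF p (m2 (Fin (l + 1)) n) ^ t) (Finsupp.single (Stm.graph (p ^ 0) P) (1 : ℚ)) =
      ((p : ℚ) ^ m) ^ t • Finsupp.single (Stm.graph (p ^ (0 + t)) P) (1 : ℚ) := by
    clear hp0
    induction t with
    | zero => simp
    | succ t ih =>
      rw [pow_succ', Module.End.mul_apply, ih, map_smul, hF, smul_smul, ← pow_succ, add_assoc]
  rw [Polynomial.sum_smul_index' _ _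
    (fun j (a : ℚ) => a • Finsupp.single (Stm.graph (p ^ (j + t)) P) (1 : ℚ)) fun _ => zero_smul _ _]
  simp only [smul_assoc]
  rw [← Polynomial.smul_sum, ← Real.aeval_scale (FF p (m2 (Fin (l + 1)) n))
    (fun j => Finsupp.single (Stm.graph (p ^ (j + t)) P) (1 : ℚ)) _
      (fun j => by rw [hF, Nat.add_right_comm])]
  refine Submodule.smul_mem _ _ ((Submodule.smul_mem_iff _ hp0).1 ?_)
  have e : ∏ P ∈ hfin.toFinset, f P = (∏ P ∈ hfin.toFinset.erase P, f P) * f P :=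
    (Finset.prod_erase_mul _ _ (hfin.mem_toFinset.2 hP)).symm
  rw [← map_smul, ← ht, ← Polynomial.aeval_X_pow (R := ℚ), ← Module.End.mul_apply, ← map_mul, e,
    mul_right_comm, map_mul, Module.End.mul_apply]
  exact aeval_mem_of_pow (hf' P hP) _

theorem decomp [Base K] (hK : Per K p) (hp : IsPP p q) {w : Fin l → Fin n}
    (hcl : zeroLocus K (vanishingIdeal K (coneU K q w)) = coneU K q w)
    (Y : Sm K (Ix n l)) (hY : Y.I = vanishingIdeal K (coneU K q w)) :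
    ∃ f ∈ Sp p, ∀ t, (f.sum fun j a => a • Y.grC (p ^ (j + t))) ∈ RatB Y.I ⊔ ⨆ δ, ProdB Y.I δ := by
  classical
  have : Fact (Per K p) := ⟨hK⟩
  obtain ⟨f, hf, h⟩ := diagT hp (two hK (pas_Dset (fun j => (w j).1 + 1) fun i j => i + j - (n + 1))
    (fun x hx => hx.1.1) (stSet_Dset hp _ _)
    (F.dem (fun ρ' => F.bruhat hp (F.c_all hp (n + 1)) ρ') _ _).drop)
  refine ⟨f, hf, fun t => ?_⟩
  have hfin := finite_minimal (K := K) (n := n + 1) hp (fun j => (w j).1 + 1)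
    fun i j => i + j - (n + 1)
  have e : (f.sum fun j a => a • Y.grC (p ^ (j + t))) = ∑ P ∈ hfin.toFinset, Finsupp.mapDomain Tm
      (f.sum fun j a => a • Finsupp.single (Stm.graph (p ^ (j + t)) P) (1 : ℚ)) := by
    simp only [Polynomial.sum, grC_sum hp hcl Y hY hfin.toFinset (fun P => hfin.mem_toFinset),
      Finset.smul_sum, Finsupp.mapDomain_finsetSum, Finsupp.mapDomain_smul,
      Finsupp.mapDomain_single]
    exact Finset.sum_comm
  rw [e, hY]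
  refine Submodule.sum_mem _ fun P hP => ?_
  obtain ⟨u, hu, v, hv, e'⟩ := Submodule.mem_sup.1 (h P (hfin.mem_toFinset.1 hP) t)
  rw [← e', Finsupp.mapDomain_add]
  exact add_mem (Submodule.mem_sup_right (br_prod hp hcl hu))
    (Submodule.mem_sup_left (br_rat hp hcl hv))

end Pool.Agent.Lib.MP_557161_ag.TU

namespace Pool.Agent.Lib.MP_557161_ag.DL

open MvPolynomial

theorem tateU {k : Type} [Field k] [Finite k] {p e : ℕ} [Fact p.Prime] [CharP k p] (he : 0 < e)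
    {n l : ℕ} (w : Fin l → Fin n) (L : ℕ → Type)
    [∀ m, Field (L m)] [∀ m, Algebra k (L m)] (hL : ∀ m, Module.finrank k (L m) = m + 1) :
    ∃ ζ : ℂ → ℂ, Meromorphic ζ ∧
      (∃ c : ℝ, ∀ s : ℂ, c < s.re → ζ s = Complex.exp (∑' m : ℕ,
        (points (idealU k (p ^ e) w) (L m) : ℂ) * (Nat.card k : ℂ) ^ (-((m + 1 : ℕ) : ℂ) * s) /
          (m + 1 : ℕ))) ∧
      (∀ i j : ℕ, i + j = l → ∀ F : ∀ P : Var (idealU k (p ^ e) w) i, Res (idealU k (p ^ e) w) P.1,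
        ∃ ρ : ℕ, Module.rank ℤ (Num (idealU k (p ^ e) w) i j F) = ρ ∧
          meromorphicOrderAt ζ j = (-(ρ : ℤ) : ℤ)) ∧
      ∀ j : ℕ, l < j → meromorphicOrderAt ζ j = 0 := by
  have hb := T0.fbar k
  rw [ringChar.eq k p] at hb
  have hS := coneU_frob hb.alg (p ^ e) w
  have hI : upI (idealU k (p ^ e) w) = vanishingIdeal _ (coneU (AlgebraicClosure k) (p ^ e) w) :=
    map_vanishing hb.alg hS
  have hcl : zeroLocus (AlgebraicClosure k) (vanishingIdeal (AlgebraicClosure k)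
      (coneU (AlgebraicClosure k) (p ^ e) w)) = coneU (AlgebraicClosure k) (p ^ e) w := by
    rw [← hI, ← modelU_points (k := k) w he]
    exact Set.ext T0.mem_zl_up
  obtain ⟨G, hG⟩ := desc hb.alg hS
  obtain ⟨f, hf, h⟩ := TU.decomp hb.alg ⟨e, he, rfl⟩ hcl
    (T0.sm (AlgebraicClosure k) (modelU_homog w _) (modelU_smooth w he) (modelU_dim w he)) hI
  exact tate' (modelU_homog w _) (modelU_smooth w he) (modelU_dim w he) G (hI.trans hG) f
    (TU.coeff_zero_ne hf) (fun m hm i => MP_60ec62_ag.DL.Sp.coprime hf hm i) h L hL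

end Pool.Agent.Lib.MP_557161_ag.DL
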