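import Pool.Agent.Lib.MP_60ec62_ag.DL.Up

/-!
Descent of stable subvarieties and of divisors of invariant functions along a torsor.
-/

noncomputable section

namespace Pool.Agent.Lib.MP_60ec62_ag.DL

open MvPolynomial

variable {K : Type} [Field K] {ι ι' κ : Type}

/-- The map of points given by an algebra map. -/
def px (φ : MvPolynomial ι K →ₐ[K] MvPolynomial ι' K) (x : ι' → K) : ι → K :=
  fun i => eval x (φ (X i))

/-- `E` is locally the product of `Y` with the open set `h ≠ 0` of an affine space, and `Γ` is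
transitive on the fibres. -/
structure Tors (E : Set (ι' → K)) (Y : Set (ι → K))
    (φ : MvPolynomial ι K →ₐ[K] MvPolynomial ι' K) (Γ : Set (Au K ι')) (h : MvPolynomial κ K) :
    Prop where
  lcE : LC E
  lcY : LC Y
  reg : RegMap E (px φ)
  maps : Set.MapsTo (px φ) E Y
  ne : h ≠ 0
  loc : ∀ y ∈ Y, ∃ (f : MvPolynomial ι K) (Θ : (ι' → K) → κ → K) (Ψ : (ι ⊕ κ → K) → ι' → K),
    eval y f ≠ 0 ∧ RegIso {x ∈ E | eval (px φ x) f ≠ 0}
      {z ∈ prodA {y ∈ Y | eval y f ≠ 0} κ | eval (z ∘ Sum.inr) h ≠ 0}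
      (fun x => Sum.elim (px φ x) (Θ x)) Ψ
  trans : ∀ x ∈ E, ∀ x' ∈ E, px φ x = px φ x' → ∃ γ ∈ Γ, pt γ x = x'

lemma eval_px (φ : MvPolynomial ι K →ₐ[K] MvPolynomial ι' K) (x : ι' → K) (a : MvPolynomial ι K) :
    eval (px φ x) a = eval x (φ a) := by
  induction a using MvPolynomial.induction_on with
  | C c => rw [eval_C, ← algebraMap_eq, AlgHom.commutes, algebraMap_eq, eval_C]
  | add p q hp hq => rw [map_add, map_add, map_add, hp, hq]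
  | mul_X p i hp => rw [map_mul, map_mul, map_mul, hp, eval_X]; rfl

lemma px_mem {φ : MvPolynomial ι K →ₐ[K] MvPolynomial ι' K} {w : Pr K ι'} {x : ι' → K}
    (hx : x ∈ Vp w) : px φ x ∈ Vp (cm φ w) := fun a ha => by rw [eval_px]; exact hx _ ha

variable [IsAlgClosed K] [Finite ι] [Finite ι'] [Finite κ] {E : Set (ι' → K)} {Y : Set (ι → K)}
  {φ : MvPolynomial ι K →ₐ[K] MvPolynomial ι' K} {Γ : Set (Au K ι')} {h : MvPolynomial κ K}
  {w : Pr K ι'}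

namespace Tor

/-- The open subset of the product. -/
abbrev Uo (Y : Set (ι → K)) (f : MvPolynomial ι K) (h : MvPolynomial κ K) : Set (ι ⊕ κ → K) :=
  {z ∈ prodA {y ∈ Y | eval y f ≠ 0} κ | eval (z ∘ Sum.inr) h ≠ 0}

/-- A chart. -/
abbrev Ch (E : Set (ι' → K)) (Y : Set (ι → K)) (φ : MvPolynomial ι K →ₐ[K] MvPolynomial ι' K)
    (h : MvPolynomial κ K) (f : MvPolynomial ι K) (Θ : (ι' → K) → κ → K)
    (Ψ : (ι ⊕ κ → K) → ι' → K) : Prop :=
  RegIso {x ∈ E | eval (px φ x) f ≠ 0} (Uo Y f h) (fun x => Sum.elim (px φ x) (Θ x)) Ψ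

variable {f : MvPolynomial ι K} {Θ : (ι' → K) → κ → K} {Ψ : (ι ⊕ κ → K) → ι' → K}

omit [Finite ι] [Finite ι'] [Finite κ] in
lemma exists_o (hh : h ≠ 0) : ∃ o : κ → K, eval o h ≠ 0 := by
  by_contra H
  exact hh (MvPolynomial.funext fun o => by
    rw [map_zero]; exact by_contra fun h0 => H ⟨o, h0⟩)

omit [IsAlgClosed K] [Finite ι] [Finite ι'] [Finite κ] in
lemma pi_Psi (c : Ch E Y φ h f Θ Ψ) {z : ι ⊕ κ → K} (hz : z ∈ Uo Y f h) :
    px φ (Ψ z) = z ∘ Sum.inl :=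
  funext fun i => congrFun (c.right z hz) (Sum.inl i)

omit [IsAlgClosed K] [Finite ι] [Finite ι'] [Finite κ] in
lemma reg_sec (c : Ch E Y φ h f Θ Ψ) {o : κ → K} (ho : eval o h ≠ 0) (g : MvPolynomial ι' K) :
    RegF ⊤ {y ∈ Y | eval y f ≠ 0} fun y => eval (Ψ (Sum.elim y o)) g := by
  refine RegF.comp (Iso.reg_eval c.reg' g) (Φ := fun y => Sum.elim y o) (fun j => ?_)
    fun y hy => ⟨hy, ho⟩
  rcases j with i | j
  · exact RegF.coord i
  · exact RegF.const (c := o j) trivial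

omit [IsAlgClosed K] [Finite ι] [Finite ι'] [Finite κ] in
/-- A generically saturated subvariety is the full preimage of its image. -/
lemma pts_gen (H : Tors E Y φ Γ h) (hw : w ∈ hat E) {c : MvPolynomial ι K}
    (hc : c ∉ (cm φ w).asIdeal) (hs : ∀ x ∈ E, x ∈ Vp w → eval (px φ x) c ≠ 0 → ∀ x' ∈ E,
      px φ x = px φ x' → x' ∈ Vp w) {x : ι' → K} (hx : x ∈ E) (hxw : px φ x ∈ Vp (cm φ w)) :
    x ∈ Vp w := by
  intro g hg
  obtain ⟨f, Θ, Ψ, hf, ch⟩ := H.loc _ (H.maps hx)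
  have ho : eval (Θ x) h ≠ 0 := (ch.maps ⟨hx, hf⟩).2
  by_contra h0
  obtain ⟨u, hu, hu'⟩ := (reg_sec ch ho g).relCl_zero.2 (px φ x) ⟨H.maps hx, hf⟩ fun hh =>
    h0 (by have := hh.2; rwa [ch.left x ⟨hx, hf⟩] at this)
  have h1 : u * f * c ∈ (cm φ w).asIdeal := hw (φ _) fun z hz hzw => by
    rw [← eval_px, map_mul, map_mul]
    by_cases h2 : eval (px φ z) f = 0
    · rw [h2, mul_zero, zero_mul]
    by_cases h3 : eval (px φ z) c = 0
    · rw [h3, mul_zero]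
    have hU : (Sum.elim (px φ z) (Θ x) : ι ⊕ κ → K) ∈ Uo Y f h := ⟨⟨H.maps hz, h2⟩, ho⟩
    rw [hu _ ⟨⟨H.maps hz, h2⟩, hs z hz hzw h3 _ (ch.maps' hU).1 (pi_Psi ch hU).symm g hg⟩,
      zero_mul, zero_mul]
  have h2 := hxw _ (((cm φ w).isPrime.mem_or_mem h1).resolve_right hc)
  rw [map_mul] at h2
  exact mul_ne_zero hu' hf h2

omit [Finite ι'] in
lemma ext_mem (hY : LC Y) (hh : h ≠ 0) {P : Pr K ι} :
    extZ κ ∅ P ∈ hat (Uo Y f h) ↔ P ∈ hat {y ∈ Y | eval y f ≠ 0} := by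
  have e : Uo Y f h =
      {z ∈ prodA {y ∈ Y | eval y f ≠ 0} κ | eval z (rename Sum.inr h) ≠ 0} := by
    simp only [Uo, eval_rename]
  rw [e, mem_hat_ne ((Up.lc_open hY f).prodA κ), mem_hat_prodA (Up.lc_open hY f), down_extZ]
  refine and_iff_left fun h0 => ?_
  obtain ⟨y, -, hy⟩ := hat_nonempty (mem_hat_univ P)
  obtain ⟨o, ho⟩ := exists_o hh
  have := (mem_Vp_extZ (x := Sum.elim y o)).2 ⟨hy, fun _ hj => hj.elim⟩ _ h0
  rw [eval_rename] at this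
  exact ho this

omit [Finite ι'] in
lemma rs_ext (hY : LC Y) (hh : h ≠ 0) (c : Cy K ι) :
    rs (Uo Y f h) (Finsupp.mapDomain (extZ κ ∅) c) =
      Finsupp.mapDomain (extZ κ ∅) (rs {y ∈ Y | eval y f ≠ 0} c) := by
  ext z
  by_cases hz : z ∈ Set.range (extZ κ ∅ : Pr K ι → _)
  · obtain ⟨P, rfl⟩ := hz
    rw [Finsupp.mapDomain_apply (extZ_injective ∅)]
    by_cases hP : P ∈ hat {y ∈ Y | eval y f ≠ 0}
    · rw [flt_apply_of_mem hP, flt_apply_of_mem ((ext_mem hY hh).2 hP),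
        Finsupp.mapDomain_apply (extZ_injective ∅)]
    · rw [flt_apply_of_not_mem hP, flt_apply_of_not_mem fun h0 => hP ((ext_mem hY hh).1 h0)]
  · rw [Finsupp.mapDomain_of_notMem_range _ _ hz]
    by_cases h0 : z ∈ hat (Uo Y f h)
    · rw [flt_apply_of_mem h0, Finsupp.mapDomain_of_notMem_range _ _ hz]
    · rw [flt_apply_of_not_mem h0]

/-- `Q` is the preimage of `P`. -/
def Full (E : Set (ι' → K)) (φ : MvPolynomial ι K →ₐ[K] MvPolynomial ι' K) (P : Pr K ι)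
    (Q : Pr K ι') : Prop :=
  Q ∈ hat E ∧ cm φ Q = P ∧ ∀ x ∈ E, x ∈ Vp Q ↔ px φ x ∈ Vp P

omit [IsAlgClosed K] [Finite ι] [Finite ι'] [Finite κ] in
lemma Full.eq {P : Pr K ι} {Q Q' : Pr K ι'} (a : Full E φ P Q) (b : Full E φ P Q') : Q = Q' :=
  eq_of_pts a.1 b.1 fun x hx => (a.2.2 x hx).trans (b.2.2 x hx).symm

lemma full_ch (H : Tors E Y φ Γ h) (c : Ch E Y φ h f Θ Ψ) {P : Pr K ι} (hP : P ∈ hat Y)
    (hf : f ∉ P.asIdeal) : Full E φ P (Iso.em c.symm.reg (extZ κ ∅ P)) := by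
  have hP' := (mem_hat_ne H.lcY).2 ⟨hP, hf⟩
  have hW := (ext_mem H.lcY H.ne).2 hP'
  have d := isoCore' c.symm
  have hQ := d.mem _ hW
  have hQE : _ ∈ hat E := hat_mono (fun _ hx => hx.1) hQ
  have hp : ∀ x ∈ E, eval (px φ x) f ≠ 0 →
      (x ∈ Vp (Iso.em c.symm.reg (extZ κ ∅ P)) ↔ px φ x ∈ Vp P) := fun x hx hfx => by
    have := d.pts _ hW _ (c.maps ⟨hx, hfx⟩)
    rw [c.left x ⟨hx, hfx⟩, mem_Vp_extZ] at this
    exact this.trans (and_iff_left fun _ hj => hj.elim)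
  have e : cm φ (Iso.em c.symm.reg (extZ κ ∅ P)) = P := by
    refine le_antisymm (le_of_pts hP' fun y hy hyP => ?_) fun a ha => hQ (φ a) fun x hx hxQ => ?_
    · obtain ⟨o, ho⟩ := exists_o H.ne
      have hU : (Sum.elim y o : ι ⊕ κ → K) ∈ Uo Y f h := ⟨hy, ho⟩
      have h1 : px φ (Ψ (Sum.elim y o)) = y := pi_Psi c hU
      rw [← h1]
      exact px_mem ((hp _ (c.maps' hU).1 (c.maps' hU).2).2 (h1.symm ▸ hyP))
    · rw [← eval_px]
      exact (hp x hx.1 hx.2).1 hxQ a ha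
  refine ⟨hQE, e, fun x hx => ⟨fun hxQ => e ▸ px_mem hxQ, fun hxP => ?_⟩⟩
  refine pts_gen H hQE (c := f) (by rwa [e]) (fun z hz hzQ hfz z' hz' ez => ?_) hx (by rwa [e])
  exact (hp z' hz' (ez ▸ hfz)).2 (ez ▸ (hp z hz hfz).1 hzQ)

lemma exists_full (H : Tors E Y φ Γ h) (P : Pr K ι) (hP : P ∈ hat Y) : ∃ Q, Full E φ P Q := by
  obtain ⟨y, hy, hyP⟩ := hat_nonempty hP
  obtain ⟨f, Θ, Ψ, hf, c⟩ := H.loc y hy
  exact ⟨_, full_ch H c hP fun hh => hf (hyP f hh)⟩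

lemma key (H : Tors E Y φ Γ h) {P : Pr K ι} (hP : P ∈ hat Y) (hw : Full E φ P w)
    {a : MvPolynomial ι K} (ha : a ∉ P.asIdeal) :
    Finsupp.mapDomain (cm φ) (rs E (dv K w (φ a))) = rs Y (dv K P a) := by
  choose! e he using exists_full H
  suffices k : Finsupp.mapDomain e (rs Y (dv K P a)) = rs E (dv K w (φ a)) by
    rw [← k, ← Finsupp.mapDomain_comp, Finsupp.mapDomain_congr (g := id), Finsupp.mapDomain_id]
    exact fun P' hP' => (he P' (Up.flt_ne (Finsupp.mem_support_iff.1 hP')).1).2.1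
  ext Q
  by_cases hQ : Q ∈ hat E
  swap
  · rw [flt_apply_of_not_mem hQ]
    by_contra h0
    obtain ⟨P', hP', rfl⟩ := Up.mapDomain_ne h0
    exact hQ (he P' (Up.flt_ne hP').1).1
  obtain ⟨x, hx, hxQ⟩ := hat_nonempty hQ
  obtain ⟨f, Θ, Ψ, hf, c⟩ := H.loc _ (H.maps hx)
  rw [flt_apply_of_mem hQ]
  by_cases hfw : f ∈ P.asIdeal
  · have z1 : dv K w (φ a) Q = 0 := by
      by_contra h0
      exact hf ((hw.2.2 x hx).1 (Vp_anti (dv_supp h0).1.le hxQ) f hfw)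
    rw [z1]
    by_contra h0
    obtain ⟨P', hP', rfl⟩ := Up.mapDomain_ne h0
    obtain ⟨hP1, hP2⟩ := Up.flt_ne hP'
    exact hf (((he P' hP1).2.2 x hx).1 hxQ f ((dv_supp hP2).1.le hfw))
  have hW := (ext_mem H.lcY H.ne).2 ((mem_hat_ne H.lcY).2 ⟨hP, hfw⟩)
  have ew := (full_ch H c hP hfw).eq hw
  have d := isoCore' c.symm
  have hmul := d.mult _ hW (rename Sum.inl a) 1 (φ a) 1 (fun hh => ha (rename_mem_extZ.1 hh))
    ((Ideal.ne_top_iff_one _).1 (extZ κ ∅ P).isPrime.ne_top)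
    (by rw [ew]; exact fun hh => ha (hw.2.1 ▸ (mem_cm φ w a).2 hh))
    ((Ideal.ne_top_iff_one _).1 (PrimeSpectrum.isPrime _).ne_top) (fun z hz _ => by
      rw [map_one, map_one, mul_one, one_mul, Up.eval_inl, ← eval_px, pi_Psi c hz])
  rw [ew, dv_one, dv_one, sub_zero, sub_zero, dv_extZ, rs_ext H.lcY H.ne,
    ← Finsupp.mapDomain_comp] at hmul
  have hcg : Finsupp.mapDomain (Iso.em c.symm.reg ∘ extZ κ ∅)
      (rs {y ∈ Y | eval y f ≠ 0} (dv K P a)) =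
      Finsupp.mapDomain e (rs {y ∈ Y | eval y f ≠ 0} (dv K P a)) := by
    refine Finsupp.mapDomain_congr fun P' hP' => ?_
    have := (mem_hat_ne H.lcY).1 (Up.flt_ne (Finsupp.mem_support_iff.1 hP')).1
    exact (full_ch H c this.1 this.2).eq (he P' this.1)
  have h4 := DFunLike.congr_fun hmul Q
  rw [flt_apply_of_mem (Up.mem_hat_open H.lcE H.reg hQ hx hxQ hf), hcg] at h4
  rw [h4]
  have h5 : Finsupp.mapDomain e (rs Y (dv K P a) - rs {y ∈ Y | eval y f ≠ 0} (dv K P a)) Q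
      = 0 := by
    by_contra h0
    obtain ⟨P', hP', rfl⟩ := Up.mapDomain_ne h0
    by_cases hPY : P' ∈ hat Y
    · have hfP : f ∉ P'.asIdeal := fun hh => hf (((he P' hPY).2.2 x hx).1 hxQ f hh)
      exact hP' (by rw [Finsupp.sub_apply, flt_apply_of_mem hPY,
        flt_apply_of_mem ((mem_hat_ne H.lcY).2 ⟨hPY, hfP⟩), sub_self])
    · exact hP' (by rw [Finsupp.sub_apply, flt_apply_of_not_mem hPY,
        flt_apply_of_not_mem (fun hh => hPY ((mem_hat_ne H.lcY).1 hh).1), sub_self])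
  rwa [Finsupp.mapDomain_sub, Finsupp.sub_apply, sub_eq_zero] at h5

end Tor

omit [IsAlgClosed K] [Finite ι] [Finite ι'] [Finite κ] in
theorem Tors.mem (H : Tors E Y φ Γ h) (hw : w ∈ hat E) : cm φ w ∈ hat Y :=
  fun a ha => hw (φ a) fun x hx hxw => by rw [← eval_px]; exact ha _ (H.maps hx) (px_mem hxw)

omit [IsAlgClosed K] [Finite ι] [Finite ι'] [Finite κ] in
theorem Tors.pts (H : Tors E Y φ Γ h) (hw : w ∈ hat E) (hs : Stable Γ w) {x : ι' → K}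
    (hx : x ∈ E) : x ∈ Vp w ↔ px φ x ∈ Vp (cm φ w) := by
  refine ⟨px_mem, Tor.pts_gen H hw (c := 1)
    ((Ideal.ne_top_iff_one _).1 (cm φ w).isPrime.ne_top) (fun z hz hzw _ z' hz' e => ?_) hx⟩
  obtain ⟨γ, hγ, rfl⟩ := H.trans z hz z' hz' e
  exact (pts_of_act_eq (hs γ hγ) z).2 hzw

omit [Finite ι] [Finite ι'] [Finite κ] in
theorem Tors.surj (H : Tors E Y φ Γ h) {y : ι → K} (hy : y ∈ Y) : ∃ x ∈ E, px φ x = y := by
  obtain ⟨f, Θ, Ψ, hf, c⟩ := H.loc y hy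
  obtain ⟨o, ho⟩ := Tor.exists_o H.ne
  have hU : (Sum.elim y o : ι ⊕ κ → K) ∈ Tor.Uo Y f h := ⟨⟨hy, hf⟩, ho⟩
  exact ⟨_, (c.maps' hU).1, Tor.pi_Psi c hU⟩

theorem Tors.rat (H : Tors E Y φ Γ h) (hw : w ∈ hat E) (hs : Stable Γ w)
    {a b : MvPolynomial ι' K} (ha : a ∉ w.asIdeal) (hb : b ∉ w.asIdeal)
    (hi : ∀ γ ∈ Γ, SemiInv γ 1 w a b) : ∃ f g, f ∉ (cm φ w).asIdeal ∧ g ∉ (cm φ w).asIdeal ∧
      a * φ g - b * φ f ∈ w.asIdeal ∧
      Finsupp.mapDomain (cm φ) (rs E (dv K w a - dv K w b)) =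
        rs Y (dv K (cm φ w) f - dv K (cm φ w) g) := by
  obtain ⟨x, hx, hxw, hab⟩ := exists_pt hw (f := a * b)
    fun hh => (w.isPrime.mem_or_mem hh).elim ha hb
  rw [map_mul] at hab
  obtain ⟨f, Θ, Ψ, hf, c⟩ := H.loc _ (H.maps hx)
  have ho : eval (Θ x) h ≠ 0 := (c.maps ⟨hx, hf⟩).2
  have hyP := px_mem (φ := φ) hxw
  have hfP : f ∉ (cm φ w).asIdeal := fun hh => hf (hyP f hh)
  have hP := (mem_hat_ne H.lcY).2 ⟨H.mem hw, hfP⟩
  obtain ⟨a₁, a₂, ha₂, ea⟩ := (Tor.reg_sec c ho a).exists_frac hP ⟨H.maps hx, hf⟩ hyP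
  obtain ⟨b₁, b₂, hb₂, eb⟩ := (Tor.reg_sec c ho b).exists_frac hP ⟨H.maps hx, hf⟩ hyP
  simp only [← eval_up] at ha₂ hb₂ ea eb
  have ea' := ea _ ⟨H.maps hx, hf⟩ hyP
  have eb' := eb _ ⟨H.maps hx, hf⟩ hyP
  rw [c.left x ⟨hx, hf⟩] at ea' eb'
  have hF : up a₁ * up b₂ ∉ (cm φ w).asIdeal := fun hh => by
    have := hyP _ hh
    rw [map_mul, ← ea'] at this
    exact mul_ne_zero (mul_ne_zero (left_ne_zero_of_mul hab) ha₂) hb₂ this
  have hG : up a₂ * up b₁ ∉ (cm φ w).asIdeal := fun hh => by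
    have := hyP _ hh
    rw [map_mul, ← eb'] at this
    exact mul_ne_zero ha₂ (mul_ne_zero (right_ne_zero_of_mul hab) hb₂) this
  have hm : a * φ (up a₂ * up b₁) - b * φ (up a₁ * up b₂) ∈ w.asIdeal := by
    refine (w.isPrime.mem_or_mem (hw (φ f * _) fun z hz hzw => ?_)).resolve_left hfP
    rw [map_mul, ← eval_px]
    by_cases h2 : eval (px φ z) f = 0
    · rw [h2, zero_mul]
    have hU : (Sum.elim (px φ z) (Θ x) : ι ⊕ κ → K) ∈ Tor.Uo Y f h := ⟨⟨H.maps hz, h2⟩, ho⟩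
    obtain ⟨γ, hγ, eγ⟩ := H.trans z hz _ (c.maps' hU).1 (Tor.pi_Psi c hU).symm
    have h3 := (semiInv_iff hw).1 (hi γ hγ) z hz hzw
    rw [eγ, one_mul] at h3
    rw [map_sub, map_mul, map_mul (eval z) b, ← eval_px, ← eval_px, map_mul, map_mul,
      ← ea _ ⟨H.maps hz, h2⟩ (px_mem hzw), ← eb _ ⟨H.maps hz, h2⟩ (px_mem hzw)]
    linear_combination (-eval (px φ z) f * eval (px φ z) (up a₂) * eval (px φ z) (up b₂)) * h3
  have hfull : Tor.Full E φ (cm φ w) w := ⟨hw, rfl, fun x hx => H.pts hw hs hx⟩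
  refine ⟨_, _, hF, hG, hm, ?_⟩
  rw [dv_frac ha hb (a' := φ (up a₁ * up b₂)) (b' := φ (up a₂ * up b₁)) hF hG
    (by rwa [mul_comm _ b]), map_sub, map_sub, Finsupp.mapDomain_sub,
    Tor.key H (H.mem hw) hfull hF, Tor.key H (H.mem hw) hfull hG]

end Pool.Agent.Lib.MP_60ec62_ag.DL
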