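import Pool.Agent.Lib.MP_557161_ag.TU.UDefs
import Pool.Agent.Lib.MP_557161_ag.TU.Tor
import Pool.Agent.Lib.MP_60ec62_ag.DF.Two

/-!
The Pluecker-Segre map from pairs of families of bases to the square of the cone.
-/

noncomputable section

namespace Pool.Agent.Lib.MP_557161_ag.TU

open MvPolynomial Pool.Agent.Lib.MP_60ec62_ag.DL
open Pool.Agent.Lib.MP_557161_ag.DL (Idx plk coneU)

variable {K : Type} [Field K] {n l : ℕ}

variable (n l) in
/-- The variables of a family of bases. -/
abbrev V1 : Type := Fin (l + 1) × (Fin (n + 1) × Fin (n + 1))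

variable (n l) in
/-- The variables of a pair of families of bases. -/
abbrev V2 : Type := (Fin (l + 1) ⊕ Fin (l + 1)) × (Fin (n + 1) × Fin (n + 1))

variable (n l) in
/-- The Pluecker-Segre coordinates. -/
abbrev Ix : Type := Idx (Fin (n + 1)) n l

/-- The first columns of the matrices. -/
def colb {R : Type} (x : V1 n l → R) : Fin (l + 1) → ∀ i : Fin (n + 1), Fin i → Fin (n + 1) → R :=
  fun a i c r => x (a, (r, c.castLE i.2.le))

variable (K) in
/-- The Pluecker-Segre polynomials. -/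
def plkP (s : Ix n l) : MvPolynomial (V1 n l) K :=
  ∏ j, ∏ i, Matrix.det (Matrix.of fun a c => colb X j i a (s j i c))

lemma eval_plkP (x : V1 n l → K) (s : Ix n l) : eval x (plkP K s) = plk (colb x) s := by
  simp only [plkP, plk, map_prod, RingHom.map_det]
  refine Finset.prod_congr rfl fun j _ => Finset.prod_congr rfl fun i _ => ?_
  congr 1
  ext a c
  simp [colb]

variable (K) in
/-- The families of bases of chains. -/
def DU (q : ℕ) (w : Fin l → Fin n) : Set (V1 n l → K) :=
  Dset q (n + 1) (fun j => (w j).1 + 1) fun i j => i + j - (n + 1)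

variable (K n l) in
/-- The Pluecker-Segre map on the square, with two scaling variables; the factors are swapped. -/
def phi2 : MvPolynomial (Ix n l ⊕ Ix n l) K →ₐ[K] MvPolynomial (V2 n l ⊕ Bool) K :=
  aeval (Sum.elim
    (fun s => X (Sum.inr true) * rename (Sum.inl ∘ Prod.map Sum.inr id) (plkP K s))
    fun s => X (Sum.inr false) * rename (Sum.inl ∘ Prod.map Sum.inl id) (plkP K s))

lemma px_inl (z : V2 n l ⊕ Bool → K) : px (phi2 K n l) z ∘ Sum.inl =
    z (Sum.inr true) • plk (colb (z ∘ Sum.inl ∘ Prod.map Sum.inr id)) := by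
  funext s
  simp [px, phi2, eval_rename, eval_plkP]

lemma px_inr (z : V2 n l ⊕ Bool → K) : px (phi2 K n l) z ∘ Sum.inr =
    z (Sum.inr false) • plk (colb (z ∘ Sum.inl ∘ Prod.map Sum.inl id)) := by
  funext s
  simp [px, phi2, eval_rename, eval_plkP]

variable (K) in
/-- The total space of the torsor. -/
def Et (q : ℕ) (w : Fin l → Fin n) : Set (V2 n l ⊕ Bool → K) :=
  {z | z ∘ Sum.inl ∈ sq2 (DU K q w) ∧ ∀ b, z (Sum.inr b) ≠ 0}

variable (K) in
/-- The base of the torsor. -/
def Yt (q : ℕ) (w : Fin l → Fin n) : Set (Ix n l ⊕ Ix n l → K) :=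
  {y | (y ∘ Sum.inl ∈ coneU K q w ∧ y ∘ Sum.inl ≠ 0) ∧ y ∘ Sum.inr ∈ coneU K q w ∧ y ∘ Sum.inr ≠ 0}

variable (K n l) in
/-- The group of the torsor, enlarged by the scalings. -/
def Gt : Set (Au K (V2 n l ⊕ Bool)) :=
  {γ | ∃ γ₀ ∈ BsetA (K := K) (Fin (l + 1) ⊕ Fin (l + 1)) (n + 1), ∃ u : Bool → K,
    (∀ v, γ (X (Sum.inl v)) = rename Sum.inl (γ₀ (X v))) ∧
      ∀ b, γ (X (Sum.inr b)) = C (u b) * X (Sum.inr b)}

variable (K n l) in
/-- The product of the diagonal entries of a pair of families of triangular matrices. -/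
def ht : MvPolynomial {v : V2 n l // v.2.1 ≤ v.2.2} K := ∏ a, ∏ i, X ⟨(a, (i, i)), le_rfl⟩

/-- The subvariety of the square of the cone given by a subvariety of the torsor. -/
def Tm (Q : Pr K (V2 n l)) : Pr K (Ix n l ⊕ Ix n l) := cm (phi2 K n l) (extZ Bool ∅ Q)

end Pool.Agent.Lib.MP_557161_ag.TU
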