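import Pool.Agent.Lib.MP_557161_ag.TU.Sec

/-!
The Pluecker-Segre map is a torsor.
-/

noncomputable section

namespace Pool.Agent.Lib.MP_557161_ag.TU

open MvPolynomial Pool.Agent.Lib.MP_60ec62_ag.DL
open Pool.Agent.Lib.MP_557161_ag.DL (Idx plk coneU)

variable {K : Type} [Field K] [IsAlgClosed K] {n l p q : ℕ} [Fact p.Prime] [CharP K p]
  {w : Fin l → Fin n}

namespace Plk

omit [IsAlgClosed K]

lemma cone_smul (c : K) {x : Ix n l → K} (hx : x ∈ coneU K q w) : c • x ∈ coneU K q w := by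
  obtain ⟨d, b, hb, rfl⟩ := hx
  exact ⟨c * d, b, hb, smul_smul c d _⟩

lemma reg_plk {ι : Type} {Y : Set (ι → K)} {Φ : (ι → K) → V1 n l → K} (h : RegMap Y Φ)
    (s : Ix n l) : Reg Y fun x => plk (colb (Φ x)) s :=
  RegF.prod _ fun j _ => RegF.prod _ fun i _ =>
    RegF.det (M := fun x => Matrix.of fun a c => colb (Φ x) j i a (s j i c)) fun _ _ => h _

lemma reg_px (Y : Set (V2 n l ⊕ Bool → K)) : RegMap Y (px (phi2 K n l)) := by
  rintro (s | s)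
  · exact ((RegF.coord (Sum.inr true)).mul (reg_plk (Φ := fun z => z ∘ Sum.inl ∘ Prod.map Sum.inr id)
      (fun _ => RegF.coord _) s)).congr fun z _ => congrFun (px_inl z) s
  · exact ((RegF.coord (Sum.inr false)).mul (reg_plk (Φ := fun z => z ∘ Sum.inl ∘ Prod.map Sum.inl id)
      (fun _ => RegF.coord _) s)).congr fun z _ => congrFun (px_inr z) s

lemma et_eq : Et K q w =
    {z ∈ prodA (sq2 (DU K q w)) Bool | eval z (X (Sum.inr true) * X (Sum.inr false)) ≠ 0} := by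
  ext z
  refine and_congr Iff.rfl ?_
  rw [map_mul, eval_X, eval_X, mul_ne_zero_iff, Bool.forall_bool, and_comm]

lemma lc_sq : LC (sq2 (DU K q w)) := Two.lc_sq (lc_Dset _ _)

lemma lc_cone (hcl : zeroLocus K (vanishingIdeal K (coneU K q w)) = coneU K q w) :
    LC {y | y ∈ coneU K q w ∧ y ≠ 0} := by
  refine Hat.lc_iff.2 ⟨vanishingIdeal K (coneU K q w), Ideal.span (Set.range X), fun x => ?_⟩
  refine and_congr ?_ ?_
  · conv_lhs => rw [← hcl]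
    rw [mem_zeroLocus_iff]
    exact forall₂_congr fun f _ => by rw [Hat.mem_mx, aeval_eq_eval]
  · rw [Ideal.span_le, Set.range_subset_iff]
    simp only [SetLike.mem_coe, Hat.mem_mx, eval_X]
    exact not_congr funext_iff

lemma maps (hp : IsPP p q) : Set.MapsTo (px (phi2 K n l)) (Et K q w) (Yt K q w) := by
  intro z hz
  have h1 := plk_mem hp hz.1.2
  have h2 := plk_mem hp hz.1.1
  refine ⟨?_, ?_⟩
  · rw [px_inl]
    exact ⟨cone_smul _ h1.1, smul_ne_zero (hz.2 _) h1.2⟩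
  · rw [px_inr]
    exact ⟨cone_smul _ h2.1, smul_ne_zero (hz.2 _) h2.2⟩

/-- A family of matrices times a family of matrices. -/
def mulB {α : Type} {m : ℕ} (x : α × (Fin m × Fin m) → K) (β : α → Matrix (Fin m) (Fin m) K) :
    α × (Fin m × Fin m) → K := fun v => (matA x v.1 * β v.1) v.2.1 v.2.2

lemma matA_mulB {α : Type} {m : ℕ} (x : α × (Fin m × Fin m) → K)
    (β : α → Matrix (Fin m) (Fin m) K) (a : α) : matA (mulB x β) a = matA x a * β a := rfl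

omit [Field K] in
lemma ext_matA {α : Type} {m : ℕ} {x y : α × (Fin m × Fin m) → K} (h : ∀ a, matA x a = matA y a) :
    x = y := funext fun v => congrFun (congrFun (h v.1) v.2.1) v.2.2

variable (K) in
/-- The properties of a local section. -/
structure IsSec (q : ℕ) (w : Fin l → Fin n) (s : Ix n l) (τ : (Ix n l → K) → V1 n l → K) :
    Prop where
  reg : RegMap {y | y s ≠ 0} τ
  mem : ∀ y ∈ coneU K q w, y s ≠ 0 → τ y ∈ DU K q w ∧ y = y s • plk (colb (τ y))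
  tri : ∀ x ∈ DU K q w, ∀ c : K, (c • plk (colb x)) s ≠ 0 → ∀ a,
    ((matA (τ (c • plk (colb x))) a)⁻¹ * matA x a).BlockTriangular id

lemma exists_sec (hp : IsPP p q) {y : Ix n l → K} (h : y ∈ coneU K q w ∧ y ≠ 0) :
    ∃ s τ, y s ≠ 0 ∧ IsSec K q w s τ := by
  obtain ⟨s, τ, h0, h1, h2, h3⟩ := sec hp h.1 h.2
  exact ⟨s, τ, h0, h1, h2, h3⟩

variable {s : Ix n l} {τ : (Ix n l → K) → V1 n l → K}

lemma IsSec.up (H : IsSec K q w s τ) (hp : IsPP p q) {y : Ix n l → K} (hy : y ∈ coneU K q w)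
    (hs : y s ≠ 0) {β : Fin (l + 1) → Matrix (Fin (n + 1)) (Fin (n + 1)) K}
    (hβ : ∀ a, (β a).BlockTriangular id ∧ (β a).det ≠ 0) :
    mulB (τ y) β ∈ DU K q w ∧ plk (colb (mulB (τ y) β)) s ≠ 0 ∧
      (y s / plk (colb (mulB (τ y) β)) s) • plk (colb (mulB (τ y) β)) = y := by
  obtain ⟨h1, h2⟩ := H.mem y hy hs
  obtain ⟨c, hc, e⟩ := plk_mul hβ (matA_mulB (τ y) β)
  have h3 : plk (colb (τ y)) s = 1 := by
    have h4 := congrFun h2 s
    rw [Pi.smul_apply, smul_eq_mul] at h4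
    exact mul_left_cancel₀ hs (h4.symm.trans (mul_one _).symm)
  have h4 : plk (colb (mulB (τ y) β)) s = c := by
    rw [e, Pi.smul_apply, h3, smul_eq_mul, mul_one]
  refine ⟨Final.mem_of_mul hp hβ (matA_mulB _ _) h1, h4 ▸ hc, ?_⟩
  rw [h4, e, smul_smul, div_mul_cancel₀ _ hc, ← h2]

lemma IsSec.down (H : IsSec K q w s τ) (hp : IsPP p q) {x : V1 n l → K} (hx : x ∈ DU K q w) {c : K}
    {y : Ix n l → K} (hy : y = c • plk (colb x)) (hs : y s ≠ 0) (a : Fin (l + 1)) :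
    (matA (τ y) a).det ≠ 0 ∧ ((matA (τ y) a)⁻¹ * matA x a).BlockTriangular id ∧
      ((matA (τ y) a)⁻¹ * matA x a).det ≠ 0 := by
  subst hy
  have h1 := (H.mem _ (cone_smul c (plk_mem hp hx).1) hs).1.1.1 a
  refine ⟨h1, H.tri x hx c hs a, ?_⟩
  rw [Matrix.det_mul]
  exact mul_ne_zero (Final.det_inv_ne h1) (hx.1.1 a)

lemma exists_tri (hp : IsPP p q) {x x' : V1 n l → K} (hx : x ∈ DU K q w) (hx' : x' ∈ DU K q w)
    {c c' : K} (hc : c ≠ 0) (h : c • plk (colb x) = c' • plk (colb x')) (a : Fin (l + 1)) :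
    ((matA x a)⁻¹ * matA x' a).BlockTriangular id := by
  have h1 := plk_mem hp hx
  obtain ⟨s, τ, h0, H⟩ := exists_sec hp (y := c • plk (colb x))
    ⟨cone_smul c h1.1, smul_ne_zero hc h1.2⟩
  obtain ⟨a1, a2, a3⟩ := H.down hp hx rfl h0 a
  obtain ⟨-, b2, -⟩ := H.down hp hx' h h0 a
  have e := (Final.tri_inv a2 a3).mul b2
  rwa [Matrix.mul_inv_rev, Matrix.nonsing_inv_nonsing_inv _ (Ne.isUnit a1), Matrix.mul_assoc,
    Matrix.mul_nonsing_inv_cancel_left _ _ (Ne.isUnit a1)] at e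

/-- The extension of a substitution by scalings of the new variables. -/
def extH {ι κ : Type} (γ : Au K ι) (u : κ → K) :
    MvPolynomial (ι ⊕ κ) K →ₐ[K] MvPolynomial (ι ⊕ κ) K :=
  aeval (Sum.elim (fun v => rename Sum.inl (γ (X v))) fun b => C (u b) * X (Sum.inr b))

lemma extH_rename {ι κ : Type} (γ : Au K ι) (u : κ → K) (f : MvPolynomial ι K) :
    extH γ u (rename Sum.inl f) = rename Sum.inl (γ f) := by
  have : (extH γ u).comp (rename Sum.inl) = (rename Sum.inl).comp (γ : _ →ₐ[K] _) :=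
    MvPolynomial.algHom_ext fun v => by simp [extH]
  exact DFunLike.congr_fun this f

lemma extH_comp {ι κ : Type} (γ δ : Au K ι) (u v : κ → K) (h : γ * δ = 1)
    (h' : ∀ b, u b * v b = 1) : (extH γ u).comp (extH δ v) = AlgHom.id K _ := by
  refine MvPolynomial.algHom_ext fun i => ?_
  rcases i with i | b
  · have e : extH δ v (X (Sum.inl i)) = rename Sum.inl (δ (X i)) := by simp [extH]
    rw [AlgHom.comp_apply, e, extH_rename, ← AlgEquiv.mul_apply, h]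
    simp
  · simp only [extH, AlgHom.comp_apply, aeval_X, Sum.elim_inr, map_mul, aeval_C, algebraMap_eq,
      AlgHom.id_apply]
    rw [← mul_assoc, ← map_mul, mul_comm (v b), h', map_one, one_mul]

lemma exists_ext {ι κ : Type} (γ : Au K ι) {u : κ → K} (hu : ∀ b, u b ≠ 0) :
    ∃ δ : Au K (ι ⊕ κ), (∀ v, δ (X (Sum.inl v)) = rename Sum.inl (γ (X v))) ∧
      ∀ b, δ (X (Sum.inr b)) = C (u b) * X (Sum.inr b) :=
  ⟨AlgEquiv.ofAlgHom (extH γ u) (extH γ⁻¹ fun b => (u b)⁻¹)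
    (extH_comp _ _ _ _ (mul_inv_cancel γ) fun b => mul_inv_cancel₀ (hu b))
    (extH_comp _ _ _ _ (inv_mul_cancel γ) fun b => inv_mul_cancel₀ (hu b)),
    fun v => by simp [extH], fun b => by simp [extH]⟩

lemma pt_inl {ι κ : Type} {γ : Au K ι} {δ : Au K (ι ⊕ κ)}
    (h : ∀ v, δ (X (Sum.inl v)) = rename Sum.inl (γ (X v))) (x : ι ⊕ κ → K) :
    pt δ x ∘ Sum.inl = pt γ (x ∘ Sum.inl) := by
  funext v
  simp only [pt, Function.comp_apply, h, eval_rename]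

lemma trans (hp : IsPP p q) : ∀ x ∈ Et K q w, ∀ x' ∈ Et K q w,
    px (phi2 K n l) x = px (phi2 K n l) x' → ∃ γ ∈ Gt K n l, pt γ x = x' := by
  intro x hx x' hx' h
  have h1 := congrArg (· ∘ Sum.inl) h
  have h2 := congrArg (· ∘ Sum.inr) h
  simp only [px_inl, px_inr] at h1 h2
  have hd : ∀ {x}, x ∈ Et K q w → ∀ a, (matA (x ∘ Sum.inl) a).det ≠ 0 := by
    rintro x hx (a | a)
    · exact hx.1.1.1.1 a
    · exact hx.1.2.1.1 a
  have ht : ∀ a, ((matA (x ∘ Sum.inl) a)⁻¹ * matA (x' ∘ Sum.inl) a).BlockTriangular id ∧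
      ((matA (x ∘ Sum.inl) a)⁻¹ * matA (x' ∘ Sum.inl) a).det ≠ 0 := by
    intro a
    refine ⟨?_, ?_⟩
    · rcases a with a | a
      · exact exists_tri hp hx.1.1 hx'.1.1 (hx.2 _) h2 a
      · exact exists_tri hp hx.1.2 hx'.1.2 (hx.2 _) h1 a
    · rw [Matrix.det_mul]
      exact mul_ne_zero (Final.det_inv_ne (hd hx a)) (hd hx' a)
  obtain ⟨γ₀, a1, a2⟩ := StmB.exists_au (δ := Stm.mv _) ⟨_, ht, rfl⟩
  obtain ⟨γ, b1, b2⟩ := exists_ext γ₀ (u := fun b => x' (Sum.inr b) / x (Sum.inr b))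
    fun b => div_ne_zero (hx'.2 b) (hx.2 b)
  refine ⟨γ, ⟨γ₀, a1, _, b1, b2⟩, funext fun i => ?_⟩
  rcases i with v | b
  · refine congrFun (?_ : pt γ x ∘ Sum.inl = x' ∘ Sum.inl) v
    rw [pt_inl b1]
    refine ext_matA fun a => ?_
    rw [Final.matA_pt fun a r c => (a2 _).trans (StmB.mv_X _ a r c),
      Matrix.mul_nonsing_inv_cancel_left _ _ (Ne.isUnit (hd hx a))]
  · simp only [pt, b2, map_mul, eval_C, eval_X]
    exact div_mul_cancel₀ _ (hx.2 b)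

/-- The triangular matrices with given upper entries. -/
def tri (z : {v : V2 n l // v.2.1 ≤ v.2.2} → K) (a : Fin (l + 1) ⊕ Fin (l + 1)) :
    Matrix (Fin (n + 1)) (Fin (n + 1)) K :=
  Matrix.of fun i j => if h : i ≤ j then z ⟨(a, (i, j)), h⟩ else 0

lemma tri_tri (z : {v : V2 n l // v.2.1 ≤ v.2.2} → K) (a : Fin (l + 1) ⊕ Fin (l + 1)) :
    (tri z a).BlockTriangular id := fun _ _ h => dif_neg (not_le.2 h)

lemma tri_eq {β : Fin (l + 1) ⊕ Fin (l + 1) → Matrix (Fin (n + 1)) (Fin (n + 1)) K}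
    (h : ∀ a, (β a).BlockTriangular id) :
    tri (fun v => β v.1.1 v.1.2.1 v.1.2.2) = β := by
  funext a
  ext i j
  by_cases hij : i ≤ j
  · exact dif_pos hij
  · exact (dif_neg hij).trans (h a (not_le.1 hij)).symm

lemma ht_iff (z : {v : V2 n l // v.2.1 ≤ v.2.2} → K) :
    eval z (ht K n l) ≠ 0 ↔ ∀ a, (tri z a).det ≠ 0 := by
  have e : ∀ a, (tri z a).det = ∏ i, z ⟨(a, (i, i)), le_rfl⟩ := fun a => by
    rw [Matrix.det_of_isUpperTriangular (tri_tri z a)]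
    exact Finset.prod_congr rfl fun i _ => dif_pos le_rfl
  simp only [ht, map_prod, eval_X, e]
  rw [Finset.prod_ne_zero_iff]
  simp only [Finset.mem_univ, true_imp_iff]

lemma reg_tri {ι : Type} {Y : Set (ι → K)} (j : {v : V2 n l // v.2.1 ≤ v.2.2} → ι)
    (a : Fin (l + 1) ⊕ Fin (l + 1)) (r c : Fin (n + 1)) : Reg Y fun z => tri (z ∘ j) a r c := by
  by_cases h : r ≤ c
  · exact (RegF.coord (j ⟨(a, (r, c)), h⟩)).congr fun _ _ => dif_pos h
  · exact RegF.zero.congr fun _ _ => dif_neg h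

variable {s' : Ix n l} {τ' : (Ix n l → K) → V1 n l → K}

/-- The section on the square. -/
def T2 (τ τ' : (Ix n l → K) → V1 n l → K) (y : Ix n l ⊕ Ix n l → K) : V2 n l → K :=
  fun v => Sum.elim (fun a => τ' (y ∘ Sum.inr) (a, v.2)) (fun a => τ (y ∘ Sum.inl) (a, v.2)) v.1

/-- The fibre coordinates. -/
def Th (τ τ' : (Ix n l → K) → V1 n l → K) (z : V2 n l ⊕ Bool → K)
    (v : {v : V2 n l // v.2.1 ≤ v.2.2}) : K :=
  ((matA (T2 τ τ' (px (phi2 K n l) z)) v.1.1)⁻¹ * matA (z ∘ Sum.inl) v.1.1) v.1.2.1 v.1.2.2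

/-- The inverse of the chart. -/
def Ps (s s' : Ix n l) (τ τ' : (Ix n l → K) → V1 n l → K)
    (z : (Ix n l ⊕ Ix n l) ⊕ {v : V2 n l // v.2.1 ≤ v.2.2} → K) : V2 n l ⊕ Bool → K :=
  Sum.elim (mulB (T2 τ τ' (z ∘ Sum.inl)) (tri (z ∘ Sum.inr))) fun b => cond b
    (z (Sum.inl (Sum.inl s)) /
      plk (colb (mulB (τ ((z ∘ Sum.inl) ∘ Sum.inl)) fun a => tri (z ∘ Sum.inr) (Sum.inr a))) s)
    (z (Sum.inl (Sum.inr s')) /
      plk (colb (mulB (τ' ((z ∘ Sum.inl) ∘ Sum.inr)) fun a => tri (z ∘ Sum.inr) (Sum.inl a))) s')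

lemma f_iff (y : Ix n l ⊕ Ix n l → K) :
    eval y (X (Sum.inl s) * X (Sum.inr s')) ≠ 0 ↔ y (Sum.inl s) ≠ 0 ∧ y (Sum.inr s') ≠ 0 := by
  rw [map_mul, eval_X, eval_X, mul_ne_zero_iff]

lemma reg_T2 (H : IsSec K q w s τ) (H' : IsSec K q w s' τ') {ι : Type} {Y : Set (ι → K)}
    {Φ : (ι → K) → Ix n l ⊕ Ix n l → K} (h : RegMap Y Φ)
    (hm : ∀ x ∈ Y, Φ x (Sum.inl s) ≠ 0 ∧ Φ x (Sum.inr s') ≠ 0) :
    RegMap Y fun x => T2 τ τ' (Φ x) := by
  rintro ⟨a | a, v⟩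
  · exact (H'.reg (a, v)).comp (Φ := fun x => Φ x ∘ Sum.inr) (fun _ => h _) fun x hx => (hm x hx).2
  · exact (H.reg (a, v)).comp (Φ := fun x => Φ x ∘ Sum.inl) (fun _ => h _) fun x hx => (hm x hx).1

lemma down2 (H : IsSec K q w s τ) (H' : IsSec K q w s' τ') (hp : IsPP p q)
    {z : V2 n l ⊕ Bool → K} (hz : z ∈ Et K q w)
    (hf : eval (px (phi2 K n l) z) (X (Sum.inl s) * X (Sum.inr s')) ≠ 0)
    (a : Fin (l + 1) ⊕ Fin (l + 1)) : (matA (T2 τ τ' (px (phi2 K n l) z)) a).det ≠ 0 ∧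
      ((matA (T2 τ τ' (px (phi2 K n l) z)) a)⁻¹ * matA (z ∘ Sum.inl) a).BlockTriangular id ∧
      ((matA (T2 τ τ' (px (phi2 K n l) z)) a)⁻¹ * matA (z ∘ Sum.inl) a).det ≠ 0 := by
  rw [f_iff] at hf
  rcases a with a | a
  · exact H'.down hp hz.1.1 (px_inr z) hf.2 a
  · exact H.down hp hz.1.2 (px_inl z) hf.1 a

lemma up2 (H : IsSec K q w s τ) (H' : IsSec K q w s' τ') (hp : IsPP p q)
    {z : (Ix n l ⊕ Ix n l) ⊕ {v : V2 n l // v.2.1 ≤ v.2.2} → K} (hz : z ∘ Sum.inl ∈ Yt K q w)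
    (hf : eval (z ∘ Sum.inl) (X (Sum.inl s) * X (Sum.inr s')) ≠ 0)
    (hh : eval (z ∘ Sum.inr) (ht K n l) ≠ 0) :
    Ps s s' τ τ' z ∈ Et K q w ∧ px (phi2 K n l) (Ps s s' τ τ' z) = z ∘ Sum.inl := by
  rw [f_iff] at hf
  rw [ht_iff] at hh
  obtain ⟨a1, a2, a3⟩ := H.up hp hz.1.1 hf.1 (β := fun a => tri (z ∘ Sum.inr) (Sum.inr a))
    fun a => ⟨tri_tri _ _, hh _⟩
  obtain ⟨b1, b2, b3⟩ := H'.up hp hz.2.1 hf.2 (β := fun a => tri (z ∘ Sum.inr) (Sum.inl a))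
    fun a => ⟨tri_tri _ _, hh _⟩
  refine ⟨⟨⟨b1, a1⟩, ?_⟩, funext fun i => ?_⟩
  · rintro (_ | _)
    · exact div_ne_zero hf.2 b2
    · exact div_ne_zero hf.1 a2
  · rcases i with i | i
    · exact (congrFun (px_inl _) i).trans (congrFun a3 i)
    · exact (congrFun (px_inr _) i).trans (congrFun b3 i)

lemma chart (H : IsSec K q w s τ) (H' : IsSec K q w s' τ') (hp : IsPP p q) :
    RegIso {x ∈ Et K q w | eval (px (phi2 K n l) x) (X (Sum.inl s) * X (Sum.inr s')) ≠ 0}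
      {z ∈ prodA {y ∈ Yt K q w | eval y (X (Sum.inl s) * X (Sum.inr s')) ≠ 0}
        {v : V2 n l // v.2.1 ≤ v.2.2} | eval (z ∘ Sum.inr) (ht K n l) ≠ 0}
      (fun x => Sum.elim (px (phi2 K n l) x) (Th τ τ' x)) (Ps s s' τ τ') := by
  have key : ∀ x ∈ Et K q w, eval (px (phi2 K n l) x) (X (Sum.inl s) * X (Sum.inr s')) ≠ 0 →
      tri (Th τ τ' x) = fun a => (matA (T2 τ τ' (px (phi2 K n l) x)) a)⁻¹ * matA (x ∘ Sum.inl) a :=
    fun x hx hf => tri_eq fun a => (down2 H H' hp hx hf a).2.1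
  refine ⟨?_, ?_, fun x hx => ⟨⟨maps hp hx.1, hx.2⟩, ?_⟩, fun z hz => ?_, fun x hx => ?_,
    fun z hz => ?_⟩
  · rintro (i | v)
    · exact reg_px _ i
    · have h1 := reg_T2 H H' (reg_px _) fun x (hx : x ∈ {x ∈ Et K q w |
        eval (px (phi2 K n l) x) (X (Sum.inl s) * X (Sum.inr s')) ≠ 0}) => (f_iff _).1 hx.2
      exact RegF.matMul (M := fun x => (matA (T2 τ τ' (px (phi2 K n l) x)) v.1.1)⁻¹)
        (N := fun x => matA (x ∘ Sum.inl) v.1.1)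
        (RegF.matInv (fun r c => h1 (v.1.1, (r, c))) fun x hx => (down2 H H' hp hx.1 hx.2 _).1)
        (fun _ _ => RegF.coord _) _ _
  · set B := {z ∈ prodA {y ∈ Yt K q w | eval y (X (Sum.inl s) * X (Sum.inr s')) ≠ 0}
        {v : V2 n l // v.2.1 ≤ v.2.2} | eval (z ∘ Sum.inr) (ht K n l) ≠ 0}
    have h1 : RegMap B fun z => T2 τ τ' (z ∘ Sum.inl) :=
      reg_T2 H H' (fun _ => RegF.coord _) fun z hz => (f_iff _).1 hz.1.2
    have h2 : RegMap B fun z => mulB (T2 τ τ' (z ∘ Sum.inl)) (tri (z ∘ Sum.inr)) := fun v =>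
      RegF.matMul (M := fun z => matA (T2 τ τ' (z ∘ Sum.inl)) v.1)
        (N := fun z => tri (z ∘ Sum.inr) v.1) (fun r c => h1 (v.1, (r, c))) (reg_tri _ _) _ _
    rintro (v | _ | _)
    · exact h2 v
    · refine (RegF.coord _).div (reg_plk (fun v => h2 (Sum.inl v.1, v.2)) s') fun z hz => ?_
      exact (H'.up hp hz.1.1.2.1 ((f_iff _).1 hz.1.2).2
        fun a => ⟨tri_tri _ _, (ht_iff _).1 hz.2 _⟩).2.1
    · refine (RegF.coord _).div (reg_plk (fun v => h2 (Sum.inr v.1, v.2)) s) fun z hz => ?_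
      exact (H.up hp hz.1.1.1.1 ((f_iff _).1 hz.1.2).1
        fun a => ⟨tri_tri _ _, (ht_iff _).1 hz.2 _⟩).2.1
  · refine (ht_iff (Th τ τ' x)).2 fun a => ?_
    rw [key x hx.1 hx.2]
    exact (down2 H H' hp hx.1 hx.2 a).2.2
  · obtain ⟨h1, h2⟩ := up2 H H' hp hz.1.1 hz.1.2 hz.2
    exact ⟨h1, by rw [h2]; exact hz.1.2⟩
  · have h0 := (f_iff _).1 hx.2
    have h1 : mulB (T2 τ τ' (px (phi2 K n l) x)) (tri (Th τ τ' x)) = x ∘ Sum.inl := by
      refine ext_matA fun a => ?_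
      rw [matA_mulB, key x hx.1 hx.2,
        Matrix.mul_nonsing_inv_cancel_left _ _ (Ne.isUnit (down2 H H' hp hx.1 hx.2 a).1)]
    funext i
    rcases i with v | _ | _
    · exact congrFun h1 v
    · have h2 := congrFun (px_inr x) s'
      have h3 : mulB (τ' (px (phi2 K n l) x ∘ Sum.inr)) (fun a => tri (Th τ τ' x) (Sum.inl a)) =
          x ∘ Sum.inl ∘ Prod.map Sum.inl id := congrArg (· ∘ Prod.map Sum.inl id) h1
      change px (phi2 K n l) x (Sum.inr s') / plk (colb (mulB (τ' (px (phi2 K n l) x ∘ Sum.inr))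
        fun a => tri (Th τ τ' x) (Sum.inl a))) s' = _
      rw [Function.comp_apply, Pi.smul_apply, smul_eq_mul] at h2
      rw [h3, h2, mul_div_cancel_right₀ _ (right_ne_zero_of_mul (h2 ▸ h0.2))]
    · have h2 := congrFun (px_inl x) s
      have h3 : mulB (τ (px (phi2 K n l) x ∘ Sum.inl)) (fun a => tri (Th τ τ' x) (Sum.inr a)) =
          x ∘ Sum.inl ∘ Prod.map Sum.inr id := congrArg (· ∘ Prod.map Sum.inr id) h1
      change px (phi2 K n l) x (Sum.inl s) / plk (colb (mulB (τ (px (phi2 K n l) x ∘ Sum.inl))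
        fun a => tri (Th τ τ' x) (Sum.inr a))) s = _
      rw [Function.comp_apply, Pi.smul_apply, smul_eq_mul] at h2
      rw [h3, h2, mul_div_cancel_right₀ _ (right_ne_zero_of_mul (h2 ▸ h0.1))]
  · obtain ⟨h1, h2⟩ := up2 H H' hp hz.1.1 hz.1.2 hz.2
    funext i
    rcases i with i | v
    · exact congrFun h2 i
    · have h3 := (down2 H H' hp h1 (by rw [h2]; exact hz.1.2) v.1.1).1
      change ((matA (T2 τ τ' (px (phi2 K n l) (Ps s s' τ τ' z))) v.1.1)⁻¹ *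
        (matA (T2 τ τ' (z ∘ Sum.inl)) v.1.1 * tri (z ∘ Sum.inr) v.1.1)) v.1.2.1 v.1.2.2 = _
      rw [h2] at h3 ⊢
      rw [Matrix.nonsing_inv_mul_cancel_left _ _ (Ne.isUnit h3)]
      exact dif_pos v.2

end Plk

omit [IsAlgClosed K] in
theorem tors (hp : IsPP p q) (hcl : zeroLocus K (vanishingIdeal K (coneU K q w)) = coneU K q w) :
    Tors (Et K q w) (Yt K q w) (phi2 K n l) (Gt K n l) (ht K n l) := by
  refine ⟨?_, ?_, Plk.reg_px _, Plk.maps hp, ?_, fun y hy => ?_, Plk.trans hp⟩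
  · rw [Plk.et_eq]
    exact (Plk.lc_sq.prodA Bool).inter (lc_ne _)
  · exact (Two.lc_pre (Plk.lc_cone hcl) Sum.inl).inter (Two.lc_pre (Plk.lc_cone hcl) Sum.inr)
  · exact Finset.prod_ne_zero_iff.2 fun _ _ => Finset.prod_ne_zero_iff.2 fun _ _ => X_ne_zero _
  · obtain ⟨s, τ, h0, H⟩ := Plk.exists_sec hp hy.1
    obtain ⟨s', τ', h0', H'⟩ := Plk.exists_sec hp hy.2
    exact ⟨_, _, _, (Plk.f_iff y).2 ⟨h0, h0'⟩, Plk.chart H H' hp⟩

theorem ext_mem_hat {Q : Pr K (V2 n l)} :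
    extZ Bool ∅ Q ∈ hat (Et K q w) ↔ Q ∈ hat (sq2 (DU K q w)) := by
  rw [Plk.et_eq, mem_hat_ne (Plk.lc_sq.prodA Bool), mem_hat_prodA Plk.lc_sq, down_extZ]
  refine and_iff_left fun h => ?_
  rcases (extZ Bool ∅ Q).isPrime.mem_or_mem h with h | h <;> exact X_mem_extZ.1 h

theorem ext_stable {Q : Pr K (V2 n l)}
    (h : Stable (BsetA (Fin (l + 1) ⊕ Fin (l + 1)) (n + 1)) Q) :
    Stable (Gt K n l) (extZ Bool ∅ Q) := by
  rintro γ ⟨γ₀, h0, u, h1, -⟩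
  refine act_eq_of_pts (Y := Set.univ) (fun _ => Iff.rfl) (mem_hat_univ _) fun x _ => ?_
  rw [mem_Vp_extZ, mem_Vp_extZ, Plk.pt_inl h1, pts_of_act_eq (h γ₀ h0)]
  simp

end Pool.Agent.Lib.MP_557161_ag.TU
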