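import Pool.Agent.Lib.MP_557161_ag.TU.PDefs
import Pool.Agent.Lib.MP_557161_ag.TU.UModelB
import Pool.Agent.Lib.MP_60ec62_ag.DL.Reg

/-!
Local sections of the Pluecker-Segre map.
-/

noncomputable section

namespace Pool.Agent.Lib.MP_557161_ag.TU

open MvPolynomial Pool.Agent.Lib.MP_60ec62_ag.DL Matrix
open Pool.Agent.Lib.MP_557161_ag.DL (Idx plk coneU IsChainU)
open Pool.Agent.Lib.MP_557161_ag.DL.Model (cols plk' Fl mat_plk cols_mul)
open Pool.Agent.Lib.MP_557161_ag.DL.Model.ModelD (rs sub_iff rank_norm exists_minor)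

variable {K : Type} [Field K] {n l p q : ℕ} [Fact p.Prime] [CharP K p] {w : Fin l → Fin n}

namespace SecX

omit [Fact p.Prime] [CharP K p]

/-- The first columns of a matrix, written as rows. -/
def fc (g : Matrix (Fin (n + 1)) (Fin (n + 1)) K) (i : Fin (n + 1)) :
    Matrix (Fin i) (Fin (n + 1)) K := Matrix.of fun c r => g r (c.castLE i.2.le)

lemma le_of (g β : Matrix (Fin (n + 1)) (Fin (n + 1)) K) (i : Fin (n + 1))
    (h : ∀ r c : Fin (n + 1), c.1 < i → i ≤ r → β r c = 0) : rs (fc (g * β) i) ≤ rs (fc g i) := by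
  refine Submodule.span_le.2 ?_
  rintro _ ⟨c, rfl⟩
  have e : (fc (g * β) i).row c = ∑ r, β r (c.castLE i.2.le) • g.col r := by
    funext a
    simp [fc, Matrix.mul_apply, mul_comm]
  rw [e]
  refine Submodule.sum_mem _ fun r _ => ?_
  by_cases hr : r.1 < i
  · exact Submodule.smul_mem _ _ (Submodule.subset_span ⟨⟨r, hr⟩, rfl⟩)
  · rw [h r _ c.2 (not_lt.1 hr), zero_smul]
    exact Submodule.zero_mem _

lemma of_le {g g' : Matrix (Fin (n + 1)) (Fin (n + 1)) K} (hg : g.det ≠ 0) (i : Fin (n + 1))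
    (h : rs (fc g' i) ≤ rs (fc g i)) (r c : Fin (n + 1)) (hc : c.1 < i) (hr : i ≤ r) :
    (g⁻¹ * g') r c = 0 := by
  obtain ⟨C, hC⟩ := sub_iff.2 h
  have e : ∀ a, g' a c = ∑ b : Fin i, g a (b.castLE i.2.le) * C ⟨c, hc⟩ b := fun a => by
    have := congrFun (congrFun hC ⟨c, hc⟩) a
    simpa [fc, Matrix.mul_apply, mul_comm] using this
  have e1 : g⁻¹ * g = 1 := nonsing_inv_mul _ (isUnit_iff_ne_zero.2 hg)
  simp only [Matrix.mul_apply, e, Finset.mul_sum, ← mul_assoc]
  rw [Finset.sum_comm]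
  refine Finset.sum_eq_zero fun b _ => ?_
  rw [← Finset.sum_mul, ← Matrix.mul_apply, e1, Matrix.one_apply_ne, zero_mul]
  intro e
  have := b.2
  have h2 : r.1 = b.1 := congrArg Fin.val e
  have : i.1 ≤ r.1 := hr
  omega

lemma rank_fc {g : Matrix (Fin (n + 1)) (Fin (n + 1)) K} (hg : g.det ≠ 0) (i : Fin (n + 1)) :
    Module.finrank K (rs (fc g i)) = i := by
  rw [finrank_span_eq_card, Fintype.card_fin]
  exact (linearIndependent_cols_iff_isUnit.2 ((isUnit_iff_isUnit_det _).2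
    (isUnit_iff_ne_zero.2 hg))).comp _ (Fin.castLE_injective i.2.le)

lemma mono_fc (g : Matrix (Fin (n + 1)) (Fin (n + 1)) K) : Monotone fun i => rs (fc g i) := by
  intro i i' h
  refine Submodule.span_mono ?_
  rintro _ ⟨c, rfl⟩
  exact ⟨c.castLE h, rfl⟩

lemma adj {g g' : Matrix (Fin (n + 1)) (Fin (n + 1)) K} (hg : g.det ≠ 0) (hg' : g'.det ≠ 0)
    (s : Fin n) : Adj (s.1 + 1) g g' ↔ ∀ i, i ≠ s.succ → rs (fc g i) = rs (fc g' i) := by
  have e : ∀ r c, (g.adjugate * g') r c = 0 ↔ (g⁻¹ * g') r c = 0 := fun r c => by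
    rw [Matrix.inv_def, Matrix.smul_mul, Matrix.smul_apply, Ring.inverse_eq_inv', smul_eq_mul,
      mul_eq_zero, or_iff_right (inv_ne_zero hg)]
  constructor
  · intro h i hi
    refine (Submodule.eq_of_le_of_finrank_eq ?_ ((rank_fc hg' i).trans (rank_fc hg i).symm)).symm
    have e1 : g' = g * (g⁻¹ * g') := by
      rw [← Matrix.mul_assoc, mul_nonsing_inv _ (isUnit_iff_ne_zero.2 hg), Matrix.one_mul]
    rw [e1]
    refine le_of _ _ _ fun r c hc hr => (e r c).1 (h r c (lt_of_lt_of_le hc hr) fun h2 => hi ?_)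
    have : i.1 ≤ r.1 := hr
    exact Fin.ext (by rw [Fin.val_succ]; omega)
  · intro h r c hc h2
    have hc' : c.1 < r.1 := hc
    by_cases hr : r = s.succ
    · have h3 : r.1 = s.1 + 1 := by rw [hr, Fin.val_succ]
      refine (e r c).2 (of_le hg ⟨c.1 + 1, by omega⟩ (h _ fun h4 => h2 ⟨h3, ?_⟩).ge r c
        (Nat.lt_succ_self _) hc)
      exact congrArg Fin.val h4
    · exact (e r c).2 (of_le hg r (h r hr).ge r c hc le_rfl)

lemma rk {M : Matrix (Fin (n + 1)) (Fin (n + 1)) K} :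
    (∀ i j, rkM M i j ≤ i + j - (n + 1)) ↔ ∀ r c : Fin (n + 1), r.1 + c.1 < n → M r c = 0 := by
  constructor
  · intro h r c hrc
    have h1 := h (r.1 + 1) (c.1 + 1)
    rw [show r.1 + 1 + (c.1 + 1) - (n + 1) = 0 by omega, Nat.le_zero, rkM,
      rank_eq_finrank_span_cols, Submodule.finrank_eq_zero, Submodule.span_eq_bot] at h1
    exact congrFun (h1 _ ⟨⟨c, Nat.lt_succ_self _⟩, rfl⟩) ⟨r, Nat.lt_succ_self _⟩
  · intro h i j
    classical
    rw [rkM, rank_eq_finrank_span_cols]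
    generalize hN : M.submatrix (Subtype.val : {a : Fin (n + 1) // a.1 < i} → Fin (n + 1))
      (Subtype.val : {b : Fin (n + 1) // b.1 < j} → Fin (n + 1)) = N
    obtain ⟨T, hT⟩ : ∃ T : Finset {b : Fin (n + 1) // b.1 < j}, ∀ b, b ∈ T ↔ n + 1 - i ≤ b.1.1 :=
      ⟨Finset.univ.filter fun b => n + 1 - i ≤ b.1.1, by simp⟩
    have h1 : Submodule.span K (Set.range N.col) ≤
        Submodule.span K (Set.range fun b : T => N.col b.1) := by
      refine Submodule.span_le.2 ?_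
      rintro _ ⟨b, rfl⟩
      by_cases hb : n + 1 - i ≤ b.1.1
      · exact Submodule.subset_span ⟨⟨b, (hT b).2 hb⟩, rfl⟩
      · subst hN
        refine Set.mem_of_eq_of_mem (funext fun a => h a.1 b.1 ?_) (Submodule.zero_mem _)
        have := a.2
        omega
    have h2 : T.card ≤ (Finset.Ico (n + 1 - i) (min j (n + 1))).card :=
      Finset.card_le_card_of_injOn (fun b => b.1.1) (fun b hb => Finset.mem_coe.2
        (Finset.mem_Ico.2 ⟨(hT b).1 hb, lt_min b.2 b.1.2⟩)) fun b _ b' _ e => Subtype.ext (Fin.ext e)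
    have h3 := finrank_range_le_card (R := K) fun b : T => N.col b.1
    rw [Fintype.card_coe] at h3
    rw [Nat.card_Ico] at h2
    refine (Submodule.finrank_mono h1).trans (h3.trans (h2.trans ?_))
    by_cases hi : i ≤ n + 1 <;> omega

lemma prop {b b' : Fin (l + 1) → Fl (Fin (n + 1)) n K} (h : ∀ j i, rs (b' j i) ≤ rs (b j i)) :
    ∃ c : K, plk' b' = c • plk' b := by
  choose C hC using fun j i => sub_iff.2 (h j i)
  refine ⟨∏ j, ∏ i, (C j i).det, funext fun t => ?_⟩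
  simp only [plk', hC, cols_mul, det_mul, Finset.prod_mul_distrib, Pi.smul_apply, smul_eq_mul]

lemma norm {A : Fin (l + 1) → Fl (Fin (n + 1)) n K} {c : K} {s : Ix n l}
    (h : (c • plk' A) s ≠ 0) :
    (∀ j i, cols (DL.Model.mat s (((c • plk' A) s)⁻¹ • c • plk' A) j i) (s j i) = 1) ∧
    (∀ j i, rs (DL.Model.mat s (((c • plk' A) s)⁻¹ • c • plk' A) j i) = rs (A j i)) ∧
    ((c • plk' A) s)⁻¹ • c • plk' A =
      plk' (DL.Model.mat s (((c • plk' A) s)⁻¹ • c • plk' A)) := by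
  have h2 : c * ∏ j, ∏ i, (cols (A j i) (s j i)).det ≠ 0 := h
  have hu : ∀ j i, IsUnit (cols (A j i) (s j i)).det := fun j i => isUnit_iff_ne_zero.2
    (Finset.prod_ne_zero_iff.1 (Finset.prod_ne_zero_iff.1 (right_ne_zero_of_mul h2) j
      (Finset.mem_univ j)) i (Finset.mem_univ i))
  obtain ⟨M, hM⟩ : ∃ M : Fin (l + 1) → Fl (Fin (n + 1)) n K,
    ∀ j i, M j i = (cols (A j i) (s j i))⁻¹ * A j i := ⟨_, fun _ _ => rfl⟩
  have h : ∀ j i, cols (M j i) (s j i) = 1 := fun j i => by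
    rw [hM, cols_mul, nonsing_inv_mul _ (hu j i)]
  have e1 : ((c • plk' A) s)⁻¹ • c • plk' A = plk' M := by
    funext t
    simp only [plk', hM, cols_mul, det_mul, det_nonsing_inv, Ring.inverse_eq_inv',
      Finset.prod_mul_distrib, Finset.prod_inv_distrib, Pi.smul_apply, smul_eq_mul]
    rw [mul_inv, mul_comm c⁻¹, mul_assoc, inv_mul_cancel_left₀ (left_ne_zero_of_mul h2)]
  rw [e1, mat_plk h]
  refine ⟨h, fun j i => ?_, rfl⟩
  refine le_antisymm (sub_iff.1 ⟨_, hM j i⟩) (sub_iff.1 ⟨cols (A j i) (s j i), ?_⟩)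
  rw [hM, ← Matrix.mul_assoc, mul_nonsing_inv _ (hu j i), Matrix.one_mul]

lemma nested {E : Fin (n + 1) → Submodule K (Fin (n + 1) → K)} (hm : Monotone E)
    (hr : ∀ i, Module.finrank K (E i) = i) (m : ℕ) (h : m < n + 1) : ∃ t : ℕ → Fin (n + 1),
      ∀ i : Fin (n + 1), i.1 ≤ m → ∀ v ∈ E i, (∀ c, c < i.1 → v (t c) = 0) → v = 0 := by
  induction m with
  | zero =>
    refine ⟨fun _ => 0, fun i hi v hv _ => ?_⟩
    have h1 := hr i
    rw [Nat.le_zero.1 hi, Submodule.finrank_eq_zero] at h1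
    rwa [h1] at hv
  | succ m ih =>
    obtain ⟨t, ht⟩ := ih (by omega)
    let W : Submodule K (Fin (n + 1) → K) := E ⟨m + 1, h⟩ ⊓
      ⨅ c : Fin m, LinearMap.ker (LinearMap.proj (R := K) (φ := fun _ => K) (t c))
    have hW : ∀ v, v ∈ W ↔ v ∈ E ⟨m + 1, h⟩ ∧ ∀ c, c < m → v (t c) = 0 := fun v => by
      simp only [W, Submodule.mem_inf, Submodule.mem_iInf, LinearMap.mem_ker, LinearMap.proj_apply]
      exact and_congr_right' ⟨fun h c hc => h ⟨c, hc⟩, fun h c => h c c.2⟩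
    have h1 : W ⊓ E ⟨m, by omega⟩ = ⊥ := eq_bot_iff.2 fun v hv =>
      ht ⟨m, by omega⟩ le_rfl v hv.2 ((hW v).1 hv.1).2
    have h2 := Submodule.finrank_sup_add_finrank_inf_eq W (E ⟨m, by omega⟩)
    have h3 : Module.finrank K ↥(W ⊔ E ⟨m, by omega⟩) ≤ m + 1 := le_trans (Submodule.finrank_mono
      (sup_le inf_le_left (hm (Fin.mk_le_mk.2 (Nat.le_succ m))))) (hr ⟨m + 1, h⟩).le
    rw [h1, finrank_bot, hr] at h2
    obtain ⟨v₀, h4⟩ := finrank_le_one_iff.1 (show Module.finrank K W ≤ 1 by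
      simp only at h2; omega)
    obtain ⟨r, h5⟩ : ∃ r, v₀.1 r = 0 → v₀.1 = 0 := by
      by_cases h0 : v₀.1 = 0
      · exact ⟨0, fun _ => h0⟩
      · obtain ⟨r, h5⟩ := Function.ne_iff.1 h0
        exact ⟨r, fun h6 => absurd h6 h5⟩
    refine ⟨Function.update t m r, fun i hi v hv h6 => ?_⟩
    rcases Nat.lt_or_eq_of_le hi with h7 | h7
    · refine ht i (by omega) v hv fun c hc => ?_
      have := h6 c hc
      rwa [Function.update_of_ne (by omega)] at this
    · obtain rfl : i = ⟨m + 1, h⟩ := Fin.ext h7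
      obtain ⟨a, ha⟩ := h4 ⟨v, (hW v).2 ⟨hv, fun c hc => by
        have := h6 c (by simp only; omega)
        rwa [Function.update_of_ne (by omega)] at this⟩⟩
      have e : a • v₀.1 = v := congrArg Subtype.val ha
      have h8 := h6 m (Nat.lt_succ_self m)
      rw [Function.update_self, ← e, Pi.smul_apply, smul_eq_mul, mul_eq_zero] at h8
      rcases h8 with h8 | h8
      · rw [← e, h8, zero_smul]
      · rw [← e, h5 h8, smul_zero]

lemma perm {A : Fl (Fin (n + 1)) n K} (hm : Monotone fun i => rs (A i))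
    (hr : ∀ i, Module.finrank K (rs (A i)) = i) : ∃ t : Fin (n + 1) → Fin (n + 1),
      (∀ c, c ≠ Fin.last n → t c ≠ t (Fin.last n)) ∧
        ∀ i, (cols (A i) fun c => t (c.castLE i.2.le)).det ≠ 0 := by
  obtain ⟨t, ht⟩ := nested hm hr n (Nat.lt_succ_self n)
  obtain ⟨r, h1⟩ : ∃ r, ∀ c : Fin n, t c ≠ r := by
    by_contra h
    push Not at h
    have := Fintype.card_le_of_surjective (fun c : Fin n => t c) h
    simp at this
  refine ⟨fun c => if c.1 < n then t c else r, fun c hc => ?_, fun i h0 => ?_⟩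
  · have h2 : c.1 < n := Fin.val_lt_last hc
    simp only [h2, if_true, Fin.val_last, lt_irrefl, if_false]
    exact h1 ⟨c, h2⟩
  · obtain ⟨u, hu, h2⟩ := Matrix.exists_vecMul_eq_zero_iff.2 h0
    have hli : LinearIndependent K (A i).row := by
      rw [linearIndependent_iff_card_eq_finrank_span, Fintype.card_fin]
      exact (hr i).symm
    refine hu (funext (Fintype.linearIndependent_iff.1 hli u (ht i (Nat.lt_succ_iff.1 i.2) _
      (Submodule.sum_mem _ fun a _ => Submodule.smul_mem _ _ (Submodule.subset_span ⟨a, rfl⟩))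
      fun c hc => ?_)))
    have h3 := congrFun h2 ⟨c, hc⟩
    have h4 : c < n := by have := i.2; omega
    simpa [Matrix.vecMul, dotProduct, h4] using h3

/-- The section. -/
def tau (t : Fin (l + 1) → Fin (n + 1) → Fin (n + 1)) (M : Fin (l + 1) → Fl (Fin (n + 1)) n K) :
    V1 n l → K := fun v =>
  if h : v.2.2.1 < n then M v.1 ⟨v.2.2.1 + 1, Nat.succ_lt_succ h⟩ ⟨v.2.2.1, Nat.lt_succ_self _⟩ v.2.1
  else if v.2.1 = t v.1 (Fin.last n) then 1 else 0

variable {t : Fin (l + 1) → Fin (n + 1) → Fin (n + 1)} {M : Fin (l + 1) → Fl (Fin (n + 1)) n K}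

lemma tau_tri (ht : ∀ a c, c ≠ Fin.last n → t a c ≠ t a (Fin.last n))
    (h : ∀ j i, cols (M j i) (fun c : Fin i => t j (c.castLE i.2.le)) = 1) (a : Fin (l + 1))
    (r c : Fin (n + 1)) (hc : r ≤ c) : tau t M (a, (t a r, c)) = if r = c then 1 else 0 := by
  have hc' : r.1 ≤ c.1 := hc
  by_cases h1 : c.1 < n
  · have := congrFun (congrFun (h a ⟨c.1 + 1, Nat.succ_lt_succ h1⟩) ⟨c.1, Nat.lt_succ_self _⟩)
      ⟨r.1, Nat.lt_succ_of_le hc'⟩
    rw [tau, dif_pos h1]
    refine this.trans ?_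
    simp only [Matrix.one_apply, Fin.ext_iff, eq_comm]
  · obtain rfl : c = Fin.last n := Fin.ext (by have := c.2; simp only [Fin.val_last]; omega)
    rw [tau, dif_neg h1]
    by_cases h2 : r = Fin.last n
    · simp [h2]
    · simp [h2, ht a r h2]

lemma det_one {m : ℕ} {A : Matrix (Fin m) (Fin m) K}
    (h : ∀ r c, r ≤ c → A r c = if r = c then 1 else 0) : A.det = 1 := by
  rw [det_of_isLowerTriangular A fun r c hc => by
    have h1 : r < c := hc
    rw [h r c h1.le, if_neg h1.ne]]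
  exact Finset.prod_eq_one fun r _ => by rw [h r r le_rfl, if_pos rfl]

lemma tau_det (ht : ∀ a c, c ≠ Fin.last n → t a c ≠ t a (Fin.last n))
    (h : ∀ j i, cols (M j i) (fun c : Fin i => t j (c.castLE i.2.le)) = 1) (a : Fin (l + 1)) :
    (matA (tau t M) a).det ≠ 0 := by
  have e : (matA (tau t M) a).submatrix (t a) id =
      (1 : Matrix (Fin (n + 1)) (Fin (n + 1)) K).submatrix (t a) id * matA (tau t M) a := by
    ext r c
    simp [Matrix.mul_apply, Matrix.one_apply]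
  have h1 : ((matA (tau t M) a).submatrix (t a) id).det = 1 := det_one (tau_tri ht h a)
  rw [e, det_mul] at h1
  exact right_ne_zero_of_mul_eq_one h1

lemma tau_rs (ht : ∀ a c, c ≠ Fin.last n → t a c ≠ t a (Fin.last n))
    (h : ∀ j i, cols (M j i) (fun c : Fin i => t j (c.castLE i.2.le)) = 1)
    (hm : ∀ j, Monotone fun i => rs (M j i)) (a : Fin (l + 1)) (i : Fin (n + 1)) :
    rs (fc (matA (tau t M) a) i) = rs (M a i) := by
  refine Submodule.eq_of_le_of_finrank_eq (Submodule.span_le.2 ?_)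
    ((rank_fc (tau_det ht h a) i).trans (rank_norm (h a i)).symm)
  rintro _ ⟨c, rfl⟩
  have h1 : c.1 < n := by have := c.2; have := i.2; omega
  refine hm a (show (⟨c.1 + 1, Nat.succ_lt_succ h1⟩ : Fin (n + 1)) ≤ i from c.2)
    (Submodule.subset_span ⟨⟨c.1, Nat.lt_succ_self _⟩, funext fun r => ?_⟩)
  show _ = tau t M (a, (r, c.castLE i.2.le))
  have h2 : ((a, (r, c.castLE i.2.le)) : V1 n l).2.2.1 < n := h1
  rw [tau, dif_pos h2]
  rfl

lemma tau_plk (ht : ∀ a c, c ≠ Fin.last n → t a c ≠ t a (Fin.last n))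
    (h : ∀ j i, cols (M j i) (fun c : Fin i => t j (c.castLE i.2.le)) = 1)
    (hm : ∀ j, Monotone fun i => rs (M j i)) : plk (colb (tau t M)) = plk' M := by
  obtain ⟨c, hc⟩ := prop (b := M) (b' := fun a i => fc (matA (tau t M) a) i)
    fun a i => (tau_rs ht h hm a i).le
  have h1 := congrFun hc fun j i c => t j (c.castLE i.2.le)
  have h2 : ∀ j i, (cols (fc (matA (tau t M) j) i) fun c => t j (c.castLE i.2.le)).det = 1 :=
    fun j i => by
      rw [← det_transpose]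
      refine det_one fun r c hc => (tau_tri ht h j (r.castLE i.2.le) (c.castLE i.2.le) hc).trans ?_
      simp only [Fin.ext_iff, Fin.val_castLE]
  simp only [plk', h, h2, Matrix.det_one, Finset.prod_const_one, Pi.smul_apply, smul_eq_mul,
    mul_one] at h1
  rw [← h1, one_smul] at hc
  exact hc

end SecX

open SecX

theorem mem_DU (hp : IsPP p q) (x : V1 n l → K) : x ∈ DU K q w ↔ (∀ a, (matA x a).det ≠ 0) ∧
    IsChainU q w fun j i => Submodule.span K (Set.range (colb x j i)) := by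
  have hq0 : q ≠ 0 := by
    obtain ⟨e, -, rfl⟩ := hp
    exact pow_ne_zero _ (Fact.out : p.Prime).ne_zero
  have ho : ∀ i i' : Fin (n + 1), (∀ u ∈ rs (fc (matA x (Fin.last l)) i),
      ∀ v ∈ rs (fc (matA x 0) i'), ∑ r, u r * v r ^ q = 0) ↔ ∀ (r : Fin i) (c : Fin i'),
        gramA q x (Fin.last l) (r.castLE i.2.le) (c.castLE i'.2.le) = 0 := fun i i' => by
    rw [← DL.UModel.orth_pow_iff hp.add_pow hq0, ← Matrix.ext_iff]
    rfl
  have e : (fun j i => Submodule.span K (Set.range (colb x j i))) =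
      fun j i => rs (fc (matA x j) i) := rfl
  rw [e]
  constructor
  · rintro ⟨⟨h1, h2⟩, h3⟩
    refine ⟨h1, fun j => ⟨mono_fc (matA x j), fun i => rank_fc (h1 j) i⟩,
      fun j => (adj (h1 j.castSucc) (h1 j.succ) (w j)).1 (h2 j),
      fun i i' hi => (ho i i').2 fun r c => ?_⟩
    refine (rk (M := gramA q x (Fin.last l))).1 h3 _ _ ?_
    have := r.2
    have := c.2
    simp only [Fin.val_castLE]
    omega
  · rintro ⟨h1, -, h2, h3⟩
    refine ⟨⟨h1, fun j => (adj (h1 j.castSucc) (h1 j.succ) (w j)).2 (h2 j)⟩,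
      (rk (M := gramA q x (Fin.last l))).2 fun r c hrc => ?_⟩
    exact (ho ⟨r.1 + 1, by omega⟩ ⟨n - r.1, by omega⟩).1 (h3 _ _ (by simp only; omega))
      ⟨r.1, Nat.lt_succ_self _⟩ ⟨c.1, by simp only; omega⟩

theorem plk_mem (hp : IsPP p q) {x : V1 n l → K} (hx : x ∈ DU K q w) :
    plk (colb x) ∈ coneU K q w ∧ plk (colb x) ≠ 0 := by
  have h := ((mem_DU hp x).1 hx).2
  refine ⟨⟨1, colb x, h, (one_smul _ _).symm⟩, fun h0 => ?_⟩
  choose s hs using fun j i => exists_minor (A := Matrix.of (colb x j i)) ((h.1 j).2 i)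
  exact Finset.prod_ne_zero_iff.2 (fun j _ => Finset.prod_ne_zero_iff.2 fun i _ => hs j i)
    (congrFun h0 s)

omit [Fact p.Prime] [CharP K p] in
theorem plk_mul {x x' : V1 n l → K} {β : Fin (l + 1) → Matrix (Fin (n + 1)) (Fin (n + 1)) K}
    (hβ : ∀ a, (β a).BlockTriangular id ∧ (β a).det ≠ 0) (h : ∀ a, matA x' a = matA x a * β a) :
    ∃ c : K, c ≠ 0 ∧ plk (colb x') = c • plk (colb x) := by
  obtain ⟨c, hc⟩ := prop (b := fun a i => fc (matA x a) i) (b' := fun a i => fc (matA x' a) i)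
    fun a i => by
      rw [h]
      exact le_of _ _ _ fun r c h1 h2 => (hβ a).1 (lt_of_lt_of_le h1 h2)
  obtain ⟨c', hc'⟩ := prop (b := fun a i => fc (matA x' a) i) (b' := fun a i => fc (matA x a) i)
    fun a i => by
      have := Matrix.invertibleOfIsUnitDet _ (isUnit_iff_ne_zero.2 (hβ a).2)
      have e : matA x a = matA x' a * (β a)⁻¹ := by
        rw [h, Matrix.mul_assoc, mul_nonsing_inv _ (isUnit_iff_ne_zero.2 (hβ a).2), Matrix.mul_one]
      rw [e]
      exact le_of _ _ _ fun r c h1 h2 =>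
        blockTriangular_inv_of_blockTriangular (hβ a).1 (lt_of_lt_of_le h1 h2)
  by_cases h0 : c = 0
  · refine ⟨1, one_ne_zero, ?_⟩
    rw [h0, zero_smul] at hc
    rw [hc, smul_zero] at hc'
    exact hc.trans (hc'.symm.trans (one_smul _ _).symm)
  · exact ⟨c, h0, hc⟩

theorem sec (hp : IsPP p q) {y₀ : Ix n l → K} (h : y₀ ∈ coneU K q w) (h0 : y₀ ≠ 0) :
    ∃ (s : Ix n l) (τ : (Ix n l → K) → V1 n l → K), y₀ s ≠ 0 ∧
      RegMap {y | y s ≠ 0} τ ∧
      (∀ y ∈ coneU K q w, y s ≠ 0 → τ y ∈ DU K q w ∧ y = y s • plk (colb (τ y))) ∧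
      ∀ x ∈ DU K q w, ∀ c : K, (c • plk (colb x)) s ≠ 0 → ∀ a,
        ((matA (τ (c • plk (colb x))) a)⁻¹ * matA x a).BlockTriangular id := by
  obtain ⟨c₀, b₀, hb₀, rfl⟩ := h
  choose t ht hd using fun j => perm (A := fun i => Matrix.of (b₀ j i)) (hb₀.1 j).1 (hb₀.1 j).2
  let s : Ix n l := fun j i c => t j (c.castLE i.2.le)
  refine ⟨s, fun y => tau t (DL.Model.mat s ((y s)⁻¹ • y)), ?_, fun v => ?_, ?_, ?_⟩
  · exact mul_ne_zero (fun e => h0 (by rw [e, zero_smul]))
      (Finset.prod_ne_zero_iff.2 fun j _ => Finset.prod_ne_zero_iff.2 fun i _ => hd j i)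
  · by_cases h1 : v.2.2.1 < n
    · simp only [tau, dif_pos h1]
      exact ((RegF.coord s).inv fun x hx => hx).mul (RegF.coord _)
    · simp only [tau, dif_neg h1]
      exact RegF.ite _ (fun _ => RegF.one) fun _ => RegF.zero
  · rintro _ ⟨c, b, hb, rfl⟩ hy
    obtain ⟨A, hA⟩ : ∃ A : Fin (l + 1) → Fl (Fin (n + 1)) n K,
      A = fun j i => Matrix.of (b j i) := ⟨_, rfl⟩
    replace hb : IsChainU q w fun j i => rs (A j i) := hA ▸ hb
    have e0 : plk b = plk' A := by rw [hA]; rfl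
    rw [e0] at hy ⊢
    obtain ⟨h1, h2, h3⟩ := norm hy
    beta_reduce
    generalize DL.Model.mat s (((c • plk' A) s)⁻¹ • c • plk' A) = M at h1 h2 h3 ⊢
    have hm : ∀ j, Monotone fun i => rs (M j i) := fun j i i' hi =>
      (h2 j i).le.trans (((hb.1 j).1 hi).trans (h2 j i').ge)
    refine ⟨(mem_DU hp _).2 ⟨tau_det ht h1, ?_⟩, ?_⟩
    · have e : (fun j i => Submodule.span K (Set.range (colb (tau t M) j i))) =
          fun j i => rs (A j i) := by
        funext j i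
        rw [← h2 j i, ← tau_rs ht h1 hm j i]
        rfl
      rw [e]
      exact hb
    · rw [tau_plk ht h1 hm, ← h3, smul_inv_smul₀ hy]
  · intro x hx c hy a r c' hc
    have e : plk (colb x) = plk' fun j i => fc (matA x j) i := rfl
    rw [e] at hy ⊢
    obtain ⟨h1, h2, -⟩ := norm hy
    have hm := fun j (i i' : Fin (n + 1)) (hi : i ≤ i') =>
      (h2 j i).le.trans ((mono_fc (matA x j) hi).trans (h2 j i').ge)
    exact of_le (tau_det ht h1 a) r ((tau_rs ht h1 hm a r).trans (h2 a r)).ge r c' hc le_rfl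

end Pool.Agent.Lib.MP_557161_ag.TU
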