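import Pool.Agent.Lib.MP_557161_ag.TU.T1a
import Pool.Agent.Lib.MP_557161_ag.TU.T1b
import Pool.Agent.Lib.MP_557161_ag.DL.T0
import Pool.Agent.Lib.MP_557161_ag.DW.Count
import Pool.Agent.Lib.MP_557161_ag.DW.Rec

/-!
The conjecture of Tate for a smooth projective scheme over the prime field such that a polynomial
in the graph of Frobenius is rationally equivalent to a combination of products.
-/

namespace Pool.Agent.Lib.MP_557161_ag.DL

namespace T1

open Polynomial Finset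

/-- The shift of sequences. -/
noncomputable def sh : Module.End ℚ (ℕ → ℚ) := LinearMap.funLeft ℚ ℚ Nat.succ

lemma sh_pow (j : ℕ) (c : ℕ → ℚ) (t : ℕ) : (sh ^ j) c t = c (j + t) := by
  induction j generalizing t with
  | zero => simp
  | succ j ih =>
    rw [pow_succ', Module.End.mul_apply]
    exact (ih (t + 1)).trans (congrArg c (by omega))

lemma aeval_sh (f : ℚ[X]) (c : ℕ → ℚ) (t : ℕ) :
    aeval sh f c t = f.sum fun j a => a * c (j + t) := by
  rw [aeval_endomorphism, Polynomial.sum, Polynomial.sum, Finset.sum_apply]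
  exact sum_congr rfl fun j _ => by rw [Pi.smul_apply, sh_pow, smul_eq_mul]

lemma expand {p : ℕ} [Fact p.Prime] {a : ℕ → ℕ} (ha : DW.Mer fun t => (a t : ℂ_[p]))
    {f : ℚ[X]} (hf0 : f.coeff 0 ≠ 0) {d R : ℕ} (hR : 0 < R) {tr : ℕ → ℕ → ℚ}
    (h1 : ∀ t, 0 < t → (f.sum fun j c => c * ((a (j + t) : ℚ) -
      ∑ n ∈ range (d + 1), ((p : ℚ) ^ n) ^ (j + t) * tr n (j + t))) = 0)
    {ω : ℂ} (hω : ω ^ R = 1) {μ : ℕ → ℕ → ℕ}
    (hμ : ∀ n m, (tr n m : ℂ) = ∑ j ∈ range R, μ n j * ω ^ (j * m)) :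
    ∃ (S : Finset ℂ) (ν : ℂ → ℤ), (∀ z ∈ S, z ≠ 0 → ν z ≠ 0 → aeval z f = 0) ∧
      ∀ t, 0 < t → (a t : ℂ) = ∑ n ∈ range (d + 1), ((p : ℂ) ^ n) ^ t * tr n t +
        ∑ z ∈ S, ν z * z ^ t := by
  classical
  have hp : (p : ℚ) ≠ 0 := Nat.cast_ne_zero.2 (Fact.out : p.Prime).ne_zero
  let h : ℚ[X] := ∏ n ∈ range (d + 1), (X ^ R - C (((p : ℚ) ^ n) ^ R))
  let b : ℕ → ℕ → ℚ := fun n t => ((p : ℚ) ^ n) ^ t * tr n t
  have hper : ∀ n t, tr n (R + t) = tr n t := fun n t => by
    apply Rat.cast_injective (α := ℂ)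
    rw [hμ, hμ]
    refine sum_congr rfl fun j _ => ?_
    rw [mul_add, pow_add, mul_comm j R, pow_mul, hω, one_pow, one_mul]
  have h2 : aeval sh h (∑ n ∈ range (d + 1), b n) = 0 := by
    rw [map_sum]
    refine sum_eq_zero fun n hn => ?_
    obtain ⟨c, hc⟩ : (X ^ R - C (((p : ℚ) ^ n) ^ R)) ∣ h := dvd_prod_of_mem _ hn
    have h3 : aeval sh (X ^ R - C (((p : ℚ) ^ n) ^ R)) (b n) = 0 := by
      funext t
      rw [map_sub, map_pow, aeval_X, aeval_C, LinearMap.sub_apply, Pi.sub_apply, sh_pow,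
        Module.algebraMap_end_apply, Pi.smul_apply, smul_eq_mul, Pi.zero_apply]
      simp only [b]
      rw [hper, pow_add]
      ring
    rw [hc, mul_comm, map_mul, Module.End.mul_apply, h3, map_zero]
  have h3 : aeval sh (X * f) ((fun t => (a t : ℚ)) - ∑ n ∈ range (d + 1), b n) = 0 := by
    funext t
    rw [map_mul, aeval_X, Module.End.mul_apply, Pi.zero_apply, ← h1 (t + 1) t.succ_pos]
    refine (aeval_sh f _ (t + 1)).trans ?_
    simp only [Pi.sub_apply, Finset.sum_apply, b]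
  have h4 : aeval sh (X * (f * h)) (fun t => (a t : ℚ)) = 0 := by
    rw [← sub_add_cancel (fun t => (a t : ℚ)) (∑ n ∈ range (d + 1), b n), map_add]
    nth_rw 1 [show X * (f * h) = h * (X * f) by ring]
    rw [← mul_assoc X, map_mul, map_mul _ (X * f), Module.End.mul_apply, Module.End.mul_apply, h2,
      h3, map_zero, map_zero, add_zero]
  obtain ⟨S, ν, h5⟩ := DW.Mer.expand_complex (p := p) (a := fun t => (a t : ℤ))
    (by simpa only [Int.cast_natCast] using ha) (g := f * h) (by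
      rw [mul_coeff_zero, coeff_zero_eq_eval_zero h, eval_prod]
      refine mul_ne_zero hf0 (prod_ne_zero_iff.2 fun n _ => ?_)
      simp [hR.ne', hp]) fun t ht => by
      obtain ⟨t, rfl⟩ := Nat.exists_eq_succ_of_ne_zero ht.ne'
      have h5 := congrFun h4 t
      rw [map_mul, aeval_X, Module.End.mul_apply] at h5
      exact (aeval_sh (f * h) (fun t => (a t : ℚ)) (t + 1)).symm.trans h5
  let w : ℂ →₀ ℤ := ∑ z ∈ S, Finsupp.single z (ν z) -
    ∑ n ∈ range (d + 1), ∑ j ∈ range R, Finsupp.single ((p : ℂ) ^ n * ω ^ j) (μ n j : ℤ)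
  have h6 : ∀ t, 0 < t → ∑ z ∈ w.support, (w z : ℂ) * z ^ t =
      (a t : ℂ) - ∑ n ∈ range (d + 1), ((p : ℂ) ^ n) ^ t * tr n t := fun t ht => by
    have h7 : ∑ z ∈ w.support, (w z : ℂ) * z ^ t =
        Finsupp.linearCombination ℤ (fun z : ℂ => z ^ t) w := by
      rw [Finsupp.linearCombination_apply, Finsupp.sum]
      exact sum_congr rfl fun z _ => (zsmul_eq_mul _ _).symm
    have h8 := h5 t ht
    rw [Int.cast_natCast] at h8
    rw [h7, h8]
    simp only [w, map_sub, map_sum, Finsupp.linearCombination_single, zsmul_eq_mul, hμ, mul_sum]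
    congr 1
    refine sum_congr rfl fun n _ => sum_congr rfl fun j _ => ?_
    rw [mul_pow, pow_mul, Int.cast_natCast]
    ring
  refine ⟨w.support, w, fun z hz z0 w0 => ?_, fun t ht => by rw [h6 t ht]; ring⟩
  have h7 := T0.vanish w.support (fun z => (w z : ℂ)) (f.map (algebraMap ℚ ℂ)) (fun t ht => by
    have h7 := congrArg (algebraMap ℚ ℂ) (h1 t ht)
    rw [sum_over_range _ (by simp), map_sum] at h7
    rw [sum_over_range _ (by simp), natDegree_map, ← h7.trans (map_zero _)]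
    refine sum_congr rfl fun j _ => ?_
    rw [h6 _ (by omega), coeff_map, map_mul]
    simp) z hz z0 (Int.cast_ne_zero.2 w0)
  rwa [IsRoot.def, eval_map_algebraMap] at h7

lemma th_eq {k : Type} [Field k] [Fintype k] {K : Type} [Field K] [Algebra k K] {σ : Type}
    [Finite σ] {p : ℕ} [Fact p.Prime] [FBar K p] [Algebra (ZMod p) K] {e : ℕ}
    (hq : Fintype.card k = p ^ e) : T0.th k K σ = T0.th (ZMod p) K σ ^ e := by
  refine Equiv.ext fun a => (cm_expand_bijective (p := p) e).1 ?_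
  have h1 := T0.cm_th' (K := K) hq 1 a
  have h2 := T0.cm_th' (k := ZMod p) (K := K) (p := p) (e := 1) (by simp) e a
  rw [mul_one, pow_one] at h1
  rw [one_mul] at h2
  exact h1.trans h2.symm

end T1

open MvPolynomial

variable {k : Type} [Field k] [Finite k] {σ : Type} [Finite σ] {p : ℕ} [Fact p.Prime] [CharP k p]
  {I : Ideal (MvPolynomial σ k)} (hI : Homog I) (hs : ∀ s, Algebra.Smooth k (Chart I s))
  {d : ℕ} (hd : ∀ P ∈ I.minimalPrimes, ringKrullDim (MvPolynomial σ k ⧸ P) = (d + 1 : ℕ))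

theorem tate' (G : Set (MvPolynomial σ (ZMod p))) (hG : upI I = Ideal.span
      (MvPolynomial.map (ZMod.castHom (dvd_refl p) (AlgebraicClosure k)) '' G))
    (f : Polynomial ℚ) (hf0 : f.coeff 0 ≠ 0) (hf : ∀ m, 0 < m → ∀ i,
      IsCoprime f (Polynomial.X ^ m - Polynomial.C ((p : ℚ) ^ (m * i))))
    (H : ∀ t, (f.sum fun j a => a • (T0.sm (AlgebraicClosure k) hI hs hd).grC (p ^ (j + t))) ∈
      RatB (upI I) ⊔ ⨆ δ, ProdB (upI I) δ) (L : ℕ → Type)
    [∀ m, Field (L m)] [∀ m, Algebra k (L m)] (hL : ∀ m, Module.finrank k (L m) = m + 1) :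
    ∃ ζ : ℂ → ℂ, Meromorphic ζ ∧
      (∃ c : ℝ, ∀ s : ℂ, c < s.re → ζ s = Complex.exp (∑' m : ℕ,
        (points I (L m) : ℂ) * (Nat.card k : ℂ) ^ (-((m + 1 : ℕ) : ℂ) * s) / (m + 1 : ℕ))) ∧
      (∀ i n : ℕ, i + n = d → ∀ F : ∀ P : Var I i, Res I P.1, ∃ ρ : ℕ,
        Module.rank ℤ (Num I i n F) = ρ ∧ meromorphicOrderAt ζ n = (-(ρ : ℤ) : ℤ)) ∧
      ∀ n : ℕ, d < n → meromorphicOrderAt ζ n = 0 := by
  have : FBar (AlgebraicClosure k) p := ringChar.eq k p ▸ T0.fbar k
  have := Fintype.ofFinite k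
  let := ZMod.algebra (AlgebraicClosure k) p
  obtain ⟨e, he, hq⟩ : ∃ e : ℕ, 0 < e ∧ Fintype.card k = p ^ e :=
    (FiniteField.card k p).elim fun e h => ⟨e, e.2, h.2⟩
  have hG' : upI I = (Ideal.span G).map (T0.up (AlgebraicClosure k)) := by
    rw [hG, Ideal.map_span]
    rfl
  have hdef : DefOver p (T0.sm (AlgebraicClosure k) hI hs hd).I := by
    have h1 := T0.defOver_up (K := AlgebraicClosure k) (Ideal.span G) 1
    rw [ZMod.card, pow_one, ← hG'] at h1
    exact h1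
  obtain ⟨R, hR, tr, h1, h2⟩ := T0.trace_rec (T0.sm (AlgebraicClosure k) hI hs hd) hdef f hf H
  have hω := Complex.isPrimitiveRoot_exp _ hR.ne'
  choose hfin μ hμ0 hμ using h2 _ hω
  obtain ⟨S, ν, h3, h4⟩ := T1.expand (p := p)
    (a := fun t => (T0.sm (AlgebraicClosure k) hI hs hd).fixed (p ^ t))
    (DW.mer_proj FBar.alg G (Z := zeroLocus (AlgebraicClosure k) (upI I))
      (fun x => by rw [hG', T0.mem_zl_up, zeroLocus_span]; rfl)
      fun c x hx => hI.upI.smul_mem hx c) hf0 hR h1 hω.pow_eq_one (μ := μ 1)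
    fun n m => by rw [← hμ, one_mul]
  have hc : (Nat.card k : ℂ) = (p : ℂ) ^ e := by
    rw [Nat.card_eq_fintype_card, hq, Nat.cast_pow]
  obtain ⟨ζ, k1, k2, k3, k4⟩ := T0.zeta_int (Nat.card k) Finite.one_lt_card d hR hω (μ e) S ν
    (fun z => z ^ e) (fun z hz ν0 n hn => by
      rw [hc, ← pow_mul] at hn
      have z0 : z ≠ 0 := by
        rintro rfl
        rw [zero_pow he.ne'] at hn
        exact pow_ne_zero _ (Nat.cast_ne_zero.2 (Fact.out : p.Prime).ne_zero) hn.symm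
      have h5 := (hf e he n).map (Polynomial.aeval z : Polynomial ℚ →ₐ[ℚ] ℂ).toRingHom
      rw [AlgHom.toRingHom_eq_coe, RingHom.coe_coe, h3 z hz z0 ν0, map_sub, map_pow, Polynomial.aeval_X, Polynomial.aeval_C, map_pow,
        map_natCast, hn, sub_self] at h5
      exact not_isCoprime_zero_zero h5)
    (fun m => points I (L m)) fun m => by
      have : Module.Finite k (L m) := Module.finite_of_finrank_eq_succ (hL m)
      have : Finite (L m) := Module.finite_of_finite k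
      have := Fintype.ofFinite (L m)
      have hc' : Fintype.card (L m) = p ^ (e * (m + 1)) := by
        rw [Module.card_eq_pow_finrank (K := k), hL, hq, pow_mul]
      have h6 : points I (L m) = (T0.sm (AlgebraicClosure k) hI hs hd).fixed
          (p ^ (e * (m + 1))) := by
        rw [T0.points_eq hI (IsAlgClosed.lift : L m →ₐ[k] AlgebraicClosure k), hc']
        rfl
      rw [h6, h4 (e * (m + 1)) (Nat.mul_pos he m.succ_pos)]
      congr 1
      · refine Finset.sum_congr rfl fun n _ => ?_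
        rw [hμ, hc, ← pow_mul, ← pow_mul, ← pow_mul, mul_left_comm]
      · exact Finset.sum_congr rfl fun z _ => by rw [pow_mul]
  refine ⟨ζ, k1, k2, fun i n h F => ⟨μ e n 0, ?_, k3 n (by omega)⟩, k4⟩
  have := hfin e n
  rw [T0.rank_num (K := AlgebraicClosure k) hI hs hd hq h F, hμ0, T1.th_eq hq,
    Module.finrank_eq_rank]

end Pool.Agent.Lib.MP_557161_ag.DL
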