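import Pool.Agent.Lib.MP_557161_ag.DL.Defs

/-!
Chains of full flags closed up by the Frobenius of the unitary group, in the Pluecker-Segre
embedding.
-/

namespace Pool.Agent.Lib.MP_557161_ag.DL

open MvPolynomial

variable {L : Type} [Field L]

/-- A chain of full flags `E 0, ..., E l` in `L ^ (n + 1)`: the member `E j i` has dimension `i`,
the flags `E j` and `E (j + 1)` agree except possibly in dimension `w j + 1`, and `E l` is the flag
orthogonal to `E 0` for the form `∑ x r * y r ^ q`. -/
def IsChainU (q : ℕ) {n l : ℕ} (w : Fin l → Fin n)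
    (E : Fin (l + 1) → Fin (n + 1) → Submodule L (Fin (n + 1) → L)) : Prop :=
  (∀ j, Monotone (E j) ∧ ∀ i, Module.finrank L (E j i) = i) ∧
    (∀ (j : Fin l) i, i ≠ (w j).succ → E j.castSucc i = E j.succ i) ∧
    ∀ i i' : Fin (n + 1), i.1 + i'.1 = n + 1 →
      ∀ x ∈ E (Fin.last l) i, ∀ y ∈ E 0 i', ∑ r, x r * y r ^ q = 0

variable (L) in
/-- The affine cone over the set of chains, in the Pluecker-Segre embedding. -/
def coneU (q : ℕ) {n l : ℕ} (w : Fin l → Fin n) : Set (Idx (Fin (n + 1)) n l → L) :=
  {x | ∃ (c : L) (b : Fin (l + 1) → ∀ i : Fin (n + 1), Fin i → Fin (n + 1) → L),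
    IsChainU q w (fun j i => Submodule.span L (Set.range (b j i))) ∧ x = c • plk b}

/-- The homogeneous ideal over `k` of the Deligne-Lusztig variety of the unitary group. -/
noncomputable def idealU (k : Type) [Field k] (q : ℕ) {n l : ℕ} (w : Fin l → Fin n) :
    Ideal (MvPolynomial (Idx (Fin (n + 1)) n l) k) :=
  vanishingIdeal k (coneU (AlgebraicClosure k) q w)

end Pool.Agent.Lib.MP_557161_ag.DL
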