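import Pool.Agent.Lib.MP_557161_ag.TU.UDefs
import Pool.Agent.Lib.MP_557161_ag.DL.Model

/-!
Chains of full flags closed up by the unitary Frobenius, given by normalised matrices over any
commutative ring: lifting along square zero extensions, and the number of lifts.
-/

namespace Pool.Agent.Lib.MP_557161_ag.DL.UModel

open Matrix Model

variable {B B' : Type} [CommRing B] [CommRing B'] {ι α β γ : Type} [Fintype ι] {n l : ℕ}

/-- A chain of flags closed up by the unitary Frobenius, with normalised basis matrices. -/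
structure IsPtU (q : ℕ) (w : Fin l → Fin n) (s : Idx ι n l) (M : Fin (l + 1) → Fl ι n B) :
    Prop where
  fl : ∀ j, IsFl 0 (s j) (M j)
  adj : ∀ (j : Fin l) i, i ≠ (w j).succ → Inc (s j.succ i) (M j.castSucc i) (M j.succ i)
  orth : ∀ i i' : Fin (n + 1), i.1 + i'.1 = n + 1 →
    M (Fin.last l) i * ((M 0 i').map (· ^ q))ᵀ = 0

/-- The points of the chart `s` with values in a ring. -/
def GoodU (q : ℕ) (w : Fin l → Fin n) (s : Idx ι n l) (x : Idx ι n l → B) : Prop :=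
  IsPtU q w s (mat s x) ∧ x = plk' (mat s x)

omit [Fintype ι] in
lemma zmap (f : B →+* B') : (0 : Matrix α β B).map f = 0 := Matrix.map_zero _ f.map_zero

lemma isFl_mk {s : ∀ i : Fin (n + 1), Fin i → ι} {M : Fl ι n B} (hn : ∀ i, cols (M i) (s i) = 1)
    (hm : ∀ i i', i ≤ i' → Sub (M i) (M i')) : IsFl 0 s M :=
  ⟨hn, fun i i' h => (hm i i' h).inc (hn i'), fun i => by rw [Matrix.mul_zero, Matrix.zero_mul]⟩

lemma isFl_map {s : ∀ i : Fin (n + 1), Fin i → ι} {M : Fl ι n B} (h : IsFl 0 s M)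
    (f : B →+* B') : IsFl 0 s fun i => (M i).map f := by
  have := h.map f
  rwa [zmap] at this

lemma isFl_zmap {s : ∀ i : Fin (n + 1), Fin i → ι} {M : Fl ι n B'} (h : IsFl 0 s M)
    (f : B →+* B') : IsFl ((0 : Matrix ι ι B).map f) s M := by
  rwa [zmap]

lemma IsPtU.map {q : ℕ} {w : Fin l → Fin n} {s : Idx ι n l} {M : Fin (l + 1) → Fl ι n B}
    (h : IsPtU q w s M) (f : B →+* B') : IsPtU q w s fun j i => (M j i).map f where
  fl j := isFl_map (h.fl j) f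
  adj j i hi := (h.adj j i hi).map f
  orth i i' hi := by
    rw [map_pow_map, ← transpose_map, ← Matrix.map_mul, h.orth i i' hi, zmap]

lemma GoodU.map {q : ℕ} {w : Fin l → Fin n} {s : Idx ι n l} {x : Idx ι n l → B}
    (h : GoodU q w s x) (f : B →+* B') : GoodU q w s (f ∘ x) :=
  ⟨h.1.map f, (congrArg (f ∘ ·) h.2).trans (plk'_map _ f).symm⟩

/-- The conditions can be checked after a jointly injective family of ring maps. -/
lemma GoodU.of_maps {τ : Type} {C : τ → Type} [∀ a, CommRing (C a)] (f : ∀ a, B →+* C a)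
    (hf : ∀ x y, (∀ a, f a x = f a y) → x = y) {q : ℕ} {w : Fin l → Fin n}
    {s : Idx ι n l} {x : Idx ι n l → B} (h : ∀ a, GoodU q w s (f a ∘ x)) :
    GoodU q w s x := by
  have key : ∀ {α β : Type} (A A' : Matrix α β B), (∀ a, A.map (f a) = A'.map (f a)) → A = A' :=
    fun A A' e => Matrix.ext fun i j => hf _ _ fun a => congrFun (congrFun (e a) i) j
  have inc : ∀ {α β : Type} [Fintype β] (t : β → ι) (A : Matrix α ι B) (A' : Matrix β ι B),
      (∀ a, Inc t (A.map (f a)) (A'.map (f a))) → Inc t A A' :=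
    fun t A A' e => key _ _ fun a => by rw [Matrix.map_mul]; exact e a
  refine ⟨⟨fun j => ⟨fun i => key _ _ fun a => ?_, fun i i' hi => inc _ _ _ fun a =>
    ((h a).1.fl j).mono i i' hi, fun i => by rw [Matrix.mul_zero, Matrix.zero_mul]⟩,
    fun j i hi => inc _ _ _ fun a => (h a).1.adj j i hi, fun i i' hi => key _ _ fun a => ?_⟩,
    funext fun t => hf _ _ fun a => ?_⟩
  · rw [Matrix.map_one _ (f a).map_zero (f a).map_one]
    exact ((h a).1.fl j).norm i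
  · rw [zmap, Matrix.map_mul, transpose_map, ← map_pow_map]
    exact (h a).1.orth i i' hi
  · exact (congrFun (h a).2 t).trans (congrFun (plk'_map (mat s x) (f a)) t)

lemma orth_left [Fintype β] {X : Matrix α ι B} {Y : Matrix β ι B} {A : Matrix γ ι B}
    (h : Sub X Y) (hY : Y * Aᵀ = 0) : X * Aᵀ = 0 := by
  obtain ⟨C, rfl⟩ := h
  rw [Matrix.mul_assoc, hY, Matrix.mul_zero]

lemma orth_right [Fintype β] {X : Matrix α ι B} {A : Matrix γ ι B} {A' : Matrix β ι B}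
    (h : Sub A A') (hX : X * A'ᵀ = 0) : X * Aᵀ = 0 := by
  obtain ⟨C, rfl⟩ := h
  rw [transpose_mul, ← Matrix.mul_assoc, hX, Matrix.zero_mul]

variable [DecidableEq ι]

lemma cols_eq (X : Matrix α ι B) (t : β → ι) : X * cols (1 : Matrix ι ι B) t = cols X t := by
  rw [← cols_mul, Matrix.mul_one]

/-- A normalised matrix of the complementary size that is orthogonal to a normalised matrix spans
its orthogonal. -/
lemma orth_sub [Fintype α] [DecidableEq α] [Fintype β] [DecidableEq β] {X : Matrix α ι B}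
    {A : Matrix β ι B} {s : α → ι} {t : β → ι} (hX : cols X s = 1) (hA : cols A t = 1)
    (hXA : X * Aᵀ = 0) (hc : Fintype.card ι = Fintype.card α + Fintype.card β) {Y : Matrix γ ι B}
    (hY : Y * Aᵀ = 0) : Sub Y X := by
  obtain ⟨S, hS⟩ : ∃ S : Matrix ι α B, X * S = 1 := ⟨_, (cols_eq X s).trans hX⟩
  obtain ⟨T, hT⟩ : ∃ T : Matrix β ι B, T * Aᵀ = 1 :=
    ⟨(cols (1 : Matrix ι ι B) t)ᵀ, by rw [← transpose_mul, cols_eq, hA, transpose_one]⟩
  have e : ι ≃ α ⊕ β := Fintype.equivOfCardEq (by rw [Fintype.card_sum, hc])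
  have h := (fromCols_mul_fromRows_eq_one_comm e S Aᵀ X (T - T * S * X)).2 (by
    rw [fromRows_mul_fromCols, hS, hXA, Matrix.sub_mul, Matrix.sub_mul, Matrix.mul_assoc _ X,
      Matrix.mul_assoc _ X, hS, hXA, hT, Matrix.mul_one, sub_self, Matrix.mul_zero, sub_zero,
      fromBlocks_one])
  rw [fromCols_mul_fromRows] at h
  refine ⟨Y * S, ?_⟩
  have h2 := congrArg (Y * ·) h
  simp only [Matrix.mul_add, Matrix.mul_one] at h2
  rw [← Matrix.mul_assoc Y Aᵀ, hY, Matrix.zero_mul, add_zero, ← Matrix.mul_assoc] at h2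
  exact h2.symm

variable {f : B →+* B'}

lemma orth_lift [Fintype α] [DecidableEq α] [Fintype β] [DecidableEq β] (h : SqZ f)
    {Xb : Matrix α ι B'} {A : Matrix β ι B} {s : α → ι} {t : β → ι} (hX : cols Xb s = 1)
    (hA : cols A t = 1) (hXA : Xb * (A.map f)ᵀ = 0) :
    ∃ X : Matrix α ι B, X.map f = Xb ∧ cols X s = 1 ∧ X * Aᵀ = 0 := by
  obtain ⟨T, hT⟩ : ∃ T : Matrix β ι B, T * Aᵀ = 1 :=
    ⟨(cols (1 : Matrix ι ι B) t)ᵀ, by rw [← transpose_mul, cols_eq, hA, transpose_one]⟩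
  obtain ⟨X₀, rfl⟩ := h.lift Xb
  have h0 : (X₀ * Aᵀ).map f = 0 := by rw [Matrix.map_mul, transpose_map, hXA]
  have h1 : (X₀ - X₀ * Aᵀ * T).map f = X₀.map f := by
    rw [Model.map_sub', Matrix.map_mul, h0, Matrix.zero_mul, sub_zero]
  obtain ⟨M, m1, m2, m3, -⟩ := renorm h (X := X₀ - X₀ * Aᵀ * T) hX (h1.symm ▸ Sub.refl _)
  refine ⟨M, m1, m2, orth_left m3 ?_⟩
  rw [Matrix.sub_mul, Matrix.mul_assoc _ T, hT, Matrix.mul_one, sub_self]

lemma step_nonemptyU (h : SqZ f) {s s' : ∀ i : Fin (n + 1), Fin i → ι} {Mb : Fl ι n B'}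
    (hMb : IsFl 0 s Mb) {M' : Fl ι n B} (hM' : IsFl 0 s' M') (i₀ : Fin n)
    (adj : ∀ i, i ≠ i₀.succ → Sub (Mb i) ((M' i).map f)) :
    Nonempty (Step f 0 s s' Mb M' i₀.succ) := by
  have hMb' := isFl_zmap hMb f
  have b := below_sub hMb' adj
  by_cases hi : (i₀ : ℕ) + 1 < n
  · obtain ⟨e⟩ := step_equiv h hMb' hM' i₀ adj (next_iff hM' hi)
    obtain ⟨X, x1, x2, x3⟩ := mid_inc h (hM'.norm _)
      (hM'.mono i₀.castSucc ⟨i₀ + 2, by omega⟩ (show (i₀ : ℕ) ≤ i₀ + 2 by omega)).sub b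
      (above_sub hMb' adj (show (i₀ : ℕ) + 1 < i₀ + 2 by omega))
    obtain ⟨X', y1, y2, y3, y4⟩ := renorm h (X := X) (hMb.norm i₀.succ) (x1.symm ▸ Sub.refl _)
    exact ⟨e.symm ⟨X', y1, y2, x2.trans y4, y3.trans x3, by
      rw [Matrix.mul_zero, Matrix.zero_mul]⟩⟩
  · obtain ⟨e⟩ := step_equiv h hMb' hM' i₀ adj (last_iff M' hi)
    obtain ⟨X, x1, x2, -⟩ := mid_inc h (hM'.norm _) (Z := (1 : Matrix ι ι B))
      ⟨_, (Matrix.mul_one _).symm⟩ b ⟨_, by rw [Model.map_one', Matrix.mul_one]⟩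
    obtain ⟨X', y1, y2, -, y4⟩ := renorm h (X := X) (hMb.norm i₀.succ) (x1.symm ▸ Sub.refl _)
    exact ⟨e.symm ⟨X', y1, y2, x2.trans y4, ⟨_, (Matrix.mul_one _).symm⟩, by
      rw [Matrix.mul_zero, Matrix.zero_mul]⟩⟩

/-- The last flag of a lifted chain does not depend on the lift. -/
lemma last_uniqueU (h : SqZ f) (hι : Fintype.card ι = n + 1) {q : ℕ} (hq : 2 ≤ q) (F : B →+* B)
    (hF : ∀ x, F x = x ^ q) {w : Fin l → Fin n} {s : Idx ι n l}
    {Mb : Fin (l + 1) → Fl ι n B'} (hMb : IsPtU q w s Mb) :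
    ∃ a : Fl ι n B, (IsFl 0 (s (Fin.last l)) a ∧ ∀ i, (a i).map f = Mb (Fin.last l) i) ∧
      ∀ M : Fin (l + 1) → Fl ι n B, (∀ j, IsFl 0 (s j) (M j) ∧ ∀ i, (M j i).map f = Mb j i) →
        ((∀ i i' : Fin (n + 1), i.1 + i'.1 = n + 1 →
          M (Fin.last l) i * ((M 0 i').map (· ^ q))ᵀ = 0) ↔ M (Fin.last l) = a) := by
  obtain ⟨φ, hφ⟩ : ∃ φ : B' →+* B, ∀ x, φ (f x) = x ^ q := by
    refine ⟨f.liftOfSurjective h.surj ⟨F, fun x hx => ?_⟩, fun x => ?_⟩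
    · obtain ⟨m, rfl⟩ := Nat.exists_eq_add_of_le hq
      rw [RingHom.mem_ker, hF, pow_add, pow_two, h.sq x x hx hx, zero_mul]
    · rw [RingHom.liftOfSurjective, RingHom.liftOfRightInverse_comp_apply, hF]
  have hφ' : ∀ {α β : Type} (A : Matrix α β B), (A.map f).map φ = A.map (· ^ q) :=
    fun A => Matrix.ext fun i j => hφ _
  obtain ⟨A, hA⟩ : ∃ A : Fl ι n B, ∀ i, A i = (Mb 0 i).map φ := ⟨_, fun _ => rfl⟩
  have h0 : IsFl 0 (s 0) A := by
    rw [funext hA]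
    exact isFl_map (hMb.fl 0) φ
  have h1 : ∀ i, (A i).map f = (Mb 0 i).map (· ^ q) := fun i => by
    obtain ⟨A', hA'⟩ := h.lift (Mb 0 i)
    rw [hA, ← hA', hφ', map_pow_map]
  have h2 : ∀ i : Fin (n + 1), ∃ a : Matrix (Fin i) ι B, a.map f = Mb (Fin.last l) i ∧
      cols a (s (Fin.last l) i) = 1 ∧ ∀ i' : Fin (n + 1), i.1 + i'.1 = n + 1 →
        a * (A i')ᵀ = 0 := fun i => by
    by_cases hi : ∃ i' : Fin (n + 1), i.1 + i'.1 = n + 1
    · obtain ⟨i', hi'⟩ := hi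
      obtain ⟨a, a1, a2, a3⟩ := orth_lift h ((hMb.fl (Fin.last l)).norm i) (h0.norm i')
        (by rw [h1]; exact hMb.orth i i' hi')
      refine ⟨a, a1, a2, fun i'' hi'' => ?_⟩
      obtain rfl : i' = i'' := Fin.ext (by omega)
      exact a3
    · obtain ⟨X, hX⟩ := h.lift (Mb (Fin.last l) i)
      obtain ⟨a, a1, a2, -, -⟩ := renorm h (X := X) ((hMb.fl (Fin.last l)).norm i)
        (hX.symm ▸ Sub.refl _)
      exact ⟨a, a1, a2, fun i' hi' => absurd ⟨i', hi'⟩ hi⟩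
  choose a a1 a2 a3 using h2
  have h4 : ∀ (i i₂ : Fin (n + 1)) (Y : Matrix (Fin i) ι B), i ≤ i₂ →
      (∀ i' : Fin (n + 1), i.1 + i'.1 = n + 1 → Y * (A i')ᵀ = 0) → Sub Y (a i₂) := by
    intro i i₂ Y hi hY
    have hi' : i.1 ≤ i₂.1 := hi
    have := i₂.2
    by_cases h0i : i.1 = 0
    · exact ⟨0, Matrix.ext fun r _ => absurd r.2 (by omega)⟩
    · refine orth_sub (a2 i₂) (h0.norm ⟨n + 1 - i₂, by omega⟩) (a3 i₂ _ (by simp only; omega))
        (by simp only [Fintype.card_fin, hι]; omega) ?_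
      exact orth_right (h0.mono ⟨n + 1 - i₂, by omega⟩ ⟨n + 1 - i, by omega⟩
        (show n + 1 - i₂.1 ≤ n + 1 - i.1 by omega)).sub (hY _ (by simp only; omega))
  refine ⟨a, ⟨isFl_mk a2 fun i i' hi => h4 i i' _ hi (a3 i), a1⟩, fun M hM => ?_⟩
  have h3 : ∀ i, (M 0 i).map (· ^ q) = A i := fun i => by rw [hA, ← (hM 0).2 i, hφ']
  simp only [h3]
  exact ⟨fun e => funext fun i => (h4 i i _ le_rfl (e i)).eq ((hM _).1.norm i) (a2 i),
    fun e i => by rw [e]; exact a3 i⟩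

/-- Chains lift along square zero extensions. -/
theorem pt_liftU (h : SqZ f) (hι : Fintype.card ι = n + 1) {q : ℕ} (hq : 2 ≤ q)
    (F : B →+* B) (hF : ∀ x, F x = x ^ q) {w : Fin l → Fin n} {s : Idx ι n l}
    {Mb : Fin (l + 1) → Fl ι n B'} (hMb : IsPtU q w s Mb) :
    ∃ M, IsPtU q w s M ∧ ∀ j i, (M j i).map f = Mb j i := by
  obtain ⟨a, ha, ha'⟩ := last_uniqueU h hι hq F hF hMb
  obtain ⟨M, m1, m2, m3⟩ := chain_exists l
    (fun j M => IsFl 0 (s j) M ∧ ∀ i, (M i).map f = Mb j i)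
    (fun j M M' => ∀ i, i ≠ (w j).succ → Inc (s j.succ i) (M i) (M' i))
    (fun j M' hM' => step_nonemptyU h (hMb.fl _) hM'.1 (w j) fun i hi => by
      rw [hM'.2]; exact (hMb.adj j i hi).sub) a ha
  exact ⟨M, ⟨fun j => (m1 j).1, m2, (ha' M m1).2 m3⟩, fun j => (m1 j).2⟩

/-- The number of lifts of a chain. -/
theorem pt_cardU [Finite B] (h : SqZ f) (hι : Fintype.card ι = n + 1) {q : ℕ} (hq : 2 ≤ q)
    (F : B →+* B) (hF : ∀ x, F x = x ^ q) {w : Fin l → Fin n} {s : Idx ι n l}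
    {Mb : Fin (l + 1) → Fl ι n B'} (hMb : IsPtU q w s Mb) (c : ℕ)
    (hc : ∀ (j : Fin l) M', IsFl 0 (s j.succ) M' → (∀ i, i ≠ (w j).succ →
      Sub (Mb j.castSucc i) ((M' i).map f)) →
      Nat.card (Step f 0 (s j.castSucc) (s j.succ) (Mb j.castSucc) M' (w j).succ) = c) :
    Nat.card {M // IsPtU q w s M ∧ ∀ j i, (M j i).map f = Mb j i} = c ^ l := by
  obtain ⟨a, ha, ha'⟩ := last_uniqueU h hι hq F hF hMb
  have e := chain_card l (fun j M => IsFl 0 (s j) M ∧ ∀ i, (M i).map f = Mb j i)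
    (fun j M M' => ∀ i, i ≠ (w j).succ → Inc (s j.succ i) (M i) (M' i)) (fun _ => c)
    (fun j M' hM' => hc j M' hM'.1 fun i hi => by rw [hM'.2]; exact (hMb.adj j i hi).sub) a ha
  rw [Finset.prod_const, Finset.card_univ, Fintype.card_fin] at e
  rw [← e]
  refine Nat.card_congr (Equiv.subtypeEquivRight fun M => ⟨fun hM => ?_, fun hM => ?_⟩)
  · have m1 : ∀ j, IsFl 0 (s j) (M j) ∧ ∀ i, (M j i).map f = Mb j i :=
      fun j => ⟨hM.1.fl j, hM.2 j⟩
    exact ⟨m1, hM.1.adj, (ha' M m1).1 hM.1.orth⟩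
  · exact ⟨⟨fun j => (hM.1 j).1, hM.2.1, (ha' M hM.1).2 hM.2.2⟩, fun j => (hM.1 j).2⟩

theorem step_cardU {L : Type} [Field L] [Finite L] (hι : Fintype.card ι = n + 1)
    {s s' : ∀ i : Fin (n + 1), Fin i → ι} {Mb : Fl ι n L} (hMb : IsFl 0 s Mb)
    {M' : Fl ι n (DualNumber L)} (hM' : IsFl 0 s' M') (i₀ : Fin n)
    (adj : ∀ i, i ≠ i₀.succ → Sub (Mb i) ((M' i).map (fs L))) :
    Nat.card (Step (fs L) 0 s s' Mb M' i₀.succ) = Nat.card L := by
  obtain ⟨M₀⟩ := step_nonemptyU sqz_fs hMb hM' i₀ adj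
  have hMb' := isFl_zmap hMb (fs L)
  have b := below_sub hMb' adj
  have hb := isFl_map hM' (fs L)
  have b' := b.inc (hMb.norm _)
  unfold Inc at b'
  obtain ⟨a, a0, a1⟩ := exists_ker (C := cols ((M' i₀.castSucc).map (fs L)) (s i₀.succ))
    (S := cols (Mb i₀.succ) (s' i₀.castSucc)) (by rw [← cols_mul, ← b', hb.norm]) (by simp)
  have hi0 := i₀.2
  have hW : ∀ x, vecMulVec a x * (0 : Matrix ι ι L) * (Mb i₀.succ)ᵀ +
      Mb i₀.succ * (0 : Matrix ι ι L) * (vecMulVec a x)ᵀ = 0 ↔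
      (Mb i₀.succ * (0 : Matrix ι ι L)) *ᵥ x = 0 := fun x => by simp
  by_cases hi : (i₀ : ℕ) + 1 < n
  · obtain ⟨e⟩ := step_equiv sqz_fs hMb' hM' i₀ adj (next_iff hM' hi)
    have c := above_sub hMb' adj
      (show i₀.succ < ⟨i₀ + 2, by omega⟩ from show (i₀ : ℕ) + 1 < i₀ + 2 by omega)
    rw [Nat.card_congr e, mid_tangent (hM'.norm _) (e M₀), zmap, ← pow_one (Nat.card L)]
    exact tangent_card a0 a1 hW (hMb.norm _) c (hMb.iso _)
      ((rank_inner (hb.norm _) (by rw [Matrix.mul_zero, Matrix.zero_mul])).trans (by simp))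
  · obtain ⟨e⟩ := step_equiv sqz_fs hMb' hM' i₀ adj (last_iff M' hi)
    rw [Nat.card_congr e, mid_tangent (v := id) rfl (e M₀), Model.map_one', zmap,
      ← pow_one (Nat.card L)]
    have c : Sub (Mb i₀.succ) (1 : Matrix ι ι L) := ⟨_, (Matrix.mul_one _).symm⟩
    refine tangent_card a0 a1 hW (hMb.norm _) c (hMb.iso _)
      ((rank_inner (v := id) rfl (by rw [Matrix.mul_zero, Matrix.zero_mul])).trans ?_)
    simp only [Fintype.card_fin, Fin.val_succ, hι]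
    omega

end Pool.Agent.Lib.MP_557161_ag.DL.UModel
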